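import Mathlib

open Set Filter Topology

namespace Pool.Agent.Helper1.AssocPlane

/-! ### A real variable lemma -/

theorem inj_closed_range {h : ℝ → ℝ} (hc : Continuous h) (hi : Function.Injective h)
    (hr : IsClosed (range h)) : range h = univ := by
  have hopen : IsOpen (range h) := by
    rw [isOpen_iff_mem_nhds]
    rintro _ ⟨y, rfl⟩
    rcases hc.strictMono_of_inj hi with hm | hm
    · have h1 : Ioo (h (y - 1)) (h (y + 1)) ⊆ range h := by
        refine (intermediate_value_Ioo (by linarith) hc.continuousOn).trans ?_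
        exact image_subset_range _ _
      exact mem_of_superset (Ioo_mem_nhds (hm (by linarith)) (hm (by linarith))) h1
    · have h1 : Ioo (h (y + 1)) (h (y - 1)) ⊆ range h := by
        refine (intermediate_value_Ioo' (by linarith) hc.continuousOn).trans ?_
        exact image_subset_range _ _
      exact mem_of_superset (Ioo_mem_nhds (hm (by linarith)) (hm (by linarith))) h1
  exact IsClopen.eq_univ ⟨hr, hopen⟩ ⟨h 0, 0, rfl⟩

theorem const_of_localExtr {h : ℝ → ℝ} (hc : Continuous h) {P : Set ℝ} (hP : IsPreconnected P)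
    (hx : ∀ u ∈ P, IsLocalMax h u ∨ IsLocalMin h u) : ∀ u ∈ P, ∀ v ∈ P, h u = h v := by
  have hcount : (h '' P).Countable := by
    have hsub : h '' P ⊆ (range fun q : ℚ × ℚ => sSup (h '' Ioo (q.1 : ℝ) q.2)) ∪
        (range fun q : ℚ × ℚ => sInf (h '' Ioo (q.1 : ℝ) q.2)) := by
      rintro _ ⟨u, hu, rfl⟩
      rcases hx u hu with hm | hm
      · left
        obtain ⟨ε, hε, hball⟩ := Metric.eventually_nhds_iff.1 hm
        obtain ⟨r, hr1, hr2⟩ := exists_rat_btwn (show u - ε < u by linarith)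
        obtain ⟨s, hs1, hs2⟩ := exists_rat_btwn (show u < u + ε by linarith)
        refine ⟨(r, s), ?_⟩
        apply IsGreatest.csSup_eq
        refine ⟨⟨u, ⟨hr2, hs1⟩, rfl⟩, ?_⟩
        rintro _ ⟨y, ⟨hy1, hy2⟩, rfl⟩
        apply hball
        rw [Real.dist_eq, abs_lt]
        simp only at hy1 hy2
        constructor <;> linarith
      · right
        obtain ⟨ε, hε, hball⟩ := Metric.eventually_nhds_iff.1 hm
        obtain ⟨r, hr1, hr2⟩ := exists_rat_btwn (show u - ε < u by linarith)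
        obtain ⟨s, hs1, hs2⟩ := exists_rat_btwn (show u < u + ε by linarith)
        refine ⟨(r, s), ?_⟩
        apply IsLeast.csInf_eq
        refine ⟨⟨u, ⟨hr2, hs1⟩, rfl⟩, ?_⟩
        rintro _ ⟨y, ⟨hy1, hy2⟩, rfl⟩
        apply hball
        rw [Real.dist_eq, abs_lt]
        simp only at hy1 hy2
        constructor <;> linarith
    exact ((countable_range _).union (countable_range _)).mono hsub
  have hpre : IsPreconnected (h '' P) := hP.image h hc.continuousOn
  have key : ∀ u ∈ P, ∀ v ∈ P, ¬ h u < h v := by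
    intro u hu v hv hlt
    have h1 : Icc (h u) (h v) ⊆ h '' P := hpre.Icc_subset ⟨u, hu, rfl⟩ ⟨v, hv, rfl⟩
    exact absurd (Cardinal.Real.Icc_countable_iff.1 (hcount.mono h1)) (not_le.2 hlt)
  intro u hu v hv
  exact le_antisymm (not_lt.1 (key v hv u hu)) (not_lt.1 (key u hu v hv))

/-- at a point which is no local extremum, a continuous function maps neighbourhoods onto
neighbourhoods -/
theorem open_at {h : ℝ → ℝ} (hc : Continuous h) {u : ℝ} (h1 : ¬ IsLocalMax h u)
    (h2 : ¬ IsLocalMin h u) {W : Set ℝ} (hW : W ∈ 𝓝 u) : h '' W ∈ 𝓝 (h u) := by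
  obtain ⟨ε, hε, hball⟩ := Metric.mem_nhds_iff.1 hW
  have e1 : ∃ y ∈ Metric.ball u ε, h u < h y := by
    by_contra hcon
    push Not at hcon
    apply h1
    exact Filter.mem_of_superset (Metric.ball_mem_nhds u hε) hcon
  have e2 : ∃ y ∈ Metric.ball u ε, h y < h u := by
    by_contra hcon
    push Not at hcon
    apply h2
    exact Filter.mem_of_superset (Metric.ball_mem_nhds u hε) hcon
  obtain ⟨y, hy, hyu⟩ := e1
  obtain ⟨z, hz, hzu⟩ := e2
  have hpre : IsPreconnected (h '' Metric.ball u ε) := by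
    refine IsPreconnected.image ?_ h hc.continuousOn
    rw [Real.ball_eq_Ioo]; exact isPreconnected_Ioo
  have h3 : Icc (h z) (h y) ⊆ h '' Metric.ball u ε := hpre.Icc_subset ⟨z, hz, rfl⟩ ⟨y, hy, rfl⟩
  exact mem_of_superset (Icc_mem_nhds hzu hyu) (h3.trans (image_mono hball))

/-! ### associative coordinate of a homeomorphism -/

/-- `f` is associative and the first coordinate of a homeomorphism of the plane -/
def Good (f : ℝ → ℝ → ℝ) : Prop :=
  (∀ a b c, f (f a b) c = f a (f b c)) ∧ ∃ T : (ℝ × ℝ) ≃ₜ (ℝ × ℝ), ∀ p, (T p).1 = f p.1 p.2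

variable {f : ℝ → ℝ → ℝ}

theorem Good.cont (hf : Good f) : Continuous fun p : ℝ × ℝ => f p.1 p.2 := by
  obtain ⟨_, T, hT⟩ := hf
  have : (fun p : ℝ × ℝ => f p.1 p.2) = fun p => (T p).1 := by
    funext p; rw [hT]
  rw [this]
  exact continuous_fst.comp T.continuous

theorem Good.contR (hf : Good f) (a : ℝ) : Continuous (f a) :=
  hf.cont.comp (continuous_const.prodMk continuous_id)

theorem Good.contL (hf : Good f) (b : ℝ) : Continuous fun a => f a b :=
  hf.cont.comp (continuous_id.prodMk continuous_const)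

theorem Good.isOpenMap (hf : Good f) : IsOpenMap fun p : ℝ × ℝ => f p.1 p.2 := by
  obtain ⟨_, T, hT⟩ := hf
  have : (fun p : ℝ × ℝ => f p.1 p.2) = fun p => (T p).1 := by
    funext p; rw [hT]
  rw [this]
  exact isOpenMap_fst.comp T.isOpenMap

theorem Good.preconn (hf : Good f) {M : Set ℝ} (hM : IsPreconnected M) :
    IsPreconnected {p : ℝ × ℝ | f p.1 p.2 ∈ M} := by
  obtain ⟨_, T, hT⟩ := hf
  have : {p : ℝ × ℝ | f p.1 p.2 ∈ M} = T ⁻¹' (M ×ˢ univ) := by
    ext p
    simp [hT]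
  rw [this, Homeomorph.isPreconnected_preimage]
  exact hM.prod isPreconnected_univ

theorem Good.neg (hf : Good f) : Good fun a b => -f (-a) (-b) := by
  obtain ⟨ha, T, hT⟩ := hf
  refine ⟨fun a b c => ?_, ((Homeomorph.neg (ℝ × ℝ)).trans T).trans (Homeomorph.neg (ℝ × ℝ)), ?_⟩
  · simp only [neg_neg]
    rw [ha]
  · intro p
    simp [hT]

theorem Good.op (hf : Good f) : Good fun a b => f b a := by
  obtain ⟨ha, T, hT⟩ := hf
  refine ⟨fun a b c => ?_, (Homeomorph.prodComm ℝ ℝ).trans T, ?_⟩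
  · exact (ha c b a).symm
  · intro p
    simp [hT]

theorem Good.line (hf : Good f) {a q : ℝ} (h : ∀ y, f a y = q) {x y : ℝ} (hxy : f x y = q) :
    x = a := by
  obtain ⟨_, T, hT⟩ := hf
  set g : ℝ → ℝ := fun y => (T (a, y)).2 with hg
  have hTy : ∀ y, T (a, y) = (q, g y) := by
    intro y
    apply Prod.ext
    · rw [hT]; exact h y
    · rfl
  have hgc : Continuous g := continuous_snd.comp (T.continuous.comp (continuous_const.prodMk
    continuous_id))
  have hgi : Function.Injective g := by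
    intro y y' hyy
    have h1 : T (a, y) = T (a, y') := by rw [hTy, hTy, hyy]
    exact (Prod.mk.inj (T.injective h1)).2
  have hgr : IsClosed (range g) := by
    have h1 : range g = (fun t : ℝ => (q, t)) ⁻¹' (T '' {p : ℝ × ℝ | p.1 = a}) := by
      ext t
      constructor
      · rintro ⟨y, rfl⟩
        exact ⟨(a, y), rfl, hTy y⟩
      · rintro ⟨⟨b, y⟩, hb, hty⟩
        simp only [mem_ofPred_eq] at hb
        subst hb
        refine ⟨y, ?_⟩
        rw [hTy] at hty
        exact (Prod.mk.inj hty).2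
    rw [h1]
    refine IsClosed.preimage (by fun_prop) ?_
    exact T.isClosedMap _ (isClosed_eq continuous_fst continuous_const)
  have hgs := inj_closed_range hgc hgi hgr
  have : (T (x, y)).2 ∈ range g := by rw [hgs]; trivial
  obtain ⟨y', hy'⟩ := this
  have h2 : T (x, y) = T (a, y') := by
    rw [hTy, hy']
    apply Prod.ext
    · rw [hT]; exact hxy
    · rfl
  exact (Prod.mk.inj (T.injective h2)).1

theorem Good.line' (hf : Good f) {u0 m : ℝ} (h : ∀ u v, f u v = m → u = u0) (v : ℝ) :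
    f u0 v = m := by
  obtain ⟨_, T, hT⟩ := hf
  set w : ℝ → ℝ := fun t => (T.symm (m, t)).2 with hw
  have h1 : ∀ t, T.symm (m, t) = (u0, w t) := by
    intro t
    apply Prod.ext
    · apply h _ (T.symm (m, t)).2
      rw [← hT]; simp
    · rfl
  have hwc : Continuous w := continuous_snd.comp (T.symm.continuous.comp (continuous_const.prodMk
    continuous_id))
  have hwi : Function.Injective w := by
    intro t t' htt
    have h2 : T.symm (m, t) = T.symm (m, t') := by rw [h1, h1, htt]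
    exact (Prod.mk.inj (T.symm.injective h2)).2
  have hwr : IsClosed (range w) := by
    have h3 : range w = {v | (T (u0, v)).1 = m} := by
      ext v
      constructor
      · rintro ⟨t, rfl⟩
        simp only [mem_ofPred_eq]
        rw [← h1]; simp
      · intro hv
        simp only [mem_ofPred_eq] at hv
        refine ⟨(T (u0, v)).2, ?_⟩
        have : (m, (T (u0, v)).2) = T (u0, v) := by rw [← hv]
        rw [hw]
        simp only
        rw [this]; simp
    rw [h3]
    exact isClosed_eq (continuous_fst.comp (T.continuous.comp (continuous_const.prodMk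
      continuous_id))) continuous_const
  have hws := inj_closed_range hwc hwi hwr
  have : v ∈ range w := by rw [hws]; trivial
  obtain ⟨t, rfl⟩ := this
  have h4 := congrArg T (h1 t)
  rw [T.apply_symm_apply] at h4
  rw [← hT (u0, w t), ← h4]

theorem Good.proj (hf : Good f) {u q : ℝ} (h : ∀ y, f u y = q) : ∀ x y, f x y = x := by
  have ha := hf.1
  have hq : q = u := by
    apply hf.line h (y := 0)
    rw [← h 0, ha, h]
    exact h _ |>.symm ▸ rfl
  subst hq
  intro x y
  have hz : ∀ y, f (f x q) y = f x q := by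
    intro y
    rw [ha, h]
  have : x = f x q := hf.line hz (y := q) rfl
  rw [this]
  exact hz y

theorem plateauR {h : ℝ → ℝ} (hc : Continuous h) {z y3 d : ℝ} (hz : z < y3) (hzd : h z = d)
    (h3 : h y3 < d) (hle : ∀ y ∈ Icc z y3, h y ≤ d) :
    ∃ m, z ≤ m ∧ m < y3 ∧ (∀ t ∈ Icc z m, h t = d) ∧ ∀ ε > 0, ∃ y ∈ Ioo m (m + ε), h y < d := by
  set B : Set ℝ := {y | y ∈ Icc z y3 ∧ h y < d} with hB
  have hBne : B.Nonempty := ⟨y3, ⟨hz.le, le_rfl⟩, h3⟩
  have hBbd : BddBelow B := ⟨z, fun y hy => hy.1.1⟩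
  set m := sInf B with hm
  have hzm : z ≤ m := le_csInf hBne fun y hy => hy.1.1
  have hmy : m ≤ y3 := csInf_le hBbd ⟨⟨hz.le, le_rfl⟩, h3⟩
  have hlt : ∀ t, z ≤ t → t < m → h t = d := by
    intro t ht1 ht2
    have h1 := hle t ⟨ht1, by linarith⟩
    by_contra hne
    have : t ∈ B := ⟨⟨ht1, by linarith⟩, lt_of_le_of_ne h1 hne⟩
    exact absurd (csInf_le hBbd this) (not_le.2 ht2)
  have hmd : h m = d := by
    rcases eq_or_lt_of_le hzm with he | hlt'
    · rw [← he, hzd]
    · by_contra hne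
      have hmlt : h m < d := lt_of_le_of_ne (hle m ⟨hzm, hmy⟩) hne
      have hev : ∀ᶠ y in 𝓝 m, h y < d := hc.continuousAt.eventually_lt continuousAt_const hmlt
      obtain ⟨ε, hε, hball⟩ := Metric.eventually_nhds_iff.1 hev
      set t := max z (m - ε / 2) with ht
      have ht1 : z ≤ t := le_max_left _ _
      have ht2 : t < m := max_lt hlt' (by linarith)
      have ht3 : m - ε / 2 ≤ t := le_max_right _ _
      have h4 := hball (y := t) (by rw [Real.dist_eq, abs_lt]; constructor <;> linarith)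
      rw [hlt t ht1 ht2] at h4
      exact lt_irrefl _ h4
  refine ⟨m, hzm, lt_of_le_of_ne hmy (by rintro he; rw [he] at hmd; linarith), ?_, ?_⟩
  · intro t ht
    rcases eq_or_lt_of_le ht.2 with he | hlt'
    · rw [he, hmd]
    · exact hlt t ht.1 hlt'
  · intro ε hε
    obtain ⟨y, hy, hyε⟩ := exists_lt_of_csInf_lt hBne (show sInf B < m + ε by rw [← hm]; linarith)
    refine ⟨y, ⟨?_, hyε⟩, hy.2⟩
    refine lt_of_le_of_ne (csInf_le hBbd hy) ?_
    intro he
    have he' : m = y := he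
    rw [he'] at hmd
    linarith [hy.2]

theorem plateauL {h : ℝ → ℝ} (hc : Continuous h) {z y1 d : ℝ} (hz : y1 < z) (hzd : h z = d)
    (h3 : h y1 < d) (hle : ∀ y ∈ Icc y1 z, h y ≤ d) :
    ∃ m, m ≤ z ∧ y1 < m ∧ (∀ t ∈ Icc m z, h t = d) ∧ ∀ ε > 0, ∃ y ∈ Ioo (m - ε) m, h y < d := by
  obtain ⟨m, h1, h2, h3, h4⟩ := plateauR (h := fun y => h (-y)) (hc.comp continuous_neg)
    (z := -z) (y3 := -y1) (d := d) (by linarith) (by simpa using hzd) (by simpa using h3)
    (fun y hy => hle (-y) ⟨by linarith [hy.2], by linarith [hy.1]⟩)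
  refine ⟨-m, by linarith, by linarith, ?_, ?_⟩
  · intro t ht
    have := h3 (-t) ⟨by linarith [ht.2], by linarith [ht.1]⟩
    simpa using this
  · intro ε hε
    obtain ⟨y, hy, hyd⟩ := h4 ε hε
    exact ⟨-y, ⟨by linarith [hy.2], by linarith [hy.1]⟩, hyd⟩

theorem Good.noFold (hf : Good f) (nc : ∀ u, ¬ ∃ q, ∀ y, f u y = q) (a : ℝ) {y1 y2 y3 : ℝ}
    (h12 : y1 < y2) (h23 : y2 < y3) (hl : f a y1 < f a y2) (hr : f a y3 < f a y2) : False := by
  have ha := hf.1
  set h := f a with hh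
  have hc : Continuous h := hf.contR a
  obtain ⟨z, hz, hmax⟩ := (isCompact_Icc (a := y1) (b := y3)).exists_isMaxOn
    ⟨y1, le_rfl, by linarith⟩ hc.continuousOn
  have hmax' : ∀ y ∈ Icc y1 y3, h y ≤ h z := fun y hy => hmax hy
  set d := h z with hd
  have hy2d : h y2 ≤ d := hmax' y2 ⟨h12.le, h23.le⟩
  have hz1 : y1 < z := lt_of_le_of_ne hz.1 (by rintro rfl; linarith)
  have hz3 : z < y3 := lt_of_le_of_ne hz.2 (by rintro rfl; linarith)
  obtain ⟨m2, hzm2, hm2y, hp2, hn2⟩ := plateauR hc hz3 hd.symm (by linarith)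
    (fun y hy => hmax' y ⟨by linarith [hy.1], hy.2⟩)
  obtain ⟨m1, hzm1, hm1y, hp1, hn1⟩ := plateauL hc hz1 hd.symm (by linarith)
    (fun y hy => hmax' y ⟨hy.1, by linarith [hy.2]⟩)
  have hm12 : m1 ≤ m2 := hzm1.trans hzm2
  have hM : ∀ y ∈ Icc m1 m2, h y = d := by
    intro y hy
    rcases le_total y z with hyz | hyz
    · exact hp1 y ⟨hy.1, hyz⟩
    · exact hp2 y ⟨hyz, hy.2⟩
  set P : Set ℝ := {u | ∃ v, f u v ∈ Icc m1 m2} with hP
  have hPpre : IsPreconnected P := by
    have h1 := hf.preconn (isPreconnected_Icc (a := m1) (b := m2))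
    have h2 : P = Prod.fst '' {p : ℝ × ℝ | f p.1 p.2 ∈ Icc m1 m2} := by
      ext u
      constructor
      · rintro ⟨v, hv⟩; exact ⟨(u, v), hv, rfl⟩
      · rintro ⟨⟨u', v⟩, hv, rfl⟩; exact ⟨v, hv⟩
    rw [h2]
    exact h1.image _ continuous_fst.continuousOn
  have hext : ∀ u ∈ P, IsLocalMax h u ∨ IsLocalMin h u := by
    rintro u ⟨v, hv⟩
    by_contra hcon
    push Not at hcon
    obtain ⟨c1, c2⟩ := hcon
    have hO : {p : ℝ × ℝ | f p.1 p.2 ∈ Ioo y1 y3} ∈ 𝓝 (u, v) := by
      have hop : IsOpen {p : ℝ × ℝ | f p.1 p.2 ∈ Ioo y1 y3} := isOpen_Ioo.preimage hf.cont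
      exact hop.mem_nhds ⟨by linarith [hv.1], by linarith [hv.2]⟩
    rw [mem_nhds_prod_iff] at hO
    obtain ⟨W, hW, W', hW', hWW⟩ := hO
    have h1 := open_at hc c1 c2 hW
    have h2 : (h '' W) ×ˢ W' ∈ 𝓝 (h u, v) := prod_mem_nhds h1 hW'
    have h3 := hf.isOpenMap.image_mem_nhds h2
    have h4 : f (h u) v = d := by
      rw [hh, ha, ← hh]; exact hM _ hv
    simp only [h4] at h3
    have h5 : (fun p : ℝ × ℝ => f p.1 p.2) '' ((h '' W) ×ˢ W') ⊆ Iic d := by
      rintro _ ⟨⟨_, v'⟩, ⟨⟨u', hu', rfl⟩, hv'⟩, rfl⟩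
      have h6 : f u' v' ∈ Ioo y1 y3 := hWW (show (u', v') ∈ W ×ˢ W' from ⟨hu', hv'⟩)
      show f (h u') v' ≤ d
      rw [hh, ha, ← hh]
      exact hmax' _ ⟨h6.1.le, h6.2.le⟩
    have h7 : Iic d ∈ 𝓝 d := mem_of_superset h3 h5
    rw [Metric.mem_nhds_iff] at h7
    obtain ⟨ε, hε, hball⟩ := h7
    have h8 : d + ε / 2 ∈ Metric.ball d ε := by
      rw [Metric.mem_ball, Real.dist_eq, add_sub_cancel_left, abs_of_pos (by linarith)]
      linarith
    have := hball h8
    simp only [mem_Iic] at this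
    linarith
  have hconst := const_of_localExtr hc hPpre hext
  have hclaim : ∀ m ∈ Icc m1 m2, ∃ u0 v0, f u0 v0 = m ∧ P ∈ 𝓝 u0 := by
    intro m hm
    by_contra hcon
    push Not at hcon
    have hPm : IsPreconnected {u | ∃ v, f u v = m} := by
      have h1 := hf.preconn (isPreconnected_singleton (x := m))
      have h2 : {u | ∃ v, f u v = m} = Prod.fst '' {p : ℝ × ℝ | f p.1 p.2 ∈ ({m} : Set ℝ)} := by
        ext u
        constructor
        · rintro ⟨v, hv⟩; exact ⟨(u, v), hv, rfl⟩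
        · rintro ⟨⟨u', v⟩, hv, rfl⟩; exact ⟨v, hv⟩
      rw [h2]
      exact h1.image _ continuous_fst.continuousOn
    have hsurj : ∃ u v, f u v = m := by
      obtain ⟨_, T, hT⟩ := hf
      exact ⟨(T.symm (m, 0)).1, (T.symm (m, 0)).2, by rw [← hT]; simp⟩
    obtain ⟨u1, v1, h1⟩ := hsurj
    have key : ∀ u u' v v', f u v = m → f u' v' = m → ¬ u < u' := by
      intro u u' v v' hu hu' hlt
      have hIcc := hPm.Icc_subset ⟨v, hu⟩ ⟨v', hu'⟩
      obtain ⟨w, hw⟩ := hIcc (show (u + u') / 2 ∈ Icc u u' by constructor <;> linarith)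
      apply hcon _ _ hw
      refine mem_of_superset (Icc_mem_nhds (show u < (u + u') / 2 by linarith)
        (show (u + u') / 2 < u' by linarith)) ?_
      intro t ht
      obtain ⟨s, hs⟩ := hIcc ht
      exact ⟨s, by rw [hs]; exact hm⟩
    apply nc u1
    refine ⟨m, hf.line' fun u v huv => ?_⟩
    exact le_antisymm (not_lt.1 (key u1 u v1 v h1 huv)) (not_lt.1 (key u u1 v v1 huv h1))
  have hR : ∃ u' v', u' ∈ P ∧ m2 < f u' v' ∧ h (f u' v') < d := by
    obtain ⟨u0, v0, h1, h2⟩ := hclaim m2 ⟨hm12, le_rfl⟩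
    have h3 : P ×ˢ (univ : Set ℝ) ∈ 𝓝 (u0, v0) := prod_mem_nhds h2 univ_mem
    have h4 := hf.isOpenMap.image_mem_nhds h3
    simp only [h1] at h4
    obtain ⟨ε, hε, hball⟩ := Metric.mem_nhds_iff.1 h4
    obtain ⟨y, hy, hyd⟩ := hn2 ε hε
    obtain ⟨⟨u', v'⟩, ⟨hu', _⟩, he⟩ := hball (show y ∈ Metric.ball m2 ε by
      rw [Metric.mem_ball, Real.dist_eq, abs_lt]; constructor <;> linarith [hy.1, hy.2])
    simp only at he hu'
    exact ⟨u', v', hu', by rw [he]; exact hy.1, by rw [he]; exact hyd⟩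
  have hL : ∃ u' v', u' ∈ P ∧ f u' v' < m1 ∧ h (f u' v') < d := by
    obtain ⟨u0, v0, h1, h2⟩ := hclaim m1 ⟨le_rfl, hm12⟩
    have h3 : P ×ˢ (univ : Set ℝ) ∈ 𝓝 (u0, v0) := prod_mem_nhds h2 univ_mem
    have h4 := hf.isOpenMap.image_mem_nhds h3
    simp only [h1] at h4
    obtain ⟨ε, hε, hball⟩ := Metric.mem_nhds_iff.1 h4
    obtain ⟨y, hy, hyd⟩ := hn1 ε hε
    obtain ⟨⟨u', v'⟩, ⟨hu', _⟩, he⟩ := hball (show y ∈ Metric.ball m1 ε by
      rw [Metric.mem_ball, Real.dist_eq, abs_lt]; constructor <;> linarith [hy.1, hy.2])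
    simp only at he hu'
    exact ⟨u', v', hu', by rw [he]; exact hy.2, by rw [he]; exact hyd⟩
  have hmiss : ∀ u' v', u' ∈ P → h (f u' v') < d → ∀ t, f t v' ∉ Icc m1 m2 := by
    intro u' v' hu' hlt t ht
    have htP : t ∈ P := ⟨v', ht⟩
    have h1 : h (f t v') = h (f u' v') := by
      rw [hh, ← ha, ← ha, ← hh, hconst t htP u' hu']
    rw [hM _ ht] at h1
    linarith
  obtain ⟨u', v', hu', hg', hlt'⟩ := hR
  obtain ⟨u'', v'', hu'', hg'', hlt''⟩ := hL
  have hPuniv : ∀ w, w ∈ P := by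
    intro w
    have e1 : m2 < f w v' := by
      by_contra hcon
      rw [not_lt] at hcon
      obtain ⟨t, ht⟩ := mem_range_of_exists_le_of_exists_ge (hf.contL v') ⟨w, hcon⟩ ⟨u', hg'.le⟩
      apply hmiss u' v' hu' hlt' t
      simp only at ht
      rw [ht]; exact ⟨hm12, le_rfl⟩
    have e2 : f w v'' < m1 := by
      by_contra hcon
      rw [not_lt] at hcon
      obtain ⟨t, ht⟩ := mem_range_of_exists_le_of_exists_ge (hf.contL v'') ⟨u'', hg''.le⟩ ⟨w, hcon⟩
      apply hmiss u'' v'' hu'' hlt'' t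
      simp only at ht
      rw [ht]; exact ⟨le_rfl, hm12⟩
    obtain ⟨t, ht⟩ := mem_range_of_exists_le_of_exists_ge (hf.contR w) ⟨v'', e2.le⟩
      ⟨v', (hm12.trans_lt e1).le⟩
    exact ⟨t, by rw [ht]; exact ⟨le_rfl, hm12⟩⟩
  have := hconst y1 (hPuniv _) y2 (hPuniv _)
  linarith

theorem Good.mono_or_anti (hf : Good f) (nc : ∀ u, ¬ ∃ q, ∀ y, f u y = q) (a : ℝ) :
    Monotone (f a) ∨ Antitone (f a) := by
  by_contra hcon
  rw [not_or, not_monotone_not_antitone_iff_exists_lt_lt] at hcon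
  obtain ⟨y1, y2, y3, h12, h23, h | h⟩ := hcon
  · exact hf.noFold nc a h12 h23 h.1 h.2
  · refine hf.neg.noFold ?_ (-a) (y1 := -y3) (y2 := -y2) (y3 := -y1) (by linarith) (by linarith)
      ?_ ?_
    · rintro u ⟨q, hq⟩
      apply nc (-u)
      refine ⟨-q, fun y => ?_⟩
      have := hq (-y)
      rw [neg_neg] at this
      linarith
    · simp only [neg_neg]; linarith [h.2]
    · simp only [neg_neg]; linarith [h.1]

theorem Good.monoR (hf : Good f) (a : ℝ) : Monotone (f a) := by
  by_cases nc : ∃ u q, ∀ y, f u y = q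
  · obtain ⟨u, q, hq⟩ := nc
    intro y y' _
    rw [hf.proj hq, hf.proj hq]
  · have nc' : ∀ u, ¬ ∃ q, ∀ y, f u y = q := fun u hu => nc ⟨u, hu⟩
    have hma := hf.mono_or_anti nc'
    have hnot : ∀ u, Monotone (f u) → Antitone (f u) → False := by
      intro u h1 h2
      apply nc' u
      refine ⟨f u 0, fun y => ?_⟩
      rcases le_total y 0 with hy | hy
      · exact le_antisymm (h1 hy) (h2 hy)
      · exact le_antisymm (h2 hy) (h1 hy)
    have hclM : IsClosed {u | Monotone (f u)} := by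
      have : {u | Monotone (f u)} = ⋂ y, ⋂ y', ⋂ (_ : y ≤ y'), {u | f u y ≤ f u y'} := by
        ext u; simp [Monotone]
      rw [this]
      exact isClosed_iInter fun y => isClosed_iInter fun y' => isClosed_iInter fun _ =>
        isClosed_le (hf.contL y) (hf.contL y')
    have hclA : IsClosed {u | Antitone (f u)} := by
      have : {u | Antitone (f u)} = ⋂ y, ⋂ y', ⋂ (_ : y ≤ y'), {u | f u y' ≤ f u y} := by
        ext u; simp [Antitone]
      rw [this]
      exact isClosed_iInter fun y => isClosed_iInter fun y' => isClosed_iInter fun _ =>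
        isClosed_le (hf.contL y') (hf.contL y)
    have hcompl : {u | Monotone (f u)}ᶜ = {u | Antitone (f u)} := by
      ext u
      constructor
      · intro hu
        rcases hma u with h | h
        · exact absurd h hu
        · exact h
      · intro hu hu'
        exact hnot u hu' hu
    have hclopen : IsClopen {u | Monotone (f u)} := ⟨hclM, by
      rw [← isClosed_compl_iff, hcompl]; exact hclA⟩
    have hne : {u | Monotone (f u)}.Nonempty := by
      refine ⟨f a a, ?_⟩
      have he : f (f a a) = f a ∘ f a := by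
        funext y
        exact hf.1 a a y
      show Monotone (f (f a a))
      rw [he]
      rcases hma a with h | h
      · exact h.comp h
      · exact h.comp h
    have := hclopen.eq_univ hne
    have h2 : a ∈ {u | Monotone (f u)} := by rw [this]; trivial
    exact h2

theorem Good.mono (hf : Good f) {a b a' b' : ℝ} (h1 : a ≤ a') (h2 : b ≤ b') :
    f a b ≤ f a' b' :=
  (hf.monoR a h2).trans (hf.op.monoR b' h1)

end Pool.Agent.Helper1.AssocPlane
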