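import Mathlib

namespace Pool.Agent.Helper1.Chordal

open SimpleGraph

/-- A graph is chordal if it has no induced cycle of length at least four. -/
def IsChordal {V : Type} (G : SimpleGraph V) : Prop :=
  ∀ n : ℕ, 4 ≤ n → IsEmpty (SimpleGraph.cycleGraph n ↪g G)

variable {V : Type} (G : SimpleGraph V)

/-- the part of `G` inside `Z` -/
def part (Z : Set V) : SimpleGraph V where
  Adj a b := G.Adj a b ∧ a ∈ Z ∧ b ∈ Z
  symm := ⟨fun _ _ h => ⟨h.1.symm, h.2.2, h.2.1⟩⟩
  loopless := ⟨fun _ h => h.1.ne rfl⟩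

theorem cyc_adj {m : ℕ} (u v : Fin (m + 3)) :
    (cycleGraph (m + 3)).Adj u v ↔
      (u.val = v.val + 1 ∨ v.val = u.val + 1 ∨ (u.val = 0 ∧ v.val = m + 2) ∨
        (v.val = 0 ∧ u.val = m + 2)) := by
  rw [cycleGraph_adj']
  have key : ∀ a b : Fin (m + 3), (a - b).val = 1 ↔
      (a.val = b.val + 1 ∨ (a.val = 0 ∧ b.val = m + 2)) := by
    intro a b
    have ha := a.isLt
    have hb := b.isLt
    by_cases hab : b ≤ a
    · rw [Fin.sub_val_of_le hab]
      have : b.val ≤ a.val := hab
      omega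
    · have hlt : a.val < b.val := not_le.1 hab
      have : (a - b).val = (m + 3) - b.val + a.val := by
        rw [Fin.sub_def]
        simp only
        rw [Nat.mod_eq_of_lt (by omega)]
      rw [this]
      omega
  rw [key, key]
  omega

theorem clique_lemma (hG : IsChordal G) (v x y : V) (W : Set V)
    (hW : ∀ u ∈ W, u ≠ v ∧ ¬ G.Adj v u) (hx : G.Adj v x) (hy : G.Adj v y) (hxy : x ≠ y)
    (c1 c2 : V) (hc1 : c1 ∈ W) (hc2 : c2 ∈ W) (hxc : G.Adj x c1) (hyc : G.Adj y c2)
    (hr : (part G W).Reachable c1 c2) : G.Adj x y := by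
  by_contra hnadj
  set Z : Set V := W ∪ {x, y} with hZ
  set H := part G Z with hH
  have hxZ : x ∈ Z := by simp [hZ]
  have hyZ : y ∈ Z := by simp [hZ]
  have hWZ : W ⊆ Z := Set.subset_union_left
  have hle : part G W ≤ H := by
    intro a b hab
    exact ⟨hab.1, hWZ hab.2.1, hWZ hab.2.2⟩
  have h1 : H.Adj x c1 := ⟨hxc, hxZ, hWZ hc1⟩
  have h2 : H.Adj c2 y := ⟨hyc.symm, hWZ hc2, hyZ⟩
  have hreach : H.Reachable x y :=
    (h1.reachable.trans (hr.mono hle)).trans h2.reachable
  obtain ⟨p, hp⟩ := hreach.exists_walk_length_eq_dist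
  set L := p.length with hL
  have hdist1 : ∀ i, H.dist x (p.getVert i) ≤ i := by
    intro i
    refine (SimpleGraph.dist_le (p.take i)).trans ?_
    rw [Walk.take_length]
    exact min_le_left _ _
  have hdist2 : ∀ i, H.dist (p.getVert i) y ≤ L - i := by
    intro i
    refine (SimpleGraph.dist_le (p.drop i)).trans ?_
    rw [Walk.drop_length]
  have hconn : ∀ i, H.Reachable x (p.getVert i) := fun i => (p.take i).reachable
  have hkey : ∀ i j, i ≤ L → j ≤ L → ∀ d, H.dist (p.getVert i) (p.getVert j) ≤ d → j ≤ i + d := by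
    intro i j hi hj d hd
    have t1 : H.dist x y ≤ H.dist x (p.getVert i) + H.dist (p.getVert i) y := by
      exact (hconn i).dist_triangle_left _
    have t2 : H.dist (p.getVert i) y ≤
        H.dist (p.getVert i) (p.getVert j) + H.dist (p.getVert j) y := by
      have : H.Reachable (p.getVert i) (p.getVert j) := (hconn i).symm.trans (hconn j)
      exact this.dist_triangle_left _
    have := hdist1 i
    have := hdist2 j
    omega
  have hinj : ∀ i j, i ≤ L → j ≤ L → p.getVert i = p.getVert j → i = j := by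
    intro i j hi hj hij
    have a1 := hkey i j hi hj 0 (by rw [hij]; simp)
    have a2 := hkey j i hj hi 0 (by rw [hij]; simp)
    omega
  have hadj : ∀ i j, i ≤ L → j ≤ L → H.Adj (p.getVert i) (p.getVert j) →
      (i = j + 1 ∨ j = i + 1) := by
    intro i j hi hj hij
    have d1 : H.dist (p.getVert i) (p.getVert j) = 1 := SimpleGraph.dist_eq_one_iff_adj.2 hij
    have d2 : H.dist (p.getVert j) (p.getVert i) = 1 := SimpleGraph.dist_eq_one_iff_adj.2 hij.symm
    have a1 := hkey i j hi hj 1 (by omega)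
    have a2 := hkey j i hj hi 1 (by omega)
    have a3 : i ≠ j := by
      rintro rfl
      exact hij.ne rfl
    omega
  have h0 : p.getVert 0 = x := p.getVert_zero
  have hLy : p.getVert L = y := p.getVert_length
  have hL1 : L ≠ 0 := by
    intro h
    apply hxy
    have h3 : p.getVert L = x := by rw [h]; exact h0
    exact h3.symm.trans hLy
  have hsucc : ∀ i, i < L → H.Adj (p.getVert i) (p.getVert (i + 1)) :=
    fun i hi => p.adj_getVert_succ hi
  have hL2 : L ≠ 1 := by
    intro h
    have := hsucc 0 (by omega)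
    rw [zero_add, h0] at this
    rw [h] at hLy
    rw [hLy] at this
    exact hnadj this.1
  have hZi : ∀ i, i ≤ L → p.getVert i ∈ Z := by
    intro i hi
    by_cases h : i = L
    · rw [h, hLy]; exact hyZ
    · exact (hsucc i (by omega)).2.1
  have hint : ∀ i, i ≤ L → i ≠ 0 → i ≠ L → p.getVert i ∈ W := by
    intro i hi hi0 hiL
    rcases hZi i hi with h | h
    · exact h
    · exfalso
      rcases h with h | h
      · exact hi0 (hinj i 0 hi (by omega) (by rw [h, h0]))
      · exact hiL (hinj i L hi le_rfl (by rw [hLy]; exact h))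
  obtain ⟨m, hm⟩ : ∃ m, L = m + 1 := ⟨L - 1, by omega⟩
  -- build the induced cycle of length L + 2
  let φ : Fin (m + 3) → V := fun i => if i.val = 0 then v else p.getVert (i.val - 1)
  have hφ0 : ∀ i : Fin (m + 3), i.val = 0 → φ i = v := by
    intro i hi; exact if_pos hi
  have hφ1 : ∀ i : Fin (m + 3), i.val ≠ 0 → φ i = p.getVert (i.val - 1) := by
    intro i hi; exact if_neg hi
  have hvp : ∀ i, i ≤ L → p.getVert i ≠ v := by
    intro i hi hv
    by_cases c1 : i = 0
    · rw [c1, h0] at hv; exact hx.ne hv.symm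
    · by_cases c2 : i = L
      · rw [c2, hLy] at hv; exact hy.ne hv.symm
      · exact (hW _ (hint i hi c1 c2)).1 hv
  have hvadj : ∀ i, i ≤ L → (G.Adj v (p.getVert i) ↔ (i = 0 ∨ i = L)) := by
    intro i hi
    constructor
    · intro h
      by_contra hcon
      push Not at hcon
      exact (hW _ (hint i hi hcon.1 hcon.2)).2 h
    · rintro (h | h)
      · rw [h, h0]; exact hx
      · rw [h, hLy]; exact hy
  have hGadj : ∀ i j, i ≤ L → j ≤ L → (G.Adj (p.getVert i) (p.getVert j) ↔
      (i = j + 1 ∨ j = i + 1)) := by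
    intro i j hi hj
    constructor
    · intro h
      exact hadj i j hi hj ⟨h, hZi i hi, hZi j hj⟩
    · rintro (h | h)
      · rw [h]; exact (hsucc j (by omega)).1.symm
      · rw [h]; exact (hsucc i (by omega)).1
  have hemb : cycleGraph (m + 3) ↪g G :=
    { toFun := φ
      inj' := by
        intro i j hij
        have hi := i.isLt
        have hj := j.isLt
        by_cases ci : i.val = 0
        · by_cases cj : j.val = 0
          · exact Fin.ext (by omega)
          · rw [hφ0 i ci, hφ1 j cj] at hij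
            exact absurd hij.symm (hvp _ (by omega))
        · by_cases cj : j.val = 0
          · rw [hφ0 j cj, hφ1 i ci] at hij
            exact absurd hij (hvp _ (by omega))
          · rw [hφ1 i ci, hφ1 j cj] at hij
            have := hinj _ _ (by omega) (by omega) hij
            exact Fin.ext (by omega)
      map_rel_iff' := by
        intro i j
        have hi := i.isLt
        have hj := j.isLt
        change G.Adj (φ i) (φ j) ↔ _
        rw [cyc_adj]
        by_cases ci : i.val = 0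
        · by_cases cj : j.val = 0
          · rw [hφ0 i ci, hφ0 j cj]
            simp only [SimpleGraph.irrefl, false_iff]
            omega
          · rw [hφ0 i ci, hφ1 j cj, hvadj _ (by omega)]
            omega
        · by_cases cj : j.val = 0
          · rw [hφ0 j cj, hφ1 i ci, SimpleGraph.adj_comm, hvadj _ (by omega)]
            omega
          · rw [hφ1 i ci, hφ1 j cj, hGadj _ _ (by omega) (by omega)]
            omega }
  exact (hG (m + 3) (by omega)).false hemb

/-- Dirac: away from any non-universal vertex there is a simplicial vertex. -/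
theorem dirac [DecidableEq V] (hG : IsChordal G) (n : ℕ) : ∀ W : Finset V, W.card = n → ∀ v ∈ W,
    (∃ u ∈ W, u ≠ v ∧ ¬ G.Adj v u) →
    ∃ w ∈ W, w ≠ v ∧ ¬ G.Adj v w ∧
      ∀ x ∈ W, ∀ y ∈ W, G.Adj w x → G.Adj w y → x ≠ y → G.Adj x y := by
  classical
  induction n using Nat.strong_induction_on with
  | _ n ih =>
    intro W hWn v hv ⟨u0, hu0, hu0v, hu0a⟩
    set W' : Set V := {u | u ∈ W ∧ u ≠ v ∧ ¬ G.Adj v u} with hW'
    set C : Finset V := W.filter (fun u => u ∈ W' ∧ (part G W').Reachable u0 u) with hC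
    set B : Finset V := W.filter (fun b => G.Adj v b ∧ ∃ c ∈ C, G.Adj b c) with hB
    have hCmem : ∀ u, u ∈ C ↔ u ∈ W' ∧ (part G W').Reachable u0 u := by
      intro u
      rw [hC, Finset.mem_filter]
      constructor
      · exact fun h => h.2
      · exact fun h => ⟨h.1.1, h⟩
    have hBmem : ∀ b, b ∈ B ↔ b ∈ W ∧ G.Adj v b ∧ ∃ c ∈ C, G.Adj b c := by
      intro b
      rw [hB, Finset.mem_filter]
    have hu0C : u0 ∈ C := (hCmem u0).2 ⟨⟨hu0, hu0v, hu0a⟩, SimpleGraph.Reachable.refl _⟩
    have hnbr : ∀ c ∈ C, ∀ z ∈ W, G.Adj c z → z ∈ C ∪ B := by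
      intro c hc z hz hcz
      have hc' := (hCmem c).1 hc
      rw [Finset.mem_union]
      by_cases hzv : G.Adj v z
      · right
        exact (hBmem z).2 ⟨hz, hzv, c, hc, hcz.symm⟩
      · left
        have hzne : z ≠ v := by
          rintro rfl
          exact hc'.1.2.2 hcz.symm
        have hzW' : z ∈ W' := ⟨hz, hzne, hzv⟩
        refine (hCmem z).2 ⟨hzW', hc'.2.trans ?_⟩
        exact SimpleGraph.Adj.reachable (⟨hcz, hc'.1, hzW'⟩ : (part G W').Adj c z)
    have hBclique : ∀ x ∈ B, ∀ y ∈ B, x ≠ y → G.Adj x y := by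
      intro x hx y hy hxy
      obtain ⟨_, hvx, c1, hc1, hxc1⟩ := (hBmem x).1 hx
      obtain ⟨_, hvy, c2, hc2, hyc2⟩ := (hBmem y).1 hy
      have h1 := (hCmem c1).1 hc1
      have h2 := (hCmem c2).1 hc2
      exact clique_lemma G hG v x y W' (fun u hu => hu.2) hvx hvy hxy c1 c2 h1.1 h2.1 hxc1 hyc2
        (h1.2.symm.trans h2.2)
    have hHW : C ∪ B ⊆ W := by
      intro z hz
      rcases Finset.mem_union.1 hz with h | h
      · exact ((hCmem z).1 h).1.1
      · exact ((hBmem z).1 h).1
    have hHlt : (C ∪ B).card < n := by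
      rw [← hWn]
      apply Finset.card_lt_card
      refine ⟨hHW, fun h => ?_⟩
      rcases Finset.mem_union.1 (h hv) with h1 | h1
      · exact ((hCmem v).1 h1).1.2.1 rfl
      · exact ((hBmem v).1 h1).2.1.ne rfl
    have hlift : ∀ w ∈ C, (∀ x ∈ C ∪ B, ∀ y ∈ C ∪ B, G.Adj w x → G.Adj w y → x ≠ y →
        G.Adj x y) → ∃ w ∈ W, w ≠ v ∧ ¬ G.Adj v w ∧
        ∀ x ∈ W, ∀ y ∈ W, G.Adj w x → G.Adj w y → x ≠ y → G.Adj x y := by
      intro w hw hs
      have hw' := ((hCmem w).1 hw).1
      refine ⟨w, hw'.1, hw'.2.1, hw'.2.2, fun x hx y hy hwx hwy hxy => ?_⟩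
      exact hs x (hnbr w hw x hx hwx) y (hnbr w hw y hy hwy) hwx hwy hxy
    by_cases hcomp : ∀ p ∈ C ∪ B, ∀ q ∈ C ∪ B, p ≠ q → G.Adj p q
    · exact hlift u0 hu0C (fun x hx y hy _ _ hxy => hcomp x hx y hy hxy)
    · push Not at hcomp
      obtain ⟨p, hp, q, hq, hpq, hnpq⟩ := hcomp
      by_cases hb : ∃ b ∈ B, ∃ z ∈ C ∪ B, z ≠ b ∧ ¬ G.Adj b z
      · obtain ⟨b, hbB, hz⟩ := hb
        obtain ⟨w, hw, hwb, hnbw, hs⟩ := ih _ hHlt (C ∪ B) rfl b (Finset.mem_union_right _ hbB) hz
        have hwC : w ∈ C := by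
          rcases Finset.mem_union.1 hw with h | h
          · exact h
          · exact absurd (hBclique b hbB w h (fun h => hwb h.symm)) hnbw
        exact hlift w hwC hs
      · push Not at hb
        obtain ⟨w, hw, hwp, hnpw, hs⟩ := ih _ hHlt (C ∪ B) rfl p hp
          ⟨q, hq, fun h => hpq h.symm, hnpq⟩
        have hwC : w ∈ C := by
          rcases Finset.mem_union.1 hw with h | h
          · exact h
          · exact absurd (hb w h p hp (fun h => hwp h.symm)).symm hnpw
        exact hlift w hwC hs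

theorem exists_simplicial [DecidableEq V] (hG : IsChordal G) (W : Finset V) (hne : W.Nonempty) :
    ∃ w ∈ W, ∀ x ∈ W, ∀ y ∈ W, G.Adj w x → G.Adj w y → x ≠ y → G.Adj x y := by
  by_cases hcomp : ∀ p ∈ W, ∀ q ∈ W, p ≠ q → G.Adj p q
  · obtain ⟨w, hw⟩ := hne
    exact ⟨w, hw, fun x hx y hy _ _ hxy => hcomp x hx y hy hxy⟩
  · push Not at hcomp
    obtain ⟨p, hp, q, hq, hpq, hnpq⟩ := hcomp
    obtain ⟨w, hw, _, _, hs⟩ := dirac G hG _ W rfl p hp ⟨q, hq, fun h => hpq h.symm, hnpq⟩
    exact ⟨w, hw, hs⟩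

/-- perfect elimination order -/
theorem exists_peo_on [DecidableEq V] (hG : IsChordal G) (n : ℕ) : ∀ W : Finset V, W.card = n →
    ∃ r : V → ℕ, (∀ x ∈ W, ∀ y ∈ W, r x = r y → x = y) ∧
      ∀ v ∈ W, ∀ x ∈ W, ∀ y ∈ W, G.Adj v x → G.Adj v y → r v < r x → r v < r y → x ≠ y →
        G.Adj x y := by
  induction n with
  | zero =>
    intro W hW
    rw [Finset.card_eq_zero] at hW
    subst hW
    exact ⟨fun _ => 0, by simp, by simp⟩
  | succ n ih =>
    intro W hW
    obtain ⟨w, hw, hs⟩ := exists_simplicial G hG W (by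
      rw [← Finset.card_pos]; omega)
    obtain ⟨r, hr1, hr2⟩ := ih (W.erase w) (by rw [Finset.card_erase_of_mem hw]; omega)
    refine ⟨fun x => if x = w then 0 else r x + 1, ?_, ?_⟩
    · intro x hx y hy hxy
      by_cases hxw : x = w
      · by_cases hyw : y = w
        · rw [hxw, hyw]
        · simp [hxw, hyw] at hxy
      · by_cases hyw : y = w
        · simp [hxw, hyw] at hxy
        · simp only [hxw, hyw, if_false] at hxy
          exact hr1 x (Finset.mem_erase.2 ⟨hxw, hx⟩) y (Finset.mem_erase.2 ⟨hyw, hy⟩) (by omega)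
    · intro v hv x hx y hy hvx hvy h1 h2 hxy
      by_cases hvw : v = w
      · subst hvw
        exact hs x hx y hy hvx hvy hxy
      · have hxw : x ≠ w := by
          rintro rfl
          simp at h1
        have hyw : y ≠ w := by
          rintro rfl
          simp at h2
        simp only [hvw, hxw, hyw, if_false] at h1 h2
        exact hr2 v (Finset.mem_erase.2 ⟨hvw, hv⟩) x (Finset.mem_erase.2 ⟨hxw, hx⟩)
          y (Finset.mem_erase.2 ⟨hyw, hy⟩) hvx hvy (by omega) (by omega) hxy

theorem exists_peo [Fintype V] [DecidableEq V] (hG : IsChordal G) :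
    ∃ r : V → ℕ, Function.Injective r ∧
      ∀ v x y, G.Adj v x → G.Adj v y → r v < r x → r v < r y → x ≠ y → G.Adj x y := by
  obtain ⟨r, h1, h2⟩ := exists_peo_on G hG _ Finset.univ rfl
  exact ⟨r, fun x y h => h1 x (Finset.mem_univ _) y (Finset.mem_univ _) h,
    fun v x y => h2 v (Finset.mem_univ _) x (Finset.mem_univ _) y (Finset.mem_univ _)⟩

end Pool.Agent.Helper1.Chordal
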