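import Mathlib

open scoped ENNReal Topology
open Filter

namespace Pool.Agent.Helper1.CuspOp

/-- square summable bilateral sequences -/
abbrev E : Type := lp (fun _ : ℤ => ℂ) 2

theorem two_pos' : (0 : ℝ) < (2 : ℝ≥0∞).toReal := by norm_num

theorem summ (f : E) : Summable fun n : ℤ => ‖f n‖ ^ (2 : ℝ≥0∞).toReal :=
  (lp.memℓp f).summable two_pos'

/-- the shift by `k` -/
noncomputable def sh (k : ℤ) (f : E) : E :=
  ⟨fun n => f (n - k), memℓp_gen (by
    exact (Equiv.subRight k).summable_iff.2 (summ f))⟩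

@[simp] theorem sh_apply (k : ℤ) (f : E) (n : ℤ) : sh k f n = f (n - k) := rfl

theorem sh_norm (k : ℤ) (f : E) : ‖sh k f‖ = ‖f‖ := by
  have h1 := lp.norm_rpow_eq_tsum two_pos' (sh k f)
  have h2 := lp.norm_rpow_eq_tsum two_pos' f
  have h3 : ∑' n, ‖sh k f n‖ ^ (2 : ℝ≥0∞).toReal = ∑' n, ‖f n‖ ^ (2 : ℝ≥0∞).toReal :=
    (Equiv.subRight k).tsum_eq (fun n => ‖f n‖ ^ (2 : ℝ≥0∞).toReal)
  rw [h3, ← h2] at h1
  simp only [ENNReal.toReal_ofNat, Real.rpow_ofNat] at h1
  exact (sq_eq_sq₀ (norm_nonneg _) (norm_nonneg _)).1 h1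

/-- the shift as a linear isometric equivalence -/
noncomputable def W (k : ℤ) : E ≃ₗᵢ[ℂ] E where
  toFun := sh k
  invFun := sh (-k)
  left_inv f := by
    apply lp.ext; funext n; simp
  right_inv f := by
    apply lp.ext; funext n; simp
  map_add' f g := by
    apply lp.ext; funext n; rfl
  map_smul' c f := by
    apply lp.ext; funext n; rfl
  norm_map' f := sh_norm k f

@[simp] theorem W_apply (k : ℤ) (f : E) (n : ℤ) : W k f n = f (n - k) := rfl

theorem W_symm (k : ℤ) : (W k).symm = W (-k) := LinearIsometryEquiv.ext fun _ => rfl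

/-- the normal operator -/
noncomputable def N : E →L[ℂ] E :=
  (W 2 : E →L[ℂ] E) + (W 3 : E →L[ℂ] E)

@[simp] theorem N_apply (f : E) (n : ℤ) : N f n = f (n - 2) + f (n - 3) := rfl

theorem star_W (k : ℤ) : star (W k : E →L[ℂ] E) = (W (-k) : E →L[ℂ] E) := by
  rw [ContinuousLinearMap.star_eq_adjoint, LinearIsometryEquiv.adjoint_eq_symm, W_symm]

theorem N_normal : IsStarNormal N := by
  constructor
  unfold N
  rw [star_add, star_W, star_W]
  show _ * _ = _ * _
  refine ContinuousLinearMap.ext fun f => lp.ext (funext fun n => ?_)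
  show (f (n - -2 - 2) + f (n - -2 - 3)) + (f (n - -3 - 2) + f (n - -3 - 3)) =
    (f (n - 2 - -2) + f (n - 2 - -3)) + (f (n - 3 - -2) + f (n - 3 - -3))
  rw [show n - -2 - 2 = n by ring, show n - -2 - 3 = n - 1 by ring,
    show n - -3 - 2 = n + 1 by ring, show n - -3 - 3 = n by ring,
    show n - 2 - -2 = n by ring, show n - 2 - -3 = n + 1 by ring,
    show n - 3 - -2 = n - 1 by ring, show n - 3 - -3 = n by ring]
  ring

/-- the Hilbert space: square summable power series without linear term -/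
noncomputable def H : Submodule ℂ E where
  carrier := {f | (∀ n < 0, f n = 0) ∧ f 1 = 0}
  add_mem' := by
    rintro f g ⟨h1, h2⟩ ⟨h3, h4⟩
    refine ⟨fun n hn => ?_, ?_⟩
    · rw [lp.coeFn_add, Pi.add_apply, h1 n hn, h3 n hn, add_zero]
    · rw [lp.coeFn_add, Pi.add_apply, h2, h4, add_zero]
  zero_mem' := ⟨fun n _ => rfl, rfl⟩
  smul_mem' := by
    rintro c f ⟨h1, h2⟩
    refine ⟨fun n hn => ?_, ?_⟩
    · rw [lp.coeFn_smul, Pi.smul_apply, h1 n hn, smul_zero]
    · rw [lp.coeFn_smul, Pi.smul_apply, h2, smul_zero]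

theorem mem_H (f : E) : f ∈ H ↔ (∀ n < 0, f n = 0) ∧ f 1 = 0 := Iff.rfl

/-- coordinate functional -/
noncomputable def co (n : ℤ) : E →L[ℂ] ℂ := lp.evalCLM ℂ (fun _ : ℤ => ℂ) 2 n

@[simp] theorem co_apply (n : ℤ) (f : E) : co n f = f n := rfl

theorem H_closed : IsClosed (H : Set E) := by
  have : (H : Set E) = (⋂ n : ℤ, ⋂ (_ : n < 0), {f : E | co n f = 0}) ∩ {f : E | co 1 f = 0} := by
    ext f
    simp only [Set.mem_inter_iff, Set.mem_iInter, Set.mem_ofPred_eq, co_apply]
    exact Iff.rfl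
  rw [this]
  refine IsClosed.inter (isClosed_iInter fun n => isClosed_iInter fun _ => ?_) ?_
  · exact isClosed_eq (co n).continuous continuous_const
  · exact isClosed_eq (co 1).continuous continuous_const

instance : CompleteSpace H := H_closed.completeSpace_coe

theorem E_sep : TopologicalSpace.SeparableSpace E := by
  have h1 : (Set.univ : Set E) ⊆ closure (Submodule.span ℂ
      (Set.range fun n : ℤ => (lp.single 2 n (1 : ℂ) : E)) : Set E) := by
    intro f _
    have hs := lp.hasSum_single (p := 2) (E := fun _ : ℤ => ℂ) (by norm_num) f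
    refine mem_closure_of_tendsto hs (Eventually.of_forall fun s => ?_)
    refine Submodule.sum_mem _ fun i _ => ?_
    have : (lp.single 2 i (f i) : E) = (f i) • (lp.single 2 i (1 : ℂ) : E) := by
      rw [← lp.single_smul]; simp
    rw [this]
    exact Submodule.smul_mem _ _ (Submodule.subset_span ⟨i, rfl⟩)
  have h2 : TopologicalSpace.IsSeparable (closure (Submodule.span ℂ
      (Set.range fun n : ℤ => (lp.single 2 n (1 : ℂ) : E)) : Set E)) :=
    ((Set.countable_range _).isSeparable.span).closure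
  exact TopologicalSpace.isSeparable_univ_iff.1 (h2.mono h1)

instance : TopologicalSpace.SeparableSpace H := by
  have := E_sep
  have : SecondCountableTopology E := UniformSpace.secondCountable_of_separable E
  infer_instance

/-- the subnormal operator -/
noncomputable def S : H →L[ℂ] H :=
  (N.comp H.subtypeL).codRestrict H (by
    rintro ⟨f, h1, h2⟩
    refine ⟨fun n hn => ?_, ?_⟩
    · show f (n - 2) + f (n - 3) = 0
      rw [h1 _ (by omega), h1 _ (by omega), add_zero]
    · show f (1 - 2) + f (1 - 3) = 0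
      rw [h1 _ (by norm_num), h1 _ (by norm_num), add_zero])

theorem S_coe (f : H) : (S f : E) = N f := rfl

/-! evaluation -/

/-- evaluation of the power series -/
noncomputable def ev (a : ℂ) (f : E) : ℂ := ∑' n : ℕ, f n * a ^ n

theorem ev_summable_norm {a : ℂ} (ha : ‖a‖ < 1) (f : E) :
    Summable fun n : ℕ => ‖f n * a ^ n‖ := by
  refine Summable.of_nonneg_of_le (fun _ => norm_nonneg _) (fun n => ?_)
    ((summable_geometric_of_lt_one (norm_nonneg a) ha).mul_left ‖f‖)
  rw [norm_mul, norm_pow]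
  exact mul_le_mul_of_nonneg_right (lp.norm_apply_le_norm (by norm_num) f n)
    (pow_nonneg (norm_nonneg _) _)

theorem ev_summable {a : ℂ} (ha : ‖a‖ < 1) (f : E) :
    Summable fun n : ℕ => f n * a ^ n := (ev_summable_norm ha f).of_norm

theorem ev_add {a : ℂ} (ha : ‖a‖ < 1) (f g : E) : ev a (f + g) = ev a f + ev a g := by
  unfold ev
  rw [← (ev_summable ha f).tsum_add (ev_summable ha g)]
  refine tsum_congr fun n => ?_
  rw [lp.coeFn_add, Pi.add_apply]; ring

theorem ev_smul (a c : ℂ) (f : E) : ev a (c • f) = c * ev a f := by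
  unfold ev
  rw [← tsum_mul_left]
  refine tsum_congr fun n => ?_
  rw [lp.coeFn_smul, Pi.smul_apply, smul_eq_mul]; ring

theorem ev_W {a : ℂ} (ha : ‖a‖ < 1) (f : E) (hf : ∀ n < 0, f n = 0) (k : ℕ) :
    ev a (W k f) = a ^ k * ev a f := by
  unfold ev
  rw [← (ev_summable ha (W k f)).sum_add_tsum_nat_add k]
  have h0 : ∑ i ∈ Finset.range k, (W k f) i * a ^ i = 0 := by
    refine Finset.sum_eq_zero fun i hi => ?_
    rw [W_apply, hf _ (by rw [Finset.mem_range] at hi; omega), zero_mul]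
  rw [h0, zero_add, ← tsum_mul_left]
  refine tsum_congr fun n => ?_
  rw [W_apply]
  have : ((n + k : ℕ) : ℤ) - (k : ℤ) = n := by push_cast; ring
  rw [this, pow_add]; ring

theorem ev_S {a : ℂ} (ha : ‖a‖ < 1) (f : H) : ev a (S f) = (a ^ 2 + a ^ 3) * ev a f := by
  have h : (S f : E) = W 2 (f : E) + W 3 (f : E) := rfl
  rw [h, ev_add ha]
  have h2 := ev_W ha (f : E) f.2.1 2
  have h3 := ev_W ha (f : E) f.2.1 3
  rw [Nat.cast_ofNat] at h2 h3
  rw [h2, h3]; ring

/-! solving -/

theorem solve_one (T : E →L[ℂ] E) (hT : ‖T‖ < 1) (y : E) : ∃ x : E, x - T x = y := by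
  let u := Units.oneSub T hT
  refine ⟨(u⁻¹ : (E →L[ℂ] E)ˣ).val y, ?_⟩
  have h : u.val * (u⁻¹ : (E →L[ℂ] E)ˣ).val = 1 := u.mul_inv
  have h2 := congrArg (fun A : E →L[ℂ] E => A y) h
  simpa [u, Units.oneSub] using h2

theorem normW_le (k : ℤ) : ‖(W k : E →L[ℂ] E)‖ ≤ 1 := by
  refine ContinuousLinearMap.opNorm_le_bound _ zero_le_one fun x => ?_
  rw [one_mul]
  exact (sh_norm k x).le

theorem solve_in {a : ℂ} (ha : ‖a‖ < 1) (f : E) : ∃ u : E, ∀ n, f n = u (n - 1) - a * u n := by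
  obtain ⟨u, hu⟩ := solve_one (a • (W (-1) : E →L[ℂ] E)) (by
    rw [norm_smul]
    have := normW_le (-1)
    have h2 : ‖a‖ * ‖(W (-1) : E →L[ℂ] E)‖ ≤ ‖a‖ * 1 :=
      mul_le_mul_of_nonneg_left this (norm_nonneg _)
    linarith) (W (-1) f)
  refine ⟨u, fun n => ?_⟩
  have h := congrArg (fun x : E => x (n - 1)) hu
  have h' : u (n - 1) - a * u (n - 1 - -1) = f (n - 1 - -1) := h
  have e : n - 1 - -1 = n := by ring
  rw [e] at h'
  exact h'.symm

theorem solve_out {b : ℂ} (hb : 1 < ‖b‖) (f : E) : ∃ u : E, ∀ n, f n = u (n - 1) - b * u n := by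
  have hb0 : b ≠ 0 := by
    rintro rfl
    simp at hb
    linarith
  obtain ⟨u, hu⟩ := solve_one (b⁻¹ • (W 1 : E →L[ℂ] E)) (by
    rw [norm_smul, norm_inv]
    have := normW_le 1
    have h2 : ‖b‖⁻¹ * ‖(W 1 : E →L[ℂ] E)‖ ≤ ‖b‖⁻¹ * 1 :=
      mul_le_mul_of_nonneg_left this (inv_nonneg.2 (norm_nonneg _))
    have h3 : ‖b‖⁻¹ < 1 := inv_lt_one_of_one_lt₀ hb
    linarith) (-(b⁻¹ • f))
  refine ⟨u, fun n => ?_⟩
  have h := congrArg (fun x : E => x n) hu
  have h' : u n - b⁻¹ * u (n - 1) = -(b⁻¹ * f n) := h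
  field_simp at h'
  linear_combination h'

theorem pos_in {a : ℂ} (ha : ‖a‖ < 1) {f u : E} (h : ∀ n, f n = u (n - 1) - a * u n)
    (hf : ∀ n < 0, f n = 0) (hev : ev a f = 0) : ∀ n < 0, u n = 0 := by
  have hw : ∑' n : ℕ, ((W 1 u) n * a ^ n) = (W 1 u) ((0 : ℕ) : ℤ) * a ^ 0 +
      ∑' n : ℕ, ((W 1 u) ((n + 1 : ℕ) : ℤ) * a ^ (n + 1)) :=
    (ev_summable ha (W 1 u)).tsum_eq_zero_add
  have hs1 : Summable fun n : ℕ => (W 1 u) n * a ^ n := ev_summable ha (W 1 u)
  have hs2 : Summable fun n : ℕ => (W 1 u) ((n + 1 : ℕ) : ℤ) * a ^ (n + 1) :=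
    (summable_nat_add_iff 1).2 hs1
  have hev' : ev a f = ∑' n : ℕ, ((W 1 u) n * a ^ n) -
      ∑' n : ℕ, ((W 1 u) ((n + 1 : ℕ) : ℤ) * a ^ (n + 1)) := by
    rw [← hs1.tsum_sub hs2]
    unfold ev
    refine tsum_congr fun n => ?_
    rw [h, W_apply, W_apply]
    have : ((n + 1 : ℕ) : ℤ) - 1 = n := by push_cast; ring
    rw [this, pow_succ]; ring
  have h0 : u (-1) = 0 := by
    rw [hev', hw] at hev
    simp only [W_apply, pow_zero, mul_one, add_sub_cancel_right] at hev
    simpa using hev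
  have key : ∀ j : ℕ, u (-1 - j) = 0 := by
    intro j
    induction j with
    | zero => simpa using h0
    | succ j ih =>
      have h1 := h (-1 - j)
      rw [hf _ (by omega), ih, mul_zero, sub_zero] at h1
      have e : (-1 : ℤ) - ((j + 1 : ℕ) : ℤ) = -1 - j - 1 := by push_cast; ring
      rw [e]
      exact h1.symm
  intro n hn
  have := key (-1 - n).toNat
  rwa [show (-1 : ℤ) - ((-1 - n).toNat : ℤ) = n by omega] at this

theorem pos_out {b : ℂ} (hb : 1 < ‖b‖) {f u : E} (h : ∀ n, f n = u (n - 1) - b * u n)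
    (hf : ∀ n < 0, f n = 0) : ∀ n < 0, u n = 0 := by
  have key : ∀ j : ℕ, u (-1 - j) = b ^ j * u (-1) := by
    intro j
    induction j with
    | zero => simp
    | succ j ih =>
      have h1 := h (-1 - j)
      rw [hf _ (by omega), ih] at h1
      have e : (-1 : ℤ) - ((j + 1 : ℕ) : ℤ) = -1 - j - 1 := by push_cast; ring
      rw [e, pow_succ]
      linear_combination -h1
  have h0 : u (-1) = 0 := by
    by_contra hne
    have hpos : 0 < ‖u (-1)‖ := norm_pos_iff.2 hne
    obtain ⟨j, hj⟩ := pow_unbounded_of_one_lt (‖u‖ / ‖u (-1)‖) hb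
    rw [div_lt_iff₀ hpos] at hj
    have h1 := lp.norm_apply_le_norm (p := 2) (by norm_num) u (-1 - j)
    rw [key j, norm_mul, norm_pow] at h1
    linarith
  intro n hn
  have := key (-1 - n).toNat
  rwa [show (-1 : ℤ) - ((-1 - n).toNat : ℤ) = n by omega, h0, mul_zero] at this

theorem range_S {a : ℝ} (ha : 2 / 3 < a) (ha1 : a < 1) (f : H) (hev : ev a f = 0) :
    ∃ g : H, S g - ((a : ℂ) ^ 2 + (a : ℂ) ^ 3) • g = f := by
  have han : ‖(a : ℂ)‖ < 1 := by
    rw [Complex.norm_real, Real.norm_eq_abs, abs_of_pos (by linarith)]; exact ha1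
  set c : ℝ := Real.sqrt ((a + 1) * (3 * a - 1)) with hc
  have hc2 : c ^ 2 = (a + 1) * (3 * a - 1) := Real.sq_sqrt (by nlinarith)
  set b : ℂ := ⟨-(a + 1) / 2, c / 2⟩ with hb
  set b' : ℂ := ⟨-(a + 1) / 2, -c / 2⟩ with hb'
  have hbb : b * b' = (a : ℂ) * (a + 1) := by
    apply Complex.ext
    · simp only [hb, hb', Complex.mul_re, Complex.add_re, Complex.ofReal_re, Complex.ofReal_im,
        Complex.one_re, Complex.add_im, Complex.one_im]
      nlinarith
    · simp only [hb, hb', Complex.mul_im, Complex.add_re, Complex.ofReal_re, Complex.ofReal_im,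
        Complex.one_re, Complex.add_im, Complex.one_im]
      ring
  have hbs : b + b' = -((a : ℂ) + 1) := by
    apply Complex.ext
    · simp only [hb, hb', Complex.add_re, Complex.ofReal_re, Complex.neg_re, Complex.one_re]
      ring
    · simp only [hb, hb', Complex.add_im, Complex.ofReal_im, Complex.neg_im, Complex.one_im]
      ring
  have hnb : 1 < ‖b‖ := by
    have : 1 < Complex.normSq b := by
      rw [Complex.normSq_apply, hb]
      simp only
      nlinarith
    rw [Complex.normSq_eq_norm_sq] at this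
    nlinarith [norm_nonneg b]
  have hnb' : 1 < ‖b'‖ := by
    have : 1 < Complex.normSq b' := by
      rw [Complex.normSq_apply, hb']
      simp only
      nlinarith
    rw [Complex.normSq_eq_norm_sq] at this
    nlinarith [norm_nonneg b']
  obtain ⟨u1, h1⟩ := solve_in han (f : E)
  obtain ⟨u2, h2⟩ := solve_out hnb u1
  obtain ⟨u3, h3⟩ := solve_out hnb' u2
  have p1 := pos_in han h1 f.2.1 hev
  have p2 := pos_out hnb h2 p1
  have p3 := pos_out hnb' h3 p2
  have hmain : ∀ n, (f : E) n = u3 (n - 2) + u3 (n - 3) -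
      ((a : ℂ) ^ 2 + (a : ℂ) ^ 3) * u3 n := by
    intro n
    rw [h1 n, h2 n, h2 (n - 1), h3 n, h3 (n - 1), h3 (n - 1 - 1)]
    have e1 : n - 1 - 1 = n - 2 := by ring
    have e2 : n - 1 - 1 - 1 = n - 3 := by ring
    rw [e2, e1]
    linear_combination (-u3 (n - 2) + (a : ℂ) * u3 (n - 1)) * hbs +
      (u3 (n - 1) - (a : ℂ) * u3 n) * hbb
  have hne : ((a : ℂ) ^ 2 + (a : ℂ) ^ 3) ≠ 0 := by
    have : (a ^ 2 + a ^ 3 : ℝ) ≠ 0 := by
      have : 0 < a := by linarith
      positivity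
    exact_mod_cast this
  have hg1 : u3 1 = 0 := by
    have := hmain 1
    rw [f.2.2, p3 _ (by norm_num), p3 _ (by norm_num)] at this
    have h4 : ((a : ℂ) ^ 2 + (a : ℂ) ^ 3) * u3 1 = 0 := by linear_combination this
    exact (mul_eq_zero.1 h4).resolve_left hne
  refine ⟨⟨u3, p3, hg1⟩, ?_⟩
  apply Subtype.ext
  apply lp.ext
  funext n
  exact (hmain n).symm


/-! the commutant -/

/-- the constant function one -/
noncomputable def e (k : ℕ) (hk : k ≠ 1) : H :=
  ⟨lp.single (E := fun _ : ℤ => ℂ) 2 (k : ℤ) (1 : ℂ), by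
    refine ⟨fun n hn => ?_, ?_⟩
    · exact lp.single_apply_ne (E := fun _ : ℤ => ℂ) 2 (k : ℤ) (1 : ℂ) (j := n) (by omega)
    · exact lp.single_apply_ne (E := fun _ : ℤ => ℂ) 2 (k : ℤ) (1 : ℂ) (j := 1) (by omega)⟩

theorem e_self (k : ℕ) (hk : k ≠ 1) : (e k hk : E) k = 1 :=
  lp.single_apply_self (E := fun _ : ℤ => ℂ) 2 (k : ℤ) (1 : ℂ)

theorem e_ne (k : ℕ) (hk : k ≠ 1) (n : ℤ) (h : n ≠ k) : (e k hk : E) n = 0 :=
  lp.single_apply_ne (E := fun _ : ℤ => ℂ) 2 (k : ℤ) (1 : ℂ) h

theorem ev_e0 (a : ℂ) : ev a (e 0 (by norm_num)) = 1 := by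
  unfold ev
  rw [tsum_eq_single 0]
  · have := e_self 0 (by norm_num)
    rw [this]; simp
  · intro n hn
    rw [e_ne 0 (by norm_num) n (by exact_mod_cast hn), zero_mul]

theorem ev_comm (T : H →L[ℂ] H) (hT : ∀ f, T (S f) = S (T f)) {a : ℝ} (ha : 2 / 3 < a)
    (ha1 : a < 1) (f : H) :
    ev a (T f) = ev a f * ev a (T (e 0 (by norm_num))) := by
  have han : ‖(a : ℂ)‖ < 1 := by
    rw [Complex.norm_real, Real.norm_eq_abs, abs_of_pos (by linarith)]; exact ha1
  set f' : H := f + (-(ev a f)) • e 0 (by norm_num) with hf'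
  have hev : ev a f' = 0 := by
    rw [hf', Submodule.coe_add, Submodule.coe_smul, ev_add han, ev_smul, ev_e0]; ring
  obtain ⟨g, hg⟩ := range_S ha ha1 f' hev
  have h1 : ev a (T f') = 0 := by
    rw [← hg, map_sub, map_smul, hT, sub_eq_add_neg, ← neg_smul, Submodule.coe_add,
      Submodule.coe_smul, ev_add han, ev_smul, ev_S han]
    ring
  rw [hf', map_add, map_smul, Submodule.coe_add, Submodule.coe_smul, ev_add han, ev_smul] at h1
  linear_combination h1

/-- identity theorem -/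
theorem ident (c : ℕ → ℂ) (hs : ∀ r : ℝ, 0 ≤ r → r < 1 → Summable fun n => ‖c n‖ * r ^ n)
    (hz : ∀ a : ℝ, 2 / 3 < a → a < 1 → ∑' n, c n * (a : ℂ) ^ n = 0) : ∀ n, c n = 0 := by
  set p : FormalMultilinearSeries ℂ ℂ ℂ := FormalMultilinearSeries.ofScalars ℂ c with hp
  have hnorm : ∀ n, ‖p n‖ = ‖c n‖ := by
    intro n
    rw [hp, FormalMultilinearSeries.ofScalars_norm]
  have hrad : 1 ≤ p.radius := by
    refine ENNReal.le_of_forall_nnreal_lt fun r hr => ?_
    apply FormalMultilinearSeries.le_radius_of_summable_norm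
    have hr1 : (r : ℝ) < 1 := by exact_mod_cast hr
    have := hs r r.2 hr1
    simpa only [hnorm] using this
  have hsum : ∀ z : ℂ, p.sum z = ∑' n, c n * z ^ n := by
    intro z
    rw [FormalMultilinearSeries.sum]
    refine tsum_congr fun n => ?_
    rw [hp, FormalMultilinearSeries.ofScalars_apply_eq]
    simp
  have hball : HasFPowerSeriesOnBall p.sum p 0 p.radius :=
    p.hasFPowerSeriesOnBall (lt_of_lt_of_le zero_lt_one hrad)
  have hball1 : HasFPowerSeriesOnBall p.sum p 0 1 := hball.mono zero_lt_one hrad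
  have han : AnalyticOnNhd ℂ p.sum (Metric.eball 0 1) := hball1.analyticOnNhd
  have hpre : IsPreconnected (Metric.eball (0 : ℂ) 1) := by
    have : Metric.eball (0 : ℂ) 1 = Metric.ball 0 1 := by
      rw [← Metric.eball_ofReal]; simp
    rw [this]
    exact (convex_ball (0 : ℂ) 1).isPreconnected
  have hfreq : ∃ᶠ z in 𝓝[≠] ((3 / 4 : ℝ) : ℂ), p.sum z = 0 := by
    rw [Filter.frequently_iff]
    intro U hU
    rw [mem_nhdsWithin_iff_eventually, Metric.eventually_nhds_iff] at hU
    obtain ⟨ε, hε, hU⟩ := hU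
    set δ : ℝ := min (ε / 2) (1 / 8) with hδ
    have hδ0 : 0 < δ := lt_min (by linarith) (by norm_num)
    have hδ1 : δ ≤ ε / 2 := min_le_left _ _
    have hδ2 : δ ≤ 1 / 8 := min_le_right _ _
    refine ⟨((3 / 4 + δ : ℝ) : ℂ), ?_, ?_⟩
    · apply hU
      · rw [dist_eq_norm, ← Complex.ofReal_sub, Complex.norm_real, Real.norm_eq_abs,
          add_sub_cancel_left, abs_of_pos hδ0]
        linarith
      · intro h
        have := Complex.ofReal_injective h
        linarith
    · rw [hsum]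
      exact hz _ (by linarith) (by linarith)
  have hzero := han.eqOn_zero_of_preconnected_of_frequently_eq_zero hpre
    (show ((3 / 4 : ℝ) : ℂ) ∈ Metric.eball (0 : ℂ) 1 by
      rw [Metric.mem_eball, edist_dist, dist_zero_right, Complex.norm_real]
      rw [Real.norm_eq_abs, abs_of_pos (by norm_num)]
      rw [ENNReal.ofReal_lt_one]
      norm_num) hfreq
  have hev : p.sum =ᶠ[𝓝 0] 0 := by
    filter_upwards [Metric.eball_mem_nhds (0 : ℂ) (zero_lt_one)] with z hz
    exact hzero hz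
  have h0 : HasFPowerSeriesAt (0 : ℂ → ℂ) p 0 := hball1.hasFPowerSeriesAt.congr hev
  have hp0 : p = 0 := h0.eq_zero
  intro n
  have h1 := hnorm n
  rw [hp0] at h1
  simp at h1
  exact norm_eq_zero.1 h1.symm

theorem coeffs (T : H →L[ℂ] H) (hT : ∀ f, T (S f) = S (T f)) (f : H) (n : ℕ) :
    (T f : E) n = ∑ k ∈ Finset.HasAntidiagonal.antidiagonal n, (f : E) k.1 * (T (e 0 (by norm_num)) : E) k.2 := by
  set h : H := T (e 0 (by norm_num)) with hh
  have key := ident (fun n => (T f : E) n -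
    ∑ k ∈ Finset.HasAntidiagonal.antidiagonal n, (f : E) k.1 * (h : E) k.2) ?_ ?_ n
  · exact sub_eq_zero.1 key
  · intro r hr0 hr1
    have hrn : ‖(r : ℂ)‖ < 1 := by
      rw [Complex.norm_real, Real.norm_eq_abs, abs_of_nonneg hr0]; exact hr1
    have hrr : ∀ n : ℕ, ‖(r : ℂ) ^ n‖ = r ^ n := by
      intro n
      rw [norm_pow, Complex.norm_real, Real.norm_eq_abs, abs_of_nonneg hr0]
    have s1 : Summable fun n : ℕ => ‖(T f : E) n * (r : ℂ) ^ n‖ := ev_summable_norm hrn _
    have s2 := summable_norm_sum_mul_antidiagonal_of_summable_norm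
      (ev_summable_norm hrn (f : E)) (ev_summable_norm hrn (h : E))
    refine Summable.of_nonneg_of_le (fun n => by positivity) (fun n => ?_) (s1.add s2)
    rw [norm_mul, hrr]
    have e1 : ∑ k ∈ Finset.HasAntidiagonal.antidiagonal n, (f : E) k.1 * (r : ℂ) ^ k.1 * ((h : E) k.2 * (r : ℂ) ^ k.2)
        = (∑ k ∈ Finset.HasAntidiagonal.antidiagonal n, (f : E) k.1 * (h : E) k.2) * (r : ℂ) ^ n := by
      rw [Finset.sum_mul]
      refine Finset.sum_congr rfl fun k hk => ?_
      rw [← Finset.HasAntidiagonal.mem_antidiagonal.1 hk, pow_add]; ring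
    rw [e1, norm_mul, hrr, ← add_mul]
    exact mul_le_mul_of_nonneg_right (norm_sub_le _ _) (pow_nonneg hr0 _)
  · intro a ha ha1
    have han : ‖(a : ℂ)‖ < 1 := by
      rw [Complex.norm_real, Real.norm_eq_abs, abs_of_pos (by linarith)]; exact ha1
    have h1 := ev_comm T hT ha ha1 f
    rw [← hh] at h1
    unfold ev at h1
    rw [tsum_mul_tsum_eq_tsum_sum_antidiagonal_of_summable_norm
      (ev_summable_norm han (f : E)) (ev_summable_norm han (h : E))] at h1
    have s2 := (summable_norm_sum_mul_antidiagonal_of_summable_norm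
      (ev_summable_norm han (f : E)) (ev_summable_norm han (h : E))).of_norm
    rw [← sub_eq_zero, ← (ev_summable han _).tsum_sub s2] at h1
    rw [← h1]
    refine tsum_congr fun n => ?_
    rw [sub_mul, Finset.sum_mul]
    congr 1
    refine Finset.sum_congr rfl fun k hk => ?_
    rw [← Finset.HasAntidiagonal.mem_antidiagonal.1 hk, pow_add]; ring

end Pool.Agent.Helper1.CuspOp
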