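import Mathlib

set_option autoImplicit false
open Matrix

namespace Pool.Agent.Helper1.Kahan

/-- entry i of column l of the Kahan matrix -/
noncomputable def col (c s : ℝ) (l i : ℕ) : ℝ := if i < l then -c * s ^ i else if i = l then s ^ l else 0

theorem col_gt (c s : ℝ) (l i : ℕ) (h : l < i) : col c s l i = 0 := by
  unfold col
  rw [if_neg (by omega), if_neg (by omega)]

theorem col_self (c s : ℝ) (l : ℕ) : col c s l l = s ^ l := by
  unfold col
  rw [if_neg (by omega), if_pos rfl]

theorem col_lt (c s : ℝ) (l i : ℕ) (h : i < l) : col c s l i = -c * s ^ i := by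
  unfold col
  rw [if_pos h]

theorem tail (c s : ℝ) (hcs : c ^ 2 + s ^ 2 = 1) (k l j : ℕ) (hj : j ≤ l) (hl : l < k) :
    ∑ i : Fin k, (if j ≤ (i : ℕ) then col c s l i ^ 2 else 0) = (s ^ j) ^ 2 := by
  rw [Fin.sum_univ_eq_sum_range (fun i => if j ≤ i then col c s l i ^ 2 else 0) k]
  set h : ℕ → ℝ := fun i => if i ≤ j then (s ^ j) ^ 2 else if i ≤ l then (s ^ i) ^ 2 else 0 with hh
  have key : ∀ i, (if j ≤ i then col c s l i ^ 2 else 0) = h i - h (i + 1) := by
    intro i
    rcases lt_trichotomy i l with hil | hil | hil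
    · rw [col_lt c s l i hil]
      by_cases hji : j ≤ i
      · have e1 : h i = (s ^ i) ^ 2 := by
          simp only [hh]
          by_cases hij : i ≤ j
          · have : i = j := le_antisymm hij hji
            rw [if_pos hij, this]
          · rw [if_neg hij, if_pos hil.le]
        have e2 : h (i + 1) = (s ^ (i + 1)) ^ 2 := by
          simp only [hh]
          rw [if_neg (by omega), if_pos (by omega)]
        rw [if_pos hji, e1, e2]
        have : c ^ 2 = 1 - s ^ 2 := by linarith
        have e3 : (-c * s ^ i) ^ 2 = c ^ 2 * (s ^ i) ^ 2 := by ring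
        have e4 : (s ^ (i + 1)) ^ 2 = s ^ 2 * (s ^ i) ^ 2 := by ring
        rw [e3, e4, this]
        ring
      · have e1 : h i = (s ^ j) ^ 2 := by
          simp only [hh]; rw [if_pos (by omega)]
        have e2 : h (i + 1) = (s ^ j) ^ 2 := by
          simp only [hh]; rw [if_pos (by omega)]
        rw [if_neg hji, e1, e2]; ring
    · subst hil
      rw [col_self, if_pos hj]
      have e1 : h i = (s ^ i) ^ 2 := by
        simp only [hh]
        by_cases hij : i ≤ j
        · have : i = j := le_antisymm hij hj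
          rw [if_pos hij, this]
        · rw [if_neg hij, if_pos le_rfl]
      have e2 : h (i + 1) = 0 := by
        simp only [hh]
        rw [if_neg (by omega), if_neg (by omega)]
      rw [e1, e2]; ring
    · rw [col_gt c s l i hil]
      have e1 : h i = 0 := by
        simp only [hh]
        rw [if_neg (by omega), if_neg (by omega)]
      have e2 : h (i + 1) = 0 := by
        simp only [hh]
        rw [if_neg (by omega), if_neg (by omega)]
      rw [e1, e2]
      split_ifs <;> ring
  rw [Finset.sum_congr rfl (fun i _ => key i), Finset.sum_range_sub']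
  have e0 : h 0 = (s ^ j) ^ 2 := by simp only [hh]; rw [if_pos (Nat.zero_le _)]
  have ek : h k = 0 := by
    simp only [hh]
    rw [if_neg (by omega), if_neg (by omega)]
  rw [e0, ek]; ring

variable {k : ℕ}

/-- scaled column as a vector -/
noncomputable def u (c s α : ℝ) (k : ℕ) (l : Fin k) : EuclideanSpace ℝ (Fin k) :=
  WithLp.toLp 2 (fun i : Fin k => α * col c s l i)

theorem u_apply (c s α : ℝ) (l i : Fin k) : u c s α k l i = α * col c s l i := rfl

/-- span of first columns contains all vectors supported there -/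
theorem mem_span_of (c s α : ℝ) (hs : s ≠ 0) (hα : α ≠ 0) (j : ℕ) (hj : j ≤ k)
    (v : EuclideanSpace ℝ (Fin k)) (hv : ∀ i : Fin k, j ≤ (i : ℕ) → v i = 0) :
    v ∈ Submodule.span ℝ (u c s α k '' {i : Fin k | (i : ℕ) < j}) := by
  induction j generalizing v with
  | zero =>
    have : v = 0 := by
      ext i
      exact hv i (Nat.zero_le _)
    rw [this]; exact Submodule.zero_mem _
  | succ j ih =>
    have hjk : j < k := hj
    set jj : Fin k := ⟨j, hjk⟩
    set t : ℝ := v jj / (α * s ^ j) with ht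
    have hne : α * s ^ j ≠ 0 := mul_ne_zero hα (pow_ne_zero _ hs)
    have hv' : ∀ i : Fin k, j ≤ (i : ℕ) → (v - t • u c s α k jj) i = 0 := by
      intro i hi
      have h1 : (v - t • u c s α k jj) i = v i - t * (α * col c s j i) := rfl
      rw [h1]
      rcases eq_or_lt_of_le hi with h | h
      · have hij : i = jj := Fin.ext h.symm
        rw [← h, col_self, hij, ht, div_mul_cancel₀ _ hne, sub_self]
      · rw [col_gt c s j i h, hv i h]; ring
    have h2 := ih hjk.le (v - t • u c s α k jj) hv'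
    have hsub : Submodule.span ℝ (u c s α k '' {i : Fin k | (i : ℕ) < j}) ≤
        Submodule.span ℝ (u c s α k '' {i : Fin k | (i : ℕ) < j + 1}) := by
      apply Submodule.span_mono
      apply Set.image_mono
      intro i hi
      have : (i : ℕ) < j := hi
      show (i : ℕ) < j + 1
      omega
    have h3 : u c s α k jj ∈ Submodule.span ℝ (u c s α k '' {i : Fin k | (i : ℕ) < j + 1}) := by
      apply Submodule.subset_span
      exact ⟨jj, by show j < j + 1; omega, rfl⟩
    have h4 : v = (v - t • u c s α k jj) + t • u c s α k jj := by abel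
    rw [h4]
    exact Submodule.add_mem _ (hsub h2) (Submodule.smul_mem _ _ h3)

/-- vectors in the span vanish outside -/
theorem span_vanish (c s α : ℝ) (j : ℕ) (v : EuclideanSpace ℝ (Fin k))
    (hv : v ∈ Submodule.span ℝ (u c s α k '' {i : Fin k | (i : ℕ) < j}))
    (i : Fin k) (hi : j ≤ (i : ℕ)) : v i = 0 := by
  induction hv using Submodule.span_induction with
  | mem x hx =>
    obtain ⟨l, hl, rfl⟩ := hx
    have hl : (l : ℕ) < j := hl
    rw [u_apply, col_gt c s l i (by omega), mul_zero]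
  | zero => rfl
  | add x y _ _ hx hy =>
    show x i + y i = 0
    rw [hx, hy, add_zero]
  | smul a x _ hx =>
    show a * x i = 0
    rw [hx, mul_zero]

theorem infDist_ge (c s α : ℝ) (hs : 0 < s) (hα : 0 < α) (j : Fin k) :
    α * s ^ (j : ℕ) ≤ Metric.infDist (u c s α k j)
      (Submodule.span ℝ (u c s α k '' {i : Fin k | (i : ℕ) < j}) : Set (EuclideanSpace ℝ (Fin k))) := by
  rw [Metric.le_infDist ⟨0, Submodule.zero_mem _⟩]
  intro y hy
  have h0 : y j = 0 := span_vanish c s α j y hy j le_rfl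
  rw [dist_eq_norm]
  have h1 := PiLp.norm_apply_le (u c s α k j - y) j
  have h2 : (u c s α k j - y) j = α * s ^ (j : ℕ) := by
    show u c s α k j j - y j = _
    rw [h0, u_apply, col_self, sub_zero]
  rw [h2, Real.norm_of_nonneg (by positivity)] at h1
  exact h1

theorem infDist_le (c s α : ℝ) (hs : 0 < s) (hα : 0 < α) (hcs : c ^ 2 + s ^ 2 = 1) (j l : Fin k) :
    Metric.infDist (u c s α k l)
      (Submodule.span ℝ (u c s α k '' {i : Fin k | (i : ℕ) < j}) : Set (EuclideanSpace ℝ (Fin k))) ≤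
      α * s ^ (j : ℕ) := by
  rcases lt_or_ge (l : ℕ) (j : ℕ) with hlj | hlj
  · rw [Metric.infDist_zero_of_mem]
    · positivity
    · exact Submodule.subset_span ⟨l, hlj, rfl⟩
  · set v : EuclideanSpace ℝ (Fin k) := WithLp.toLp 2 (fun i : Fin k =>
      if (j : ℕ) ≤ (i : ℕ) then 0 else α * col c s l i) with hv
    have hmem : v ∈ Submodule.span ℝ (u c s α k '' {i : Fin k | (i : ℕ) < j}) := by
      apply mem_span_of c s α hs.ne' hα.ne' j j.2.le
      intro i hi
      show (if (j : ℕ) ≤ (i : ℕ) then (0 : ℝ) else α * col c s l i) = 0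
      rw [if_pos hi]
    refine (Metric.infDist_le_dist_of_mem hmem).trans ?_
    rw [dist_eq_norm, EuclideanSpace.norm_eq]
    apply Real.sqrt_le_iff.2
    refine ⟨by positivity, ?_⟩
    have h1 : ∀ i : Fin k, ‖(u c s α k l - v) i‖ ^ 2 =
        α ^ 2 * (if (j : ℕ) ≤ (i : ℕ) then col c s l i ^ 2 else 0) := by
      intro i
      have h2 : (u c s α k l - v) i = α * col c s l i -
        (if (j : ℕ) ≤ (i : ℕ) then (0 : ℝ) else α * col c s l i) := rfl
      rw [h2, Real.norm_eq_abs, sq_abs]
      split_ifs <;> ring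
    rw [Finset.sum_congr rfl (fun i _ => h1 i), ← Finset.mul_sum, tail c s hcs k l j hlj l.2]
    exact le_of_eq (by ring)

open scoped MatrixOrder ComplexOrder in
/-- square root of the defect -/
theorem exists_B (c s : ℝ) (hcs : c ^ 2 + s ^ 2 = 1) (α : ℝ) (hα : α ^ 2 * k = 1) :
    ∃ B : Matrix (Fin k) (Fin k) ℝ, ∀ a b : Fin k,
      α ^ 2 * ∑ l : Fin k, col c s l a * col c s l b + ∑ i : Fin k, B i a * B i b =
        if a = b then 1 else 0 := by
  set R : Matrix (Fin k) (Fin k) ℝ := Matrix.of (fun a l : Fin k => col c s l a) with hR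
  set M : Matrix (Fin k) (Fin k) ℝ := 1 - α ^ 2 • (R * Rᵀ) with hM
  have hpsd : M.PosSemidef := by
    refine .of_dotProduct_mulVec_nonneg ?_ ?_
    · rw [Matrix.IsHermitian, Matrix.conjTranspose_eq_transpose_of_trivial, hM,
        Matrix.transpose_sub, Matrix.transpose_one, Matrix.transpose_smul, Matrix.transpose_mul,
        Matrix.transpose_transpose]
    · intro x
      have h1 : star x ⬝ᵥ (M *ᵥ x) = x ⬝ᵥ x - α ^ 2 * ((Rᵀ *ᵥ x) ⬝ᵥ (Rᵀ *ᵥ x)) := by
        rw [star_trivial, hM, Matrix.sub_mulVec, Matrix.one_mulVec, dotProduct_sub,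
          Matrix.smul_mulVec, dotProduct_smul, ← Matrix.mulVec_mulVec,
          Matrix.dotProduct_mulVec x R, ← Matrix.mulVec_transpose, smul_eq_mul]
      rw [h1]
      have h2 : (Rᵀ *ᵥ x) ⬝ᵥ (Rᵀ *ᵥ x) ≤ k * (x ⬝ᵥ x) := by
        have h3 : ∀ l : Fin k, (Rᵀ *ᵥ x) l * (Rᵀ *ᵥ x) l ≤ x ⬝ᵥ x := by
          intro l
          have h4 : (Rᵀ *ᵥ x) l = ∑ i : Fin k, col c s l i * x i := rfl
          have h5 := Finset.sum_mul_sq_le_sq_mul_sq Finset.univ (fun i : Fin k => col c s l i) x
          have h6 := tail c s hcs k l 0 (Nat.zero_le _) l.2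
          simp only [Nat.zero_le, if_true, pow_zero, one_pow] at h6
          rw [h6, one_mul] at h5
          rw [h4, ← sq]
          refine h5.trans (le_of_eq ?_)
          simp only [dotProduct, sq]
        have h7 : (Rᵀ *ᵥ x) ⬝ᵥ (Rᵀ *ᵥ x) ≤ ∑ _l : Fin k, x ⬝ᵥ x :=
          Finset.sum_le_sum (fun l _ => h3 l)
        simpa using h7
      have h8 : α ^ 2 * ((Rᵀ *ᵥ x) ⬝ᵥ (Rᵀ *ᵥ x)) ≤ α ^ 2 * (k * (x ⬝ᵥ x)) :=
        mul_le_mul_of_nonneg_left h2 (sq_nonneg _)
      have h9 : α ^ 2 * (k * (x ⬝ᵥ x)) = x ⬝ᵥ x := by rw [← mul_assoc, hα, one_mul]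
      linarith
  obtain ⟨B, hB⟩ := CStarAlgebra.nonneg_iff_eq_star_mul_self.mp hpsd.nonneg
  refine ⟨B, fun a b => ?_⟩
  have h1 := congrFun (congrFun hB a) b
  have h2 : (star B * B) a b = ∑ i : Fin k, B i a * B i b := by
    rw [Matrix.mul_apply]
    rfl
  have h3 : M a b = (if a = b then 1 else 0) - α ^ 2 * ∑ l : Fin k, col c s l a * col c s l b := by
    rw [hM, Matrix.sub_apply, Matrix.one_apply, Matrix.smul_apply, Matrix.mul_apply]
    rfl
  rw [h2, h3] at h1
  linarith

end Pool.Agent.Helper1.Kahan
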