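import Mathlib

open Set Filter Topology

namespace Pool.Agent.Helper1.PlaneSurj

/-- the standard identification -/
noncomputable def ee : (ℝ × ℝ) ≃L[ℝ] ℂ := Complex.equivRealProdCLM.symm

theorem const_of_exp {g : ℝ → ℂ} (hg : Continuous g) (h : ∀ s s', Complex.exp (g s) = Complex.exp (g s'))
    (s s' : ℝ) : g s = g s' :=
  Complex.isCoveringMap_exp.const_of_comp hg (fun a a' => Subtype.ext (h a a')) s s'

theorem exists_log (G : ℝ × ℝ → ℂ) (hG : Continuous G) (h0 : ∀ x, G x ≠ 0) :
    ∃ F : ℝ × ℝ → ℂ, Continuous F ∧ ∀ x, Complex.exp (F x) = G x := by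
  have hU : IsSimplyConnected (univ : Set (ℝ × ℝ)) :=
    (Homeomorph.Set.univ (ℝ × ℝ)).toHomotopyEquiv.simplyConnectedSpace
  obtain ⟨F, hF, hFG⟩ := Complex.exists_continuousOn_eqOn_exp_comp hU isOpen_univ
    hG.continuousOn (by rintro ⟨x, _, hx⟩; exact h0 x hx)
  exact ⟨F, continuousOn_univ.1 hF, fun x => hFG (mem_univ x)⟩

/-- clamp to `[0,1]` -/
noncomputable def cl (x : ℝ) : ℝ := max 0 (min 1 x)

theorem cl_cont : Continuous cl := by unfold cl; fun_prop
theorem cl_nonneg (x : ℝ) : 0 ≤ cl x := le_max_left _ _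
theorem cl_le (x : ℝ) : cl x ≤ 1 := max_le zero_le_one (min_le_left _ _)
theorem cl_of_le {x : ℝ} (h : x ≤ 0) : cl x = 0 := by
  unfold cl
  rw [min_eq_right (by linarith), max_eq_left h]
theorem cl_of_ge {x : ℝ} (h : 1 ≤ x) : cl x = 1 := by
  unfold cl
  rw [min_eq_left h, max_eq_right zero_le_one]

theorem surj_of_leftInverse (R Lf : ℝ × ℝ → ℝ × ℝ) (hR : Continuous R) (hL : Continuous Lf)
    (hLR : ∀ x, Lf (R x) = x) : Function.Surjective R := by
  intro p
  by_contra hp
  push Not at hp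
  have hinj : ∀ x y, R x = R y → x = y := fun x y h => by rw [← hLR x, ← hLR y, h]
  set r : ℝ × ℝ → ℂ := fun x => ee (R x) with hr
  have hrc : Continuous r := ee.continuous.comp hR
  have hrinj : ∀ x y, r x = r y → x = y := fun x y h => hinj x y (ee.injective h)
  set B : ℝ := max ‖r 0‖ ‖ee p‖ with hB
  obtain ⟨C, hC⟩ : ∃ C : ℝ, ∀ q, ‖ee q‖ ≤ B → ‖Lf q‖ ≤ C := by
    have hcomp : IsCompact {q : ℝ × ℝ | ‖ee q‖ ≤ B} := by
      have : {q : ℝ × ℝ | ‖ee q‖ ≤ B} = ee.toHomeomorph ⁻¹' Metric.closedBall 0 B := by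
        ext q
        simp
      rw [this, Homeomorph.isCompact_preimage]
      exact isCompact_closedBall _ _
    obtain ⟨C, hC⟩ := (hcomp.image hL).isBounded.exists_norm_le
    exact ⟨C, fun q hq => hC _ ⟨q, hq, rfl⟩⟩
  have hbig : ∀ x, C < ‖x‖ → B < ‖r x‖ := by
    intro x hx
    by_contra hcon
    rw [not_lt] at hcon
    have := hC _ hcon
    rw [hLR] at this
    linarith
  set ρ : ℝ := 2 * (|C| + 1) with hρ
  have hρ0 : 0 < ρ := by positivity
  set c : ℝ → ℝ × ℝ := fun s => (ρ * Real.cos s, ρ * Real.sin s) with hc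
  have hcc : Continuous c := by fun_prop
  have hcn : ∀ s, |C| + 1 < ‖c s‖ := by
    intro s
    by_contra hcon
    rw [not_lt] at hcon
    have h1 : |ρ * Real.cos s| ≤ |C| + 1 := (norm_fst_le (c s)).trans hcon
    have h2 : |ρ * Real.sin s| ≤ |C| + 1 := (norm_snd_le (c s)).trans hcon
    have h3 : (ρ * Real.cos s) ^ 2 ≤ (|C| + 1) ^ 2 := by
      rw [← sq_abs]; exact pow_le_pow_left₀ (abs_nonneg _) h1 2
    have h4 : (ρ * Real.sin s) ^ 2 ≤ (|C| + 1) ^ 2 := by
      rw [← sq_abs]; exact pow_le_pow_left₀ (abs_nonneg _) h2 2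
    have h5 : (ρ * Real.cos s) ^ 2 + (ρ * Real.sin s) ^ 2 = ρ ^ 2 := by
      have := Real.cos_sq_add_sin_sq s
      nlinarith
    have h6 : ρ ^ 2 = 4 * (|C| + 1) ^ 2 := by rw [hρ]; ring
    have h7 : 0 < (|C| + 1) ^ 2 := by positivity
    linarith
  have hcC : ∀ s, C < ‖c s‖ := fun s => by
    have := hcn s
    have := le_abs_self C
    linarith
  have hc0 : ∀ s, c s ≠ 0 := by
    intro s h
    have := hcn s
    rw [h, norm_zero] at this
    have := abs_nonneg C
    linarith
  have hcper : ∀ s, c (s + 2 * Real.pi) = c s := by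
    intro s
    simp only [hc, Real.cos_add_two_pi, Real.sin_add_two_pi]
  have hcpi : ∀ s, c (s + Real.pi) = -c s := by
    intro s
    simp only [hc, Real.cos_add_pi, Real.sin_add_pi, Prod.neg_mk]
    ring_nf
  set G : ℝ × ℝ → ℂ := fun x => r (cl (3 - x.1) • c x.2) - r (-(cl (1 - x.1) • c x.2)) -
    (cl (x.1 - 1) : ℂ) * (ee p - r 0) with hG
  have hclc := cl_cont
  have hGc : Continuous G := by fun_prop
  have hG0 : ∀ x, G x ≠ 0 := by
    rintro ⟨t, s⟩ h
    simp only [hG] at h
    rcases le_total t 1 with ht | ht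
    · rw [cl_of_ge (show 1 ≤ 3 - t by linarith), cl_of_le (show t - 1 ≤ 0 by linarith)] at h
      simp only [one_smul, Complex.ofReal_zero, zero_mul, sub_zero] at h
      have h1 := hrinj _ _ (sub_eq_zero.1 h)
      have h2 : (1 + cl (1 - t)) • c s = 0 := by
        rw [add_smul, one_smul]
        nth_rewrite 1 [h1]
        simp
      rcases smul_eq_zero.1 h2 with h3 | h3
      · have := cl_nonneg (1 - t); linarith
      · exact hc0 s h3
    · rcases le_total t 2 with ht2 | ht2
      · rw [cl_of_ge (show 1 ≤ 3 - t by linarith), cl_of_le (show 1 - t ≤ 0 by linarith)] at h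
        simp only [one_smul, zero_smul, neg_zero] at h
        set b := cl (t - 1) with hb
        have hb0 : 0 ≤ b := cl_nonneg _
        have hb1 : b ≤ 1 := cl_le _
        have h1 : r (c s) = ((1 - b : ℝ) : ℂ) * r 0 + (b : ℂ) * ee p := by
          push_cast
          linear_combination h
        have h2 : ‖r (c s)‖ ≤ B := by
          rw [h1]
          refine (norm_add_le _ _).trans ?_
          rw [norm_mul, norm_mul, Complex.norm_real, Complex.norm_real, Real.norm_eq_abs,
            Real.norm_eq_abs, abs_of_nonneg hb0, abs_of_nonneg (by linarith)]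
          have e1 : ‖r 0‖ ≤ B := le_max_left _ _
          have e2 : ‖ee p‖ ≤ B := le_max_right _ _
          nlinarith
        have h3 := hbig _ (hcC s)
        linarith
      · rw [cl_of_le (show 1 - t ≤ 0 by linarith), cl_of_ge (show 1 ≤ t - 1 by linarith)] at h
        simp only [zero_smul, neg_zero, Complex.ofReal_one, one_mul] at h
        have h1 : r (cl (3 - t) • c s) = ee p := by linear_combination h
        exact hp _ (ee.injective h1)
  obtain ⟨F, hF, hFG⟩ := exists_log G hGc hG0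
  have hGper : ∀ t s, G (t, s + 2 * Real.pi) = G (t, s) := by
    intro t s
    simp only [hG, hcper]
  have hD : F (0, 2 * Real.pi) - F (0, 0) = F (3, 2 * Real.pi) - F (3, 0) := by
    refine const_of_exp (g := fun t => F (t, 2 * Real.pi) - F (t, 0)) (by fun_prop) ?_ 0 3
    have : ∀ t, Complex.exp (F (t, 2 * Real.pi) - F (t, 0)) = 1 := by
      intro t
      rw [Complex.exp_sub, hFG, hFG]
      have := hGper t 0
      rw [zero_add] at this
      rw [this]
      exact div_self (hG0 _)
    intro s s'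
    rw [this, this]
  have hD3 : F (3, 2 * Real.pi) = F (3, 0) := by
    refine const_of_exp (g := fun s => F (3, s)) (by fun_prop) ?_ _ _
    intro s s'
    rw [hFG, hFG]
    simp only [hG]
    rw [cl_of_le (show (3 : ℝ) - 3 ≤ 0 by norm_num), cl_of_le (show (1 : ℝ) - 3 ≤ 0 by norm_num)]
    simp
  have hE : ∀ s, Complex.exp (F (0, s + Real.pi) - F (0, s)) = -1 := by
    intro s
    rw [Complex.exp_sub, hFG, hFG]
    have h1 : G (0, s + Real.pi) = -G (0, s) := by
      simp only [hG, hcpi]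
      rw [cl_of_ge (show (1 : ℝ) ≤ 3 - 0 by norm_num), cl_of_ge (show (1 : ℝ) ≤ 1 - 0 by norm_num),
        cl_of_le (show (0 : ℝ) - 1 ≤ 0 by norm_num)]
      simp
    rw [h1, neg_div, div_self (hG0 _)]
  have hEc : F (0, Real.pi + Real.pi) - F (0, Real.pi) = F (0, 0 + Real.pi) - F (0, 0) := by
    refine const_of_exp (g := fun s => F (0, s + Real.pi) - F (0, s)) (by fun_prop) ?_
      Real.pi 0
    intro s s'
    rw [hE, hE]
  have h2pi : Real.pi + Real.pi = 2 * Real.pi := by ring
  rw [h2pi] at hEc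
  rw [zero_add] at hEc
  have hE0 := hE 0
  rw [zero_add] at hE0
  have : F (0, Real.pi) - F (0, 0) = 0 := by
    rw [hD3, sub_self] at hD
    linear_combination (1 / 2 : ℂ) * hD - (1 / 2 : ℂ) * hEc
  rw [this, Complex.exp_zero] at hE0
  norm_num at hE0

end Pool.Agent.Helper1.PlaneSurj
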