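import Mathlib

namespace Pool.Agent.Helper1.QuinticArith

lemma sq_mod8 (x : ℤ) (h : x % 2 = 1) : x ^ 2 % 8 = 1 := by
  have h' : x % 8 = 1 ∨ x % 8 = 3 ∨ x % 8 = 5 ∨ x % 8 = 7 := by omega
  rcases h' with h' | h' | h' | h' <;> simp [pow_two, Int.mul_emod, h']

/-- residue of the class modulo 5 -/
lemma qr5_step (g s a c : ℤ) (h : g * s ^ 2 = a ^ 2 - 5 * c) (hg : ¬ (5 ∣ g)) (hs : ¬ (5 ∣ s)) :
    g % 5 = 1 ∨ g % 5 = 4 := by
  have h1 : (g * s ^ 2 - a ^ 2) % 5 = 0 := by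
    rw [h]
    have : a ^ 2 - 5 * c - a ^ 2 = 5 * (-c) := by ring
    rw [this]
    exact Int.mul_emod_right 5 _
  have hg' : g % 5 = 0 ∨ g % 5 = 1 ∨ g % 5 = 2 ∨ g % 5 = 3 ∨ g % 5 = 4 := by omega
  have hs' : s % 5 = 0 ∨ s % 5 = 1 ∨ s % 5 = 2 ∨ s % 5 = 3 ∨ s % 5 = 4 := by omega
  have ha' : a % 5 = 0 ∨ a % 5 = 1 ∨ a % 5 = 2 ∨ a % 5 = 3 ∨ a % 5 = 4 := by omega
  rcases hg' with hg' | hg' | hg' | hg' | hg'
  · exact absurd (Int.dvd_of_emod_eq_zero hg') hg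
  · exact Or.inl hg'
  · exfalso
    rcases hs' with hs' | hs' | hs' | hs' | hs' <;>
    rcases ha' with ha' | ha' | ha' | ha' | ha' <;>
    first
    | exact absurd (Int.dvd_of_emod_eq_zero hs') hs
    | (simp [Int.sub_emod, Int.mul_emod, pow_two, hg', hs', ha'] at h1)
  · exfalso
    rcases hs' with hs' | hs' | hs' | hs' | hs' <;>
    rcases ha' with ha' | ha' | ha' | ha' | ha' <;>
    first
    | exact absurd (Int.dvd_of_emod_eq_zero hs') hs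
    | (simp [Int.sub_emod, Int.mul_emod, pow_two, hg', hs', ha'] at h1)
  · exact Or.inr hg'

lemma five_dvd_of_sq (a : ℤ) (h : (5 : ℤ) ∣ a ^ 2) : (5 : ℤ) ∣ a :=
  Int.Prime.dvd_pow' (p := 5) (by norm_num) (by exact_mod_cast h)

lemma qr5 (g s a b : ℤ) (h : g * s ^ 2 = a ^ 2 - 3125 * b ^ 2) (hg : ¬ (5 ∣ g))
    (hab : IsCoprime a b) : g % 5 = 1 ∨ g % 5 = 4 := by
  by_cases hs : (5 : ℤ) ∣ s
  · obtain ⟨s1, rfl⟩ := hs
    have ha : (5 : ℤ) ∣ a := by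
      apply five_dvd_of_sq
      have : a ^ 2 = 5 * (5 * g * s1 ^ 2 + 625 * b ^ 2) := by linear_combination -h
      exact ⟨_, this⟩
    obtain ⟨a1, rfl⟩ := ha
    have h1 : g * s1 ^ 2 = a1 ^ 2 - 5 * (25 * b ^ 2) := by linarith
    by_cases hs1 : (5 : ℤ) ∣ s1
    · obtain ⟨s2, rfl⟩ := hs1
      have ha1 : (5 : ℤ) ∣ a1 := by
        apply five_dvd_of_sq
        have : a1 ^ 2 = 5 * (5 * g * s2 ^ 2 + 25 * b ^ 2) := by linear_combination -h1
        exact ⟨_, this⟩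
      obtain ⟨a2, rfl⟩ := ha1
      have h2 : g * s2 ^ 2 = a2 ^ 2 - 5 * (b ^ 2) := by linarith
      by_cases hs2 : (5 : ℤ) ∣ s2
      · exfalso
        obtain ⟨s3, rfl⟩ := hs2
        have ha2 : (5 : ℤ) ∣ a2 := by
          apply five_dvd_of_sq
          have : a2 ^ 2 = 5 * (5 * g * s3 ^ 2 + b ^ 2) := by linear_combination -h2
          exact ⟨_, this⟩
        obtain ⟨a3, rfl⟩ := ha2
        have hb : (5 : ℤ) ∣ b := by
          apply five_dvd_of_sq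
          have : b ^ 2 = 5 * (a3 ^ 2 - g * s3 ^ 2) := by linarith
          exact ⟨_, this⟩
        have := hab.isUnit_of_dvd' (x := (5 : ℤ)) ⟨25 * a3, by ring⟩ hb
        rw [Int.isUnit_iff] at this
        omega
      · exact qr5_step g s2 a2 (b ^ 2) h2 hg hs2
    · exact qr5_step g s1 a1 (25 * b ^ 2) h1 hg hs1
  · exact qr5_step g s a (625 * b ^ 2) (by linarith) hg hs

/-- divisors of the discriminant constant -/
lemma div_disc (g : ℤ) (h : g ∣ 767711241) : ∃ i ≤ 2, ∃ j ≤ 2, ∃ k ≤ 3,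
    g = 3 ^ i * 11 ^ j * 89 ^ k ∨ g = -(3 ^ i * 11 ^ j * 89 ^ k) := by
  have h1 : g.natAbs ∣ (3 ^ 2 * 11 ^ 2) * 89 ^ 3 := by
    have := Int.natAbs_dvd_natAbs.2 h
    norm_num at this ⊢
    exact this
  obtain ⟨y, z, hy, hz, hyz⟩ := (Nat.dvd_mul).1 h1
  obtain ⟨x, w, hx, hw, hxw⟩ := (Nat.dvd_mul).1 hy
  obtain ⟨i, hi, rfl⟩ := (Nat.dvd_prime_pow Nat.prime_three).1 hx
  obtain ⟨j, hj, rfl⟩ := (Nat.dvd_prime_pow (by norm_num : Nat.Prime 11)).1 hw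
  obtain ⟨k, hk, rfl⟩ := (Nat.dvd_prime_pow (by norm_num : Nat.Prime 89)).1 hz
  refine ⟨i, hi, j, hj, k, hk, ?_⟩
  rcases Int.natAbs_eq g with h2 | h2
  · left; rw [h2, ← hyz, ← hxw]; push_cast; ring
  · right; rw [h2, ← hyz, ← hxw]; push_cast; ring

lemma class_one (g : ℤ) (h : g ∣ 767711241) (h8 : g % 8 = 1) (h5 : g % 5 = 1 ∨ g % 5 = 4) :
    ∃ m : ℤ, 0 < m ∧ (g = m ^ 2 ∨ g = 89 * m ^ 2) := by
  obtain ⟨i, hi, j, hj, k, hk, hg⟩ := div_disc g h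
  have hi' : i = 0 ∨ i = 1 ∨ i = 2 := by omega
  have hj' : j = 0 ∨ j = 1 ∨ j = 2 := by omega
  have hk' : k = 0 ∨ k = 1 ∨ k = 2 ∨ k = 3 := by omega
  rcases hi' with rfl | rfl | rfl <;> rcases hj' with rfl | rfl | rfl <;>
    rcases hk' with rfl | rfl | rfl | rfl <;> rcases hg with hg | hg <;>
    norm_num at hg <;> subst hg <;>
    first
    | (exfalso; omega)
    | skip
  · exact ⟨1, by norm_num, Or.inl (by norm_num)⟩
  · exact ⟨1, by norm_num, Or.inr (by norm_num)⟩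
  · exact ⟨89, by norm_num, Or.inl (by norm_num)⟩
  · exact ⟨89, by norm_num, Or.inr (by norm_num)⟩
  · exact ⟨11, by norm_num, Or.inl (by norm_num)⟩
  · exact ⟨11, by norm_num, Or.inr (by norm_num)⟩
  · exact ⟨979, by norm_num, Or.inl (by norm_num)⟩
  · exact ⟨979, by norm_num, Or.inr (by norm_num)⟩
  · exact ⟨3, by norm_num, Or.inl (by norm_num)⟩
  · exact ⟨3, by norm_num, Or.inr (by norm_num)⟩
  · exact ⟨267, by norm_num, Or.inl (by norm_num)⟩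
  · exact ⟨267, by norm_num, Or.inr (by norm_num)⟩
  · exact ⟨33, by norm_num, Or.inl (by norm_num)⟩
  · exact ⟨33, by norm_num, Or.inr (by norm_num)⟩
  · exact ⟨2937, by norm_num, Or.inl (by norm_num)⟩
  · exact ⟨2937, by norm_num, Or.inr (by norm_num)⟩

lemma class_five (g : ℤ) (h : g ∣ 767711241) (h8 : g % 8 = 5) (h5 : g % 5 = 1 ∨ g % 5 = 4) :
    ∃ m e : ℤ, (e = 1 ∨ e = 89) ∧ g = -(11 * e * m ^ 2) := by
  obtain ⟨i, hi, j, hj, k, hk, hg⟩ := div_disc g h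
  have hi' : i = 0 ∨ i = 1 ∨ i = 2 := by omega
  have hj' : j = 0 ∨ j = 1 ∨ j = 2 := by omega
  have hk' : k = 0 ∨ k = 1 ∨ k = 2 ∨ k = 3 := by omega
  rcases hi' with rfl | rfl | rfl <;> rcases hj' with rfl | rfl | rfl <;>
    rcases hk' with rfl | rfl | rfl | rfl <;> rcases hg with hg | hg <;>
    norm_num at hg <;> subst hg <;>
    first
    | (exfalso; omega)
    | skip
  · exact ⟨1, 1, Or.inl rfl, by norm_num⟩
  · exact ⟨1, 89, Or.inr rfl, by norm_num⟩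
  · exact ⟨89, 1, Or.inl rfl, by norm_num⟩
  · exact ⟨89, 89, Or.inr rfl, by norm_num⟩
  · exact ⟨3, 1, Or.inl rfl, by norm_num⟩
  · exact ⟨3, 89, Or.inr rfl, by norm_num⟩
  · exact ⟨267, 1, Or.inl rfl, by norm_num⟩
  · exact ⟨267, 89, Or.inr rfl, by norm_num⟩

/-- First descent. -/
lemma first_descent (r s N : ℤ) (hrs : IsCoprime r s) (hr : r ≠ 0) (hs : s ≠ 0)
    (h : N ^ 2 = 3125 * r ^ 4 - 72579 * r ^ 2 * s ^ 2 + 360000 * s ^ 4) :
    ∃ a b g : ℤ, 0 < b ∧ IsCoprime a b ∧ a * r ^ 2 = b * (N + 600 * s ^ 2) ∧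
      g * s ^ 2 = a ^ 2 - 3125 * b ^ 2 ∧ g * r ^ 2 = b * (1200 * a - 72579 * b) ∧
      g ∣ 767711241 ∧ (g % 5 = 1 ∨ g % 5 = 4) := by
  set q : ℚ := (N + 600 * s ^ 2) / r ^ 2 with hq
  have hr' : (r : ℚ) ≠ 0 := by exact_mod_cast hr
  have hb : (0 : ℤ) < q.den := by exact_mod_cast q.den_pos
  have hcop : IsCoprime q.num (q.den : ℤ) := by
    rw [Int.isCoprime_iff_gcd_eq_one]
    exact q.reduced
  have h1 : q.num * r ^ 2 = q.den * (N + 600 * s ^ 2) := by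
    have h2 : (q.num : ℚ) = q * q.den := (Rat.mul_den_eq_num q).symm
    have h3 : ((q.num * r ^ 2 : ℤ) : ℚ) = ((q.den * (N + 600 * s ^ 2) : ℤ) : ℚ) := by
      push_cast
      rw [h2, hq]
      field_simp
    exact_mod_cast h3
  set a := q.num
  set b : ℤ := (q.den : ℤ)
  have h2 : r ^ 2 * (a ^ 2 - 3125 * b ^ 2) = s ^ 2 * (b * (1200 * a - 72579 * b)) := by
    have hr2 : r ^ 2 ≠ 0 := pow_ne_zero 2 hr
    apply mul_left_cancel₀ hr2
    have e1 : b * (N - 600 * s ^ 2) = a * r ^ 2 - 1200 * b * s ^ 2 := by linear_combination -h1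
    have e2 : (b * (N + 600 * s ^ 2)) * (b * (N - 600 * s ^ 2)) =
        b ^ 2 * (r ^ 2 * (3125 * r ^ 2 - 72579 * s ^ 2)) := by
      linear_combination b ^ 2 * h
    rw [e1, ← h1] at e2
    linear_combination e2
  have hdvd : s ^ 2 ∣ a ^ 2 - 3125 * b ^ 2 := by
    have : IsCoprime (s ^ 2) (r ^ 2) := (hrs.symm).pow
    exact this.dvd_of_dvd_mul_left ⟨_, h2⟩
  obtain ⟨g, hg⟩ := hdvd
  have hg1 : g * s ^ 2 = a ^ 2 - 3125 * b ^ 2 := by rw [hg]; ring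
  have hg2 : g * r ^ 2 = b * (1200 * a - 72579 * b) := by
    have hs2 : s ^ 2 ≠ 0 := pow_ne_zero 2 hs
    apply mul_left_cancel₀ hs2
    rw [← h2, hg]; ring
  have hgb : IsCoprime g b := by
    have e1 : IsCoprime (a ^ 2 - 3125 * b ^ 2) b := by
      have : IsCoprime (a ^ 2) b := hcop.pow_left
      have e2 : a ^ 2 - 3125 * b ^ 2 = a ^ 2 + b * (-(3125 * b)) := by ring
      rw [e2]
      exact this.add_mul_left_left _
    exact e1.of_isCoprime_of_dvd_left ⟨s ^ 2, hg1.symm⟩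
  have hgF : g ∣ 1200 * a - 72579 * b := hgb.dvd_of_dvd_mul_left ⟨r ^ 2, hg2.symm⟩
  have hgd : g ∣ 767711241 := by
    have e1 : g ∣ 767711241 * b ^ 2 := by
      have e2 : 767711241 * b ^ 2 = 1440000 * (a ^ 2 - 3125 * b ^ 2) -
        (1200 * a - 72579 * b) * ((1200 * a - 72579 * b) + 145158 * b) := by ring
      rw [e2, ← hg1]
      exact dvd_sub (Dvd.intro _ (by ring : g * (1440000 * s ^ 2) = _)) (hgF.mul_right _)
    exact (hgb.pow_right (n := 2)).dvd_of_dvd_mul_right e1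
  refine ⟨a, b, g, hb, hcop, h1, hg1, hg2, hgd, ?_⟩
  apply qr5 g s a b hg1 _ hcop
  intro h5
  have : (5 : ℤ) ∣ 767711241 := h5.trans hgd
  norm_num at this

lemma eleven_dvd_of_sq (a : ℤ) (h : (11 : ℤ) ∣ a ^ 2) : (11 : ℤ) ∣ a :=
  Int.Prime.dvd_pow' (p := 11) (by norm_num) (by exact_mod_cast h)

lemma mod11 (s r : ℤ) (h : (s ^ 2 - 2 * r ^ 2) % 11 = 0) : 11 ∣ s ∧ 11 ∣ r := by
  have hs' : s % 11 = 0 ∨ s % 11 = 1 ∨ s % 11 = 2 ∨ s % 11 = 3 ∨ s % 11 = 4 ∨ s % 11 = 5 ∨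
    s % 11 = 6 ∨ s % 11 = 7 ∨ s % 11 = 8 ∨ s % 11 = 9 ∨ s % 11 = 10 := by omega
  have hr' : r % 11 = 0 ∨ r % 11 = 1 ∨ r % 11 = 2 ∨ r % 11 = 3 ∨ r % 11 = 4 ∨ r % 11 = 5 ∨
    r % 11 = 6 ∨ r % 11 = 7 ∨ r % 11 = 8 ∨ r % 11 = 9 ∨ r % 11 = 10 := by omega
  rcases hs' with hs' | hs' | hs' | hs' | hs' | hs' | hs' | hs' | hs' | hs' | hs' <;>
  rcases hr' with hr' | hr' | hr' | hr' | hr' | hr' | hr' | hr' | hr' | hr' | hr' <;>
  first
  | exact ⟨Int.dvd_of_emod_eq_zero hs', Int.dvd_of_emod_eq_zero hr'⟩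
  | (exfalso; simp [Int.sub_emod, Int.mul_emod, pow_two, hs', hr'] at h)

/-- No point of the second kind. -/
lemma typeA (r s N : ℤ) (hrs : IsCoprime r s) (hs : s ≠ 0) (hr2 : r % 2 = 1) (hs2 : s % 2 = 0)
    (h : N ^ 2 = 3125 * r ^ 4 - 72579 * r ^ 2 * s ^ 2 + 360000 * s ^ 4) : False := by
  have hr : r ≠ 0 := by rintro rfl; norm_num at hr2
  obtain ⟨a, b, g, hb, hab, h1, h2, h3, h4, h5⟩ := first_descent r s N hrs hr hs h
  -- parities
  have hN : N % 2 = 1 := by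
    have e1 : (N ^ 2) % 2 = 1 := by
      rw [h]
      have : (3125 * r ^ 4 - 72579 * r ^ 2 * s ^ 2 + 360000 * s ^ 4) % 2 = 1 := by
        simp [Int.sub_emod, Int.add_emod, Int.mul_emod, pow_succ, hr2, hs2]
      exact this
    rcases Int.emod_two_eq_zero_or_one N with h0 | h0
    · rw [pow_two, Int.mul_emod, h0] at e1; norm_num at e1
    · exact h0
  have hab2 : a % 2 = b % 2 := by
    have e1 : (a * r ^ 2) % 2 = (b * (N + 600 * s ^ 2)) % 2 := by rw [h1]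
    rcases Int.emod_two_eq_zero_or_one a with ha | ha <;>
    rcases Int.emod_two_eq_zero_or_one b with hb' | hb' <;>
    simp [Int.add_emod, Int.mul_emod, pow_two, hr2, hs2, hN, ha, hb'] at e1 ⊢
  have hb1 : b % 2 = 1 := by
    rcases Int.emod_two_eq_zero_or_one b with h0 | h0
    · exfalso
      have h0' : a % 2 = 0 := by rw [hab2, h0]
      have := hab.isUnit_of_dvd' (x := (2 : ℤ)) (Int.dvd_of_emod_eq_zero h0')
        (Int.dvd_of_emod_eq_zero h0)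
      rw [Int.isUnit_iff] at this
      omega
    · exact h0
  have hg8 : g % 8 = 5 := by
    have e1 : (g * r ^ 2) % 8 = (b * (1200 * a - 72579 * b)) % 8 := by rw [h3]
    have e2 : (r ^ 2) % 8 = 1 := sq_mod8 r hr2
    have e3 : (b ^ 2) % 8 = 1 := sq_mod8 b hb1
    have e4 : b * (1200 * a - 72579 * b) = 8 * (150 * a * b) - 72579 * b ^ 2 := by ring
    rw [e4, Int.mul_emod, e2] at e1
    omega
  obtain ⟨m, e, he, hg⟩ := class_five g h4 hg8 h5
  subst hg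
  -- the 11-adic contradiction
  have hb11 : ¬ (11 : ℤ) ∣ b := by
    intro hb'
    have : (11 : ℤ) ∣ a := by
      apply eleven_dvd_of_sq
      obtain ⟨c, rfl⟩ := hb'
      exact ⟨3125 * 11 * c ^ 2 - e * m ^ 2 * s ^ 2, by linear_combination -h2⟩
    have := hab.isUnit_of_dvd' this hb'
    rw [Int.isUnit_iff] at this
    omega
  have hp11 : Prime (11 : ℤ) := Int.prime_iff_natAbs_prime.2 (by norm_num)
  have hF : (11 : ℤ) ∣ 1200 * a - 72579 * b := by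
    have : (11 : ℤ) ∣ b * (1200 * a - 72579 * b) := ⟨-(e * m ^ 2 * r ^ 2), by linear_combination -h3⟩
    rcases hp11.dvd_or_dvd this with h' | h'
    · exact absurd h' hb11
    · exact h'
  obtain ⟨F1, hF1⟩ := hF
  have hbF : b * F1 = -(e * (m * r) ^ 2) := by
    have : 11 * (b * F1) = 11 * (-(e * (m * r) ^ 2)) := by
      linear_combination -b * hF1 - h3
    linarith
  have key : -(1440000 * e * (m * s) ^ 2) = 11 * F1 ^ 2 + 145158 * (b * F1) + 11 * 6344721 * b ^ 2 := by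
    have e1 : 1440000 * (a ^ 2 - 3125 * b ^ 2) = (1200 * a - 72579 * b) ^ 2 +
      145158 * b * (1200 * a - 72579 * b) + 767711241 * b ^ 2 := by ring
    rw [← h2, hF1] at e1
    have : 11 * (-(1440000 * e * (m * s) ^ 2)) =
      11 * (11 * F1 ^ 2 + 145158 * (b * F1) + 11 * 6344721 * b ^ 2) := by
      linear_combination e1
    linarith
  have h11 : ((m * s) ^ 2 - 2 * (m * r) ^ 2) % 11 = 0 := by
    rw [hbF] at key
    have e1 : e * ((m * s) ^ 2 - 2 * (m * r) ^ 2) =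
      11 * (-(F1 ^ 2) - 6344721 * b ^ 2 - e * 130909 * (m * s) ^ 2 + e * 13196 * (m * r) ^ 2) := by
      linear_combination -key
    have e2 : (11 : ℤ) ∣ e * ((m * s) ^ 2 - 2 * (m * r) ^ 2) := ⟨_, e1⟩
    rcases hp11.dvd_or_dvd e2 with h' | h'
    · rcases he with rfl | rfl <;> norm_num at h'
    · exact Int.emod_eq_zero_of_dvd h'
  obtain ⟨⟨s1, hs1⟩, ⟨r1, hr1⟩⟩ := mod11 _ _ h11
  have hF11 : (121 : ℤ) ∣ F1 := by
    have e1 : (11 : ℤ) ^ 2 ∣ b * F1 := by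
      rw [hbF, hr1]; exact ⟨-(e * r1 ^ 2), by ring⟩
    have e2 : IsCoprime ((11 : ℤ) ^ 2) b := by
      apply IsCoprime.pow_left
      exact (Int.isCoprime_iff_gcd_eq_one.2 (by
        rcases (Nat.coprime_or_dvd_of_prime (by norm_num : Nat.Prime 11) b.natAbs) with h' | h'
        · exact h'
        · exact absurd (Int.natCast_dvd.2 h') hb11))
    have := e2.dvd_of_dvd_mul_left e1
    norm_num at this
    exact this
  obtain ⟨F2, rfl⟩ := hF11
  have : (11 : ℤ) ∣ b := by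
    have e0 : (11 : ℤ) ∣ 6344721 * b ^ 2 := by
      rw [hs1] at key
      refine ⟨-(1440000 * e * s1 ^ 2) - 1331 * F2 ^ 2 - 145158 * b * F2, ?_⟩
      linarith
    rcases hp11.dvd_or_dvd e0 with h' | h'
    · norm_num at h'
    · exact eleven_dvd_of_sq b h'
  exact hb11 this

end Pool.Agent.Helper1.QuinticArith
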