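import Pool.Agent.Helper1.QuinticArith

namespace Pool.Agent.Helper1.QuinticDescent

open Pool.Agent.Helper1.QuinticArith

/-- the quartic form -/
def Eqn (r s N : ℤ) : Prop := N ^ 2 = 3125 * r ^ 4 - 72579 * r ^ 2 * s ^ 2 + 360000 * s ^ 4

lemma reduce (r s N : ℤ) (hr : r ≠ 0) (h : Eqn r s N) :
    ∃ d r' s' N' : ℤ, r = d * r' ∧ s = d * s' ∧ IsCoprime r' s' ∧ Eqn r' s' N' := by
  have hd : (Int.gcd r s : ℤ) ≠ 0 := by
    intro h0
    have h0' : Int.gcd r s = 0 := by exact_mod_cast h0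
    exact hr (Int.gcd_eq_zero_iff.1 h0').1
  obtain ⟨r', hr'⟩ := Int.gcd_dvd_left (a := r) (b := s)
  obtain ⟨s', hs'⟩ := Int.gcd_dvd_right (a := r) (b := s)
  set d : ℤ := (Int.gcd r s : ℤ) with hdd
  have hcop : IsCoprime r' s' := by
    have e1 : d = r * Int.gcdA r s + s * Int.gcdB r s := Int.gcd_eq_gcd_ab r s
    refine ⟨Int.gcdA r s, Int.gcdB r s, ?_⟩
    apply mul_left_cancel₀ hd
    calc d * (Int.gcdA r s * r' + Int.gcdB r s * s') =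
        (d * r') * Int.gcdA r s + (d * s') * Int.gcdB r s := by ring
      _ = d * 1 := by rw [← hr', ← hs', ← e1, mul_one]
  have hN : d ^ 2 ∣ N := by
    have : (d ^ 2) ^ 2 ∣ N ^ 2 := by
      rw [h, hr', hs']
      exact ⟨3125 * r' ^ 4 - 72579 * r' ^ 2 * s' ^ 2 + 360000 * s' ^ 4, by ring⟩
    exact (Int.pow_dvd_pow_iff (by norm_num)).1 this
  obtain ⟨N', hN'⟩ := hN
  refine ⟨d, r', s', N', hr', hs', hcop, ?_⟩
  unfold Eqn at h ⊢
  have hd4 : d ^ 4 ≠ 0 := pow_ne_zero 4 hd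
  apply mul_left_cancel₀ hd4
  rw [hN', hr', hs'] at h
  linear_combination h

lemma typeA' (r s N : ℤ) (hs : s ≠ 0) (hr2 : r % 2 = 1) (hs2 : s % 2 = 0) (h : Eqn r s N) :
    False := by
  have hr : r ≠ 0 := by rintro rfl; norm_num at hr2
  obtain ⟨d, r', s', N', rfl, rfl, hcop, h'⟩ := reduce r s N hr h
  have hd2 : d % 2 = 1 := by
    rcases Int.emod_two_eq_zero_or_one d with h0 | h0
    · rw [Int.mul_emod, h0] at hr2; norm_num at hr2
    · exact h0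
  apply typeA r' s' N' hcop _ _ _ h'
  · rintro rfl; exact hs (mul_zero d)
  · rcases Int.emod_two_eq_zero_or_one r' with h0 | h0
    · rw [Int.mul_emod, h0] at hr2; norm_num at hr2
    · exact h0
  · rcases Int.emod_two_eq_zero_or_one s' with h0 | h0
    · exact h0
    · rw [Int.mul_emod, h0, hd2] at hs2; norm_num at hs2

/-- two-adic start -/
lemma base32 (r s N : ℤ) (hs2 : s % 2 = 1) (hr8 : 8 ∣ r) (h : Eqn r s N) : 32 ∣ r := by
  obtain ⟨r3, rfl⟩ := hr8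
  unfold Eqn at h
  have hN : (8 : ℤ) ∣ N := by
    have : (8 : ℤ) ^ 2 ∣ N ^ 2 := by
      rw [h]
      exact ⟨200000 * r3 ^ 4 - 72579 * r3 ^ 2 * s ^ 2 + 5625 * s ^ 4, by ring⟩
    exact (Int.pow_dvd_pow_iff (by norm_num)).1 this
  obtain ⟨N3, rfl⟩ := hN
  have h3 : N3 ^ 2 = 200000 * r3 ^ 4 - 72579 * r3 ^ 2 * s ^ 2 + 5625 * s ^ 4 := by linarith
  have hs8 : s ^ 2 % 8 = 1 := sq_mod8 s hs2
  have e1 : N3 ^ 2 % 8 = (5 * r3 ^ 2 + 1) % 8 := by
    rw [h3]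
    have e2 : 200000 * r3 ^ 4 - 72579 * r3 ^ 2 * s ^ 2 + 5625 * s ^ 4 =
      8 * (25000 * r3 ^ 4 - 9073 * r3 ^ 2 * s ^ 2 + 703 * s ^ 4) + 5 * (r3 ^ 2 * s ^ 2)
        + s ^ 2 * s ^ 2 := by ring
    rw [e2]
    have e3 : (r3 ^ 2 * s ^ 2) % 8 = r3 ^ 2 % 8 := by
      rw [Int.mul_emod, hs8, mul_one, Int.emod_emod_of_dvd _ (dvd_refl 8)]
    have e4 : (s ^ 2 * s ^ 2) % 8 = 1 := by rw [Int.mul_emod, hs8]; norm_num
    omega
  have hN3 : N3 ^ 2 % 8 = 0 ∨ N3 ^ 2 % 8 = 1 ∨ N3 ^ 2 % 8 = 4 := by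
    have h' : N3 % 8 = 0 ∨ N3 % 8 = 1 ∨ N3 % 8 = 2 ∨ N3 % 8 = 3 ∨ N3 % 8 = 4 ∨ N3 % 8 = 5 ∨
      N3 % 8 = 6 ∨ N3 % 8 = 7 := by omega
    rcases h' with h' | h' | h' | h' | h' | h' | h' | h' <;> simp [pow_two, Int.mul_emod, h']
  have hr3 : r3 % 4 = 0 := by
    have h' : r3 % 8 = 0 ∨ r3 % 8 = 1 ∨ r3 % 8 = 2 ∨ r3 % 8 = 3 ∨ r3 % 8 = 4 ∨ r3 % 8 = 5 ∨
      r3 % 8 = 6 ∨ r3 % 8 = 7 := by omega
    rcases h' with h' | h' | h' | h' | h' | h' | h' | h'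
    · omega
    · exfalso
      have : r3 ^ 2 % 8 = 1 := by simp [pow_two, Int.mul_emod, h']
      omega
    · exfalso
      have : r3 ^ 2 % 8 = 4 := by simp [pow_two, Int.mul_emod, h']
      omega
    · exfalso
      have : r3 ^ 2 % 8 = 1 := by simp [pow_two, Int.mul_emod, h']
      omega
    · omega
    · exfalso
      have : r3 ^ 2 % 8 = 1 := by simp [pow_two, Int.mul_emod, h']
      omega
    · exfalso
      have : r3 ^ 2 % 8 = 4 := by simp [pow_two, Int.mul_emod, h']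
      omega
    · exfalso
      have : r3 ^ 2 % 8 = 1 := by simp [pow_two, Int.mul_emod, h']
      omega
  obtain ⟨c, hc⟩ := Int.dvd_of_emod_eq_zero hr3
  exact ⟨c, by rw [hc]; ring⟩

lemma odd_of_not (x : ℤ) (h : ¬ (2 ∣ x)) : x % 2 = 1 := by omega

lemma two_dvd_mul_odd (j : ℕ) (x y : ℤ) (hy : y % 2 = 1) (h : (2 : ℤ) ^ j ∣ x * y) :
    (2 : ℤ) ^ j ∣ x := by
  have : IsCoprime ((2 : ℤ) ^ j) y := by
    apply IsCoprime.pow_left
    refine ⟨-(y / 2), 1, ?_⟩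
    omega
  exact this.dvd_of_dvd_mul_right h

/-- parity of the first descent -/
lemma parity (r s N a b : ℤ) (hr : r ≠ 0) (hs2 : s % 2 = 1) (hr32 : 32 ∣ r) (h : Eqn r s N)
    (hab : IsCoprime a b) (h1 : a * r ^ 2 = b * (N + 600 * s ^ 2)) :
    a % 2 = 1 ∧ 16 ∣ b := by
  obtain ⟨ρ, rfl⟩ := hr32
  have hρ : ρ ≠ 0 := by rintro rfl; exact hr (by ring)
  unfold Eqn at h
  have hN : (8 : ℤ) ∣ N := by
    have : (8 : ℤ) ^ 2 ∣ N ^ 2 := by
      rw [h]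
      exact ⟨3125 * 16384 * ρ ^ 4 - 72579 * 16 * ρ ^ 2 * s ^ 2 + 5625 * s ^ 4, by ring⟩
    exact (Int.pow_dvd_pow_iff (by norm_num)).1 this
  obtain ⟨N0, rfl⟩ := hN
  have h3 : (N0 + 75 * s ^ 2) * (N0 - 75 * s ^ 2) = 16 * ρ ^ 2 * (3200000 * ρ ^ 2 - 72579 * s ^ 2) := by
    linarith
  have h2 : 128 * a * ρ ^ 2 = b * (N0 + 75 * s ^ 2) := by linarith
  have hs8 : s ^ 2 % 8 = 1 := sq_mod8 s hs2
  have hN0 : N0 % 2 = 1 := by
    have e1 : N0 ^ 2 % 2 = 1 := by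
      have e2 : N0 ^ 2 = 2 * (8 * ρ ^ 2 * (3200000 * ρ ^ 2 - 72579 * s ^ 2) + 2812 * (s ^ 2 * s ^ 2))
        + s ^ 2 * s ^ 2 := by linear_combination h3
      have e4 : (s ^ 2 * s ^ 2) % 8 = 1 := by rw [Int.mul_emod, hs8]; norm_num
      omega
    rcases Int.emod_two_eq_zero_or_one N0 with h0 | h0
    · rw [pow_two, Int.mul_emod, h0] at e1; norm_num at e1
    · exact h0
  have hnot : ∀ x : ℤ, x ∣ a → x ∣ b → IsUnit x := fun x => hab.isUnit_of_dvd'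
  have hodd : (16 : ℤ) ∣ b → a % 2 = 1 := by
    intro hb
    apply odd_of_not
    intro ha
    have := hnot 2 ha ((by norm_num : (2 : ℤ) ∣ 16).trans hb)
    rw [Int.isUnit_iff] at this
    omega
  rcases (show (N0 + 75 * s ^ 2) % 4 = 2 ∨ (N0 + 75 * s ^ 2) % 4 = 0 by omega) with h4 | h4
  · obtain ⟨A1, hA1⟩ : (2 : ℤ) ∣ N0 + 75 * s ^ 2 := by omega
    have hA1' : A1 % 2 = 1 := by omega
    have hb : (2 : ℤ) ^ 4 ∣ b := by
      apply two_dvd_mul_odd 4 b A1 hA1'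
      rw [hA1] at h2
      exact ⟨4 * a * ρ ^ 2, by linarith⟩
    norm_num at hb
    exact ⟨hodd hb, hb⟩
  · obtain ⟨B1, hB1⟩ : (2 : ℤ) ∣ N0 - 75 * s ^ 2 := by omega
    have hB1' : B1 % 2 = 1 := by omega
    have hZ : (3200000 * ρ ^ 2 - 72579 * s ^ 2) % 2 = 1 := by omega
    have hb : (2 : ℤ) ^ 4 ∣ b := by
      apply two_dvd_mul_odd 4 b _ hZ
      refine ⟨a * B1, ?_⟩
      have hρ2 : (8 : ℤ) * ρ ^ 2 ≠ 0 := by positivity
      apply mul_left_cancel₀ hρ2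
      rw [hB1] at h3
      have h3' : (N0 + 75 * s ^ 2) * B1 = 8 * ρ ^ 2 * (3200000 * ρ ^ 2 - 72579 * s ^ 2) := by
        linarith
      linear_combination -B1 * h2 - b * h3'
    norm_num at hb
    exact ⟨hodd hb, hb⟩

lemma not_sq_89 (x y : ℤ) (hx : x ≠ 0) (h : 89 * x ^ 2 = y ^ 2) : False := by
  have hx' : (x : ℚ) ≠ 0 := by exact_mod_cast hx
  have h1 : (89 : ℚ) = (y / x) * (y / x) := by
    have : (89 : ℚ) * x ^ 2 = y ^ 2 := by exact_mod_cast h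
    field_simp
    exact this
  have h2 : IsSquare (89 : ℚ) := ⟨_, h1⟩
  have h3 : IsSquare ((89 : ℕ) : ℚ) := by exact_mod_cast h2
  rw [Rat.isSquare_natCast_iff] at h3
  obtain ⟨k, hk⟩ := h3
  have : k < 10 := by nlinarith
  interval_cases k <;> omega

/-- choice of the sign: the class is a square -/
lemma good_class (r s N : ℤ) (hrs : IsCoprime r s) (hr : r ≠ 0) (hs2 : s % 2 = 1)
    (hr32 : 32 ∣ r) (h : Eqn r s N) :
    ∃ a b m : ℤ, 0 < b ∧ 0 < m ∧ IsCoprime a b ∧ a % 2 = 1 ∧ 16 ∣ b ∧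
      (m * s) ^ 2 = a ^ 2 - 3125 * b ^ 2 ∧ (m * r) ^ 2 = b * (1200 * a - 72579 * b) := by
  have hs : s ≠ 0 := by rintro rfl; norm_num at hs2
  have h' : Eqn r s (-N) := by unfold Eqn at h ⊢; rw [← h]; ring
  obtain ⟨a, b, g, hb, hab, h1, h2, h3, h4, h5⟩ := first_descent r s N hrs hr hs h
  obtain ⟨a', b', g', hb', hab', h1', h2', h3', h4', h5'⟩ := first_descent r s (-N) hrs hr hs h'
  obtain ⟨pa, pb⟩ := parity r s N a b hr hs2 hr32 h hab h1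
  obtain ⟨pa', pb'⟩ := parity r s (-N) a' b' hr hs2 hr32 h' hab' h1'
  have g8 : ∀ a b g : ℤ, g * s ^ 2 = a ^ 2 - 3125 * b ^ 2 → a % 2 = 1 → 16 ∣ b → g % 8 = 1 := by
    intro a b g h2 pa pb
    obtain ⟨c, rfl⟩ := pb
    have e1 : a ^ 2 % 8 = 1 := sq_mod8 a pa
    have e2 : s ^ 2 % 8 = 1 := sq_mod8 s hs2
    have e3 : (g * s ^ 2) % 8 = 1 := by
      rw [h2]
      have : a ^ 2 - 3125 * (16 * c) ^ 2 = a ^ 2 - 8 * (100000 * c ^ 2) := by ring
      rw [this]; omega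
    rw [Int.mul_emod, e2] at e3
    omega
  obtain ⟨m, hm, hg⟩ := class_one g h4 (g8 a b g h2 pa pb) h5
  obtain ⟨m', hm', hg'⟩ := class_one g' h4' (g8 a' b' g' h2' pa' pb') h5'
  rcases hg with hg | hg
  · exact ⟨a, b, m, hb, hm, hab, pa, pb, by rw [← h2, hg]; ring, by rw [← h3, hg]; ring⟩
  · rcases hg' with hg' | hg'
    · exact ⟨a', b', m', hb', hm', hab', pa', pb', by rw [← h2', hg']; ring,
        by rw [← h3', hg']; ring⟩
    · exfalso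
      -- product relation
      have e1 : g * r ^ 4 = b ^ 2 * (1200 * N + 720000 * s ^ 2 - 72579 * r ^ 2) := by
        linear_combination r ^ 2 * h3 + 1200 * b * h1
      have e2 : g' * r ^ 4 = b' ^ 2 * (1200 * (-N) + 720000 * s ^ 2 - 72579 * r ^ 2) := by
        linear_combination r ^ 2 * h3' + 1200 * b' * h1'
      have e3 : (1200 * N + 720000 * s ^ 2 - 72579 * r ^ 2) *
          (1200 * (-N) + 720000 * s ^ 2 - 72579 * r ^ 2) = 767711241 * r ^ 4 := by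
        unfold Eqn at h
        linear_combination -1440000 * h
      have e4 : (g * g') * r ^ 4 = 767711241 * (b * b') ^ 2 := by
        have hr4 : r ^ 4 ≠ 0 := pow_ne_zero 4 hr
        apply mul_right_cancel₀ hr4
        calc g * g' * r ^ 4 * r ^ 4 = (g * r ^ 4) * (g' * r ^ 4) := by ring
          _ = (b * b') ^ 2 * ((1200 * N + 720000 * s ^ 2 - 72579 * r ^ 2) *
          (1200 * (-N) + 720000 * s ^ 2 - 72579 * r ^ 2)) := by rw [e1, e2]; ring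
          _ = _ := by rw [e3]; ring
      rw [hg, hg'] at e4
      apply not_sq_89 (m * m' * r ^ 2) (2937 * (b * b'))
      · have := pow_ne_zero 2 hr
        positivity
      · linarith

/-- splitting of a fourth power -/
lemma split_fourth (x y u : ℤ) (hx : 0 < x) (hy : 0 < y) (hu : 0 < u)
    (hdvd : u ^ 4 ∣ x * y) (hcop : ∀ p : ℕ, p.Prime → (p : ℤ) ∣ x → (p : ℤ) ∣ y → (p : ℤ) ∣ u → False) :
    ∃ p q x0 y0 : ℤ, 0 < p ∧ 0 < q ∧ u = p * q ∧ x = x0 * p ^ 4 ∧ y = y0 * q ^ 4 := by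
  obtain ⟨x', rfl⟩ := Int.eq_ofNat_of_zero_le hx.le
  obtain ⟨y', rfl⟩ := Int.eq_ofNat_of_zero_le hy.le
  obtain ⟨u', rfl⟩ := Int.eq_ofNat_of_zero_le hu.le
  have h1 : u' ^ 4 ∣ x' * y' := by exact_mod_cast hdvd
  obtain ⟨c, d, hc, hd, hcd⟩ := (Nat.dvd_mul).1 h1
  have hcop' : Nat.Coprime c d := by
    rw [Nat.coprime_iff_gcd_eq_one]
    by_contra hne
    obtain ⟨p, hp, hpd⟩ := Nat.exists_prime_and_dvd hne
    have pc : p ∣ c := hpd.trans (Nat.gcd_dvd_left _ _)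
    have pd : p ∣ d := hpd.trans (Nat.gcd_dvd_right _ _)
    apply hcop p hp
    · exact_mod_cast pc.trans hc
    · exact_mod_cast pd.trans hd
    · have : p ∣ u' ^ 4 := by rw [← hcd]; exact pc.mul_right _
      exact_mod_cast hp.dvd_of_dvd_pow this
  have hu'0 : 0 < u' := by exact_mod_cast hu
  obtain ⟨p, hp⟩ := exists_eq_pow_of_mul_eq_pow (by
    rw [Nat.isUnit_iff]; exact hcop') hcd
  obtain ⟨q, hq⟩ := exists_eq_pow_of_mul_eq_pow (by
    rw [Nat.isUnit_iff]; exact hcop'.symm) (by rw [mul_comm]; exact hcd)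
  have hpq : u' = p * q := by
    have : u' ^ 4 = (p * q) ^ 4 := by rw [← hcd, hp, hq]; ring
    exact Nat.pow_left_injective (by norm_num : 4 ≠ 0) this
  obtain ⟨x0, hx0⟩ := hc
  obtain ⟨y0, hy0⟩ := hd
  have hp0 : 0 < p := by
    rcases Nat.eq_zero_or_pos p with h0 | h0
    · rw [h0, zero_mul] at hpq; omega
    · exact h0
  have hq0 : 0 < q := by
    rcases Nat.eq_zero_or_pos q with h0 | h0
    · rw [h0, mul_zero] at hpq; omega
    · exact h0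
  refine ⟨p, q, x0, y0, by exact_mod_cast hp0, by exact_mod_cast hq0, by exact_mod_cast hpq, ?_, ?_⟩
  · rw [hx0, hp]; push_cast; ring
  · rw [hy0, hq]; push_cast; ring

end Pool.Agent.Helper1.QuinticDescent
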