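import Pool.Agent.Helper1.QuinticSecond

namespace Pool.Agent.Helper1.QuinticFinal

open Pool.Agent.Helper1.QuinticArith Pool.Agent.Helper1.QuinticDescent
open Pool.Agent.Helper1.QuinticSecond

/-- the new point, first type -/
lemma new_point (p q v K H A B : ℤ) (hA : A = 5 * K ^ 2) (hB : B = H ^ 2) (hKH : K * H = 15000)
    (h : v ^ 2 = A * p ^ 4 - 72579 * (p * q) ^ 2 + B * q ^ 4) :
    Eqn (K * p) (25 * q) (25 * v * K) := by
  unfold Eqn
  rw [hA, hB] at h
  have hKH2 : K ^ 2 * H ^ 2 = 225000000 := by
    have : (K * H) ^ 2 = 15000 ^ 2 := by rw [hKH]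
    linarith
  linear_combination 625 * K ^ 2 * h + 625 * q ^ 4 * hKH2

lemma sq4_mod8 (q : ℤ) (h : q % 2 = 1) : q ^ 4 % 8 = 1 := by
  have h' : q % 8 = 1 ∨ q % 8 = 3 ∨ q % 8 = 5 ∨ q % 8 = 7 := by omega
  rcases h' with h' | h' | h' | h' <;> simp [pow_succ, Int.mul_emod, h']

/-- case analysis for the final step, abstract form -/
lemma finish (c p q v x0 y0 : ℤ) (hc : c = 1 ∨ c = 5 ∨ c = 25) (hp : p % 2 = 0) (hp0 : 0 < p)
    (hq : q % 2 = 1) (hq0 : 0 < q)
    (hxy : ∃ i ≤ 2, ∃ j ≤ 9, i ≠ 1 ∧ y0 = 3 ^ i * 5 ^ j ∧ x0 * y0 = 1800000 * c ^ 2 ∧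
      (c = 1 → j ≤ 5) ∧ (c = 5 → j = 0 ∨ j = 7) ∧ (c = 25 → j = 0 ∨ j = 9))
    (h : 25 * (x0 * p ^ 4 + y0 * q ^ 4) = c * (v ^ 2 + 72579 * (p * q) ^ 2)) :
    ∃ K : ℤ, 0 < K ∧ (∃ c' : ℤ, K = 8 * c' ∧ c' % 2 = 1) ∧
      Eqn (K * p) (25 * q) (25 * v * K) := by
  -- the second kind is impossible
  have hbad : ∀ K H A B : ℤ, A = 5 * K ^ 2 → B = H ^ 2 → K * H = 15000 → K % 2 = 1 →
      v ^ 2 = A * q ^ 4 - 72579 * (q * p) ^ 2 + B * p ^ 4 → False := by
    intro K H A B hA hB hKH hK hv
    have e := new_point q p v K H A B hA hB hKH hv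
    apply typeA' (K * q) (25 * p) _ (by positivity) _ _ e
    · rw [Int.mul_emod, hK, hq]; norm_num
    · omega
  obtain ⟨i, hi, j, hj, hi1, hy0, hx0, hc1, hc5, hc25⟩ := hxy
  have hi' : i = 0 ∨ i = 2 := by omega
  rcases hc with rfl | rfl | rfl
  · have hj' := hc1 rfl
    have hj'' : j = 0 ∨ j = 1 ∨ j = 2 ∨ j = 3 ∨ j = 4 ∨ j = 5 := by omega
    rcases hi' with rfl | rfl <;> rcases hj'' with rfl | rfl | rfl | rfl | rfl | rfl <;>
      norm_num at hy0 <;> subst hy0
    · -- y0 = 1, x0 = 1800000
      obtain rfl : x0 = 1800000 := by omega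
      refine ⟨3000, by norm_num, ⟨375, by norm_num, by norm_num⟩, ?_⟩
      exact new_point p q v 3000 5 (25 * 1800000) 25 (by norm_num) (by norm_num) (by norm_num)
        (by linarith)
    · obtain rfl : x0 = 360000 := by omega
      exfalso
      exact hbad 5 3000 125 (25 * 360000) (by norm_num) (by norm_num) (by norm_num) (by norm_num)
        (by linarith)
    · obtain rfl : x0 = 72000 := by omega
      refine ⟨600, by norm_num, ⟨75, by norm_num, by norm_num⟩, ?_⟩
      exact new_point p q v 600 25 (25 * 72000) 625 (by norm_num) (by norm_num) (by norm_num)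
        (by linarith)
    · obtain rfl : x0 = 14400 := by omega
      exfalso
      exact hbad 25 600 3125 (25 * 14400) (by norm_num) (by norm_num) (by norm_num) (by norm_num)
        (by linarith)
    · obtain rfl : x0 = 2880 := by omega
      refine ⟨120, by norm_num, ⟨15, by norm_num, by norm_num⟩, ?_⟩
      exact new_point p q v 120 125 (25 * 2880) 15625 (by norm_num) (by norm_num) (by norm_num)
        (by linarith)
    · obtain rfl : x0 = 576 := by omega
      exfalso
      exact hbad 125 120 78125 (25 * 576) (by norm_num) (by norm_num) (by norm_num) (by norm_num)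
        (by linarith)
    · obtain rfl : x0 = 200000 := by omega
      refine ⟨1000, by norm_num, ⟨125, by norm_num, by norm_num⟩, ?_⟩
      exact new_point p q v 1000 15 (25 * 200000) 225 (by norm_num) (by norm_num) (by norm_num)
        (by linarith)
    · obtain rfl : x0 = 40000 := by omega
      exfalso
      exact hbad 15 1000 1125 (25 * 40000) (by norm_num) (by norm_num) (by norm_num) (by norm_num)
        (by linarith)
    · obtain rfl : x0 = 8000 := by omega
      refine ⟨200, by norm_num, ⟨25, by norm_num, by norm_num⟩, ?_⟩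
      exact new_point p q v 200 75 (25 * 8000) 5625 (by norm_num) (by norm_num) (by norm_num)
        (by linarith)
    · obtain rfl : x0 = 1600 := by omega
      exfalso
      exact hbad 75 200 28125 (25 * 1600) (by norm_num) (by norm_num) (by norm_num) (by norm_num)
        (by linarith)
    · obtain rfl : x0 = 320 := by omega
      refine ⟨40, by norm_num, ⟨5, by norm_num, by norm_num⟩, ?_⟩
      exact new_point p q v 40 375 (25 * 320) 140625 (by norm_num) (by norm_num) (by norm_num)
        (by linarith)
    · obtain rfl : x0 = 64 := by omega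
      exfalso
      exact hbad 375 40 703125 (25 * 64) (by norm_num) (by norm_num) (by norm_num) (by norm_num)
        (by linarith)
  · have hj' := hc5 rfl
    rcases hi' with rfl | rfl <;> rcases hj' with rfl | rfl <;>
      norm_num at hy0 <;> subst hy0
    · -- c = 5, y0 = 1, x0 = 45000000
      obtain rfl : x0 = 45000000 := by omega
      exfalso
      exact hbad 1 15000 5 225000000 (by norm_num) (by norm_num) (by norm_num) (by norm_num)
        (by linarith)
    · obtain rfl : x0 = 576 := by omega
      refine ⟨24, by norm_num, ⟨3, by norm_num, by norm_num⟩, ?_⟩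
      exact new_point p q v 24 625 2880 390625 (by norm_num) (by norm_num) (by norm_num)
        (by linarith)
    · obtain rfl : x0 = 5000000 := by omega
      exfalso
      exact hbad 3 5000 45 25000000 (by norm_num) (by norm_num) (by norm_num) (by norm_num)
        (by linarith)
    · obtain rfl : x0 = 64 := by omega
      refine ⟨8, by norm_num, ⟨1, by norm_num, by norm_num⟩, ?_⟩
      exact new_point p q v 8 1875 320 3515625 (by norm_num) (by norm_num) (by norm_num)
        (by linarith)
  · have hj' := hc25 rfl
    rcases hi' with rfl | rfl <;> rcases hj' with rfl | rfl <;>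
      norm_num at hy0 <;> subst hy0
    · -- c = 25, y0 = 1, x0 = 1125000000
      obtain rfl : x0 = 1125000000 := by omega
      refine ⟨15000, by norm_num, ⟨1875, by norm_num, by norm_num⟩, ?_⟩
      exact new_point p q v 15000 1 1125000000 1 (by norm_num) (by norm_num) (by norm_num)
        (by linarith)
    · obtain rfl : x0 = 576 := by omega
      exfalso
      exact hbad 625 24 1953125 576 (by norm_num) (by norm_num) (by norm_num) (by norm_num)
        (by linarith)
    · obtain rfl : x0 = 125000000 := by omega
      refine ⟨5000, by norm_num, ⟨625, by norm_num, by norm_num⟩, ?_⟩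
      exact new_point p q v 5000 3 125000000 9 (by norm_num) (by norm_num) (by norm_num)
        (by linarith)
    · obtain rfl : x0 = 64 := by omega
      exfalso
      exact hbad 1875 8 17578125 64 (by norm_num) (by norm_num) (by norm_num) (by norm_num)
        (by linarith)

end Pool.Agent.Helper1.QuinticFinal
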