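import Pool.Agent.Helper1.QuinticStep

namespace Pool.Agent.Helper1.QuinticPoly

open Pool.Agent.Helper1.QuinticDescent Pool.Agent.Helper1.QuinticStep

/-- the elementary symmetric relations -/
lemma symm_rel (D T a b c d e : ℤ) (hab : a ≠ b) (hac : a ≠ c) (had : a ≠ d) (hae : a ≠ e)
    (hbc : b ≠ c) (hbd : b ≠ d) (hbe : b ≠ e) (hcd : c ≠ d) (hce : c ≠ e) (hde : d ≠ e)
    (fa : a ^ 5 - 13 * D ^ 2 * a ^ 3 + 36 * D ^ 4 * a = T)
    (fb : b ^ 5 - 13 * D ^ 2 * b ^ 3 + 36 * D ^ 4 * b = T)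
    (fc : c ^ 5 - 13 * D ^ 2 * c ^ 3 + 36 * D ^ 4 * c = T)
    (fd : d ^ 5 - 13 * D ^ 2 * d ^ 3 + 36 * D ^ 4 * d = T)
    (fe : e ^ 5 - 13 * D ^ 2 * e ^ 3 + 36 * D ^ 4 * e = T) :
    a + b + c + d + e = 0 ∧
    a * b + a * c + a * d + a * e + b * c + b * d + b * e + c * d + c * e + d * e + 13 * D ^ 2 = 0 ∧
    a * b * c + a * b * d + a * b * e + a * c * d + a * c * e + a * d * e + b * c * d + b * c * e
      + b * d * e + c * d * e = 0 ∧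
    a * b * c * d + a * b * c * e + a * b * d * e + a * c * d * e + b * c * d * e
      - 36 * D ^ 4 = 0 ∧
    a * b * c * d * e - T = 0 := by
  -- first divided differences
  have g1 : ∀ x y : ℤ, x ≠ y → x ^ 5 - 13 * D ^ 2 * x ^ 3 + 36 * D ^ 4 * x = T →
      y ^ 5 - 13 * D ^ 2 * y ^ 3 + 36 * D ^ 4 * y = T →
      x ^ 4 + x ^ 3 * y + x ^ 2 * y ^ 2 + x * y ^ 3 + y ^ 4 - 13 * D ^ 2 * (x ^ 2 + x * y + y ^ 2)
        + 36 * D ^ 4 = 0 := by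
    intro x y hxy fx fy
    apply mul_left_cancel₀ (sub_ne_zero.2 hxy)
    linear_combination fx - fy
  have g2 : ∀ x y z : ℤ, y ≠ z → 
      x ^ 4 + x ^ 3 * y + x ^ 2 * y ^ 2 + x * y ^ 3 + y ^ 4 - 13 * D ^ 2 * (x ^ 2 + x * y + y ^ 2)
        + 36 * D ^ 4 = 0 →
      x ^ 4 + x ^ 3 * z + x ^ 2 * z ^ 2 + x * z ^ 3 + z ^ 4 - 13 * D ^ 2 * (x ^ 2 + x * z + z ^ 2)
        + 36 * D ^ 4 = 0 →
      x ^ 3 + y ^ 3 + z ^ 3 + x ^ 2 * y + x ^ 2 * z + y ^ 2 * x + y ^ 2 * z + z ^ 2 * x + z ^ 2 * y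
        + x * y * z - 13 * D ^ 2 * (x + y + z) = 0 := by
    intro x y z hyz f1 f2
    apply mul_left_cancel₀ (sub_ne_zero.2 hyz)
    linear_combination f1 - f2
  have g3 : ∀ x y z w : ℤ, z ≠ w →
      x ^ 3 + y ^ 3 + z ^ 3 + x ^ 2 * y + x ^ 2 * z + y ^ 2 * x + y ^ 2 * z + z ^ 2 * x + z ^ 2 * y
        + x * y * z - 13 * D ^ 2 * (x + y + z) = 0 →
      x ^ 3 + y ^ 3 + w ^ 3 + x ^ 2 * y + x ^ 2 * w + y ^ 2 * x + y ^ 2 * w + w ^ 2 * x + w ^ 2 * y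
        + x * y * w - 13 * D ^ 2 * (x + y + w) = 0 →
      x ^ 2 + y ^ 2 + z ^ 2 + w ^ 2 + x * y + x * z + x * w + y * z + y * w + z * w - 13 * D ^ 2
        = 0 := by
    intro x y z w hzw f1 f2
    apply mul_left_cancel₀ (sub_ne_zero.2 hzw)
    linear_combination f1 - f2
  have ab := g1 a b hab fa fb
  have ac := g1 a c hac fa fc
  have ad := g1 a d had fa fd
  have ae := g1 a e hae fa fe
  have abc := g2 a b c hbc ab ac
  have abd := g2 a b d hbd ab ad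
  have abe := g2 a b e hbe ab ae
  have abcd := g3 a b c d hcd abc abd
  have abce := g3 a b c e hce abc abe
  have s1 : a + b + c + d + e = 0 := by
    apply mul_left_cancel₀ (sub_ne_zero.2 hde)
    linear_combination abcd - abce
  have s2 : a * b + a * c + a * d + a * e + b * c + b * d + b * e + c * d + c * e + d * e
      + 13 * D ^ 2 = 0 := by
    linear_combination (a + b + c + d) * s1 - abcd
  have s3 : a * b * c + a * b * d + a * b * e + a * c * d + a * c * e + a * d * e + b * c * d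
      + b * c * e + b * d * e + c * d * e = 0 := by
    linear_combination abc - (a ^ 2 + b ^ 2 + c ^ 2 + a * b + a * c + b * c) * s1 +
      (a + b + c) * s2
  have s4 : a * b * c * d + a * b * c * e + a * b * d * e + a * c * d * e + b * c * d * e
      - 36 * D ^ 4 = 0 := by
    linear_combination -ab + (a ^ 3 + a ^ 2 * b + a * b ^ 2 + b ^ 3) * s1
      - (a ^ 2 + a * b + b ^ 2) * s2 + (a + b) * s3
  refine ⟨s1, s2, s3, s4, ?_⟩
  linear_combination fa - a ^ 4 * s1 + a ^ 3 * s2 - a ^ 2 * s3 + a * s4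

lemma disc_identity (D T a b c d e : ℤ)
    (s1 : a + b + c + d + e = 0)
    (s2 : a * b + a * c + a * d + a * e + b * c + b * d + b * e + c * d + c * e + d * e
      + 13 * D ^ 2 = 0)
    (s3 : a * b * c + a * b * d + a * b * e + a * c * d + a * c * e + a * d * e + b * c * d
      + b * c * e + b * d * e + c * d * e = 0)
    (s4 : a * b * c * d + a * b * c * e + a * b * d * e + a * c * d * e + b * c * d * e
      - 36 * D ^ 4 = 0)
    (s5 : a * b * c * d * e - T = 0) :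
    ∃ M : ℤ, M ^ 2 = 3125 * T ^ 4 - 2612844 * T ^ 2 * D ^ 10 + 466560000 * D ^ 20 := by
  have qa : (a - b) * (a - c) * (a - d) * (a - e) = 5 * a ^ 4 - 39 * D ^ 2 * a ^ 2 + 36 * D ^ 4 := by
    linear_combination (-4 * a ^ 3) * s1 + 3 * a ^ 2 * s2 - 2 * a * s3 + s4
  have qb : (b - a) * (b - c) * (b - d) * (b - e) = 5 * b ^ 4 - 39 * D ^ 2 * b ^ 2 + 36 * D ^ 4 := by
    linear_combination (-4 * b ^ 3) * s1 + 3 * b ^ 2 * s2 - 2 * b * s3 + s4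
  have qc : (c - a) * (c - b) * (c - d) * (c - e) = 5 * c ^ 4 - 39 * D ^ 2 * c ^ 2 + 36 * D ^ 4 := by
    linear_combination (-4 * c ^ 3) * s1 + 3 * c ^ 2 * s2 - 2 * c * s3 + s4
  have qd : (d - a) * (d - b) * (d - c) * (d - e) = 5 * d ^ 4 - 39 * D ^ 2 * d ^ 2 + 36 * D ^ 4 := by
    linear_combination (-4 * d ^ 3) * s1 + 3 * d ^ 2 * s2 - 2 * d * s3 + s4
  have qe : (e - a) * (e - b) * (e - c) * (e - d) = 5 * e ^ 4 - 39 * D ^ 2 * e ^ 2 + 36 * D ^ 4 := by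
    linear_combination (-4 * e ^ 3) * s1 + 3 * e ^ 2 * s2 - 2 * e * s3 + s4
  refine ⟨(a - b) * (a - c) * (a - d) * (a - e) * (b - c) * (b - d) * (b - e) * (c - d) * (c - e)
    * (d - e), ?_⟩
  have hM : ((a - b) * (a - c) * (a - d) * (a - e) * (b - c) * (b - d) * (b - e) * (c - d)
      * (c - e) * (d - e)) ^ 2 =
      (5 * a ^ 4 - 39 * D ^ 2 * a ^ 2 + 36 * D ^ 4) * (5 * b ^ 4 - 39 * D ^ 2 * b ^ 2 + 36 * D ^ 4)
      * (5 * c ^ 4 - 39 * D ^ 2 * c ^ 2 + 36 * D ^ 4) * (5 * d ^ 4 - 39 * D ^ 2 * d ^ 2 + 36 * D ^ 4)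
      * (5 * e ^ 4 - 39 * D ^ 2 * e ^ 2 + 36 * D ^ 4) := by
    rw [← qa, ← qb, ← qc, ← qd, ← qe]
    rw [show b - a = -(a - b) by ring, show c - a = -(a - c) by ring,
      show d - a = -(a - d) by ring, show e - a = -(a - e) by ring,
      show c - b = -(b - c) by ring, show d - b = -(b - d) by ring, show e - b = -(b - e) by ring,
      show d - c = -(c - d) by ring, show e - c = -(c - e) by ring, show e - d = -(d - e) by ring]
    generalize a - b = u1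
    generalize a - c = u2
    generalize a - d = u3
    generalize a - e = u4
    generalize b - c = u5
    generalize b - d = u6
    generalize b - e = u7
    generalize c - d = u8
    generalize c - e = u9
    generalize d - e = u10
    ring
  rw [hM]
  -- pass to the reals
  have hR : ∀ ξ : ℝ, ((a : ℝ) ^ 2 - ξ) * ((b : ℝ) ^ 2 - ξ) * ((c : ℝ) ^ 2 - ξ) * ((d : ℝ) ^ 2 - ξ)
      * ((e : ℝ) ^ 2 - ξ) = (T : ℝ) ^ 2 - ξ * (ξ ^ 2 - 13 * (D : ℝ) ^ 2 * ξ + 36 * (D : ℝ) ^ 4) ^ 2 := by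
    intro ξ
    have r1 : (a : ℝ) + b + c + d + e = 0 := by exact_mod_cast s1
    have r2 : (a : ℝ) * b + a * c + a * d + a * e + b * c + b * d + b * e + c * d + c * e + d * e
      = -(13 * (D : ℝ) ^ 2) := by
      have : ((a * b + a * c + a * d + a * e + b * c + b * d + b * e + c * d + c * e + d * e
      + 13 * D ^ 2 : ℤ) : ℝ) = 0 := by exact_mod_cast s2
      push_cast at this; linarith
    have r3 : (a : ℝ) * b * c + a * b * d + a * b * e + a * c * d + a * c * e + a * d * e + b * c * d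
      + b * c * e + b * d * e + c * d * e = 0 := by exact_mod_cast s3
    have r4 : (a : ℝ) * b * c * d + a * b * c * e + a * b * d * e + a * c * d * e + b * c * d * e
      = 36 * (D : ℝ) ^ 4 := by
      have : ((a * b * c * d + a * b * c * e + a * b * d * e + a * c * d * e + b * c * d * e
      - 36 * D ^ 4 : ℤ) : ℝ) = 0 := by exact_mod_cast s4
      push_cast at this; linarith
    have r5 : (a : ℝ) * b * c * d * e = T := by
      have : ((a * b * c * d * e - T : ℤ) : ℝ) = 0 := by exact_mod_cast s5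
      push_cast at this; linarith
    have gen : ((a : ℝ) ^ 2 - ξ) * ((b : ℝ) ^ 2 - ξ) * ((c : ℝ) ^ 2 - ξ) * ((d : ℝ) ^ 2 - ξ)
      * ((e : ℝ) ^ 2 - ξ) = (((a : ℝ) + b + c + d + e) * ξ ^ 2 +
        ((a : ℝ) * b * c + a * b * d + a * b * e + a * c * d + a * c * e + a * d * e + b * c * d
      + b * c * e + b * d * e + c * d * e) * ξ + (a : ℝ) * b * c * d * e) ^ 2 -
      ξ * (ξ ^ 2 + ((a : ℝ) * b + a * c + a * d + a * e + b * c + b * d + b * e + c * d + c * e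
        + d * e) * ξ + ((a : ℝ) * b * c * d + a * b * c * e + a * b * d * e + a * c * d * e
        + b * c * d * e)) ^ 2 := by ring
    rw [gen, r1, r2, r3, r4, r5]
    ring
  obtain ⟨w, hw⟩ : ∃ w : ℝ, w ^ 2 = 801 := ⟨Real.sqrt 801, Real.sq_sqrt (by norm_num)⟩
  have hq : ∀ x : ℝ, 5 * x ^ 4 - 39 * (D : ℝ) ^ 2 * x ^ 2 + 36 * (D : ℝ) ^ 4 =
      5 * ((x ^ 2 - (39 + w) / 10 * (D : ℝ) ^ 2) * (x ^ 2 - (39 - w) / 10 * (D : ℝ) ^ 2)) := by
    intro x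
    linear_combination (D : ℝ) ^ 4 / 20 * hw
  have h1 := hR ((39 + w) / 10 * (D : ℝ) ^ 2)
  have h2 := hR ((39 - w) / 10 * (D : ℝ) ^ 2)
  have G1 : (39 + w) / 10 * (D : ℝ) ^ 2 * (((39 + w) / 10 * (D : ℝ) ^ 2) ^ 2 -
      13 * (D : ℝ) ^ 2 * ((39 + w) / 10 * (D : ℝ) ^ 2) + 36 * (D : ℝ) ^ 4) ^ 2 =
      (D : ℝ) ^ 10 * (418.05504 - 5.63904 * w) := by
    have hw3 : w ^ 3 = 801 * w := by rw [pow_succ, hw]
    have hw4 : w ^ 4 = 801 ^ 2 := by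
      have : w ^ 4 = (w ^ 2) ^ 2 := by ring
      rw [this, hw]
    have hw5 : w ^ 5 = 801 ^ 2 * w := by rw [pow_succ, hw4]
    ring_nf
    rw [hw5, hw4, hw3, hw]
    ring
  have G2 : (39 - w) / 10 * (D : ℝ) ^ 2 * (((39 - w) / 10 * (D : ℝ) ^ 2) ^ 2 -
      13 * (D : ℝ) ^ 2 * ((39 - w) / 10 * (D : ℝ) ^ 2) + 36 * (D : ℝ) ^ 4) ^ 2 =
      (D : ℝ) ^ 10 * (418.05504 + 5.63904 * w) := by
    have hw3 : w ^ 3 = 801 * w := by rw [pow_succ, hw]
    have hw4 : w ^ 4 = 801 ^ 2 := by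
      have : w ^ 4 = (w ^ 2) ^ 2 := by ring
      rw [this, hw]
    have hw5 : w ^ 5 = 801 ^ 2 * w := by rw [pow_succ, hw4]
    ring_nf
    rw [hw5, hw4, hw3, hw]
    ring
  rw [G1] at h1
  rw [G2] at h2
  have final : ((5 * (a : ℝ) ^ 4 - 39 * (D : ℝ) ^ 2 * (a : ℝ) ^ 2 + 36 * (D : ℝ) ^ 4) *
      (5 * (b : ℝ) ^ 4 - 39 * (D : ℝ) ^ 2 * (b : ℝ) ^ 2 + 36 * (D : ℝ) ^ 4)
      * (5 * (c : ℝ) ^ 4 - 39 * (D : ℝ) ^ 2 * (c : ℝ) ^ 2 + 36 * (D : ℝ) ^ 4) *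
      (5 * (d : ℝ) ^ 4 - 39 * (D : ℝ) ^ 2 * (d : ℝ) ^ 2 + 36 * (D : ℝ) ^ 4)
      * (5 * (e : ℝ) ^ 4 - 39 * (D : ℝ) ^ 2 * (e : ℝ) ^ 2 + 36 * (D : ℝ) ^ 4)) =
      3125 * (T : ℝ) ^ 4 - 2612844 * (T : ℝ) ^ 2 * (D : ℝ) ^ 10 + 466560000 * (D : ℝ) ^ 20 := by
    rw [hq a, hq b, hq c, hq d, hq e]
    generalize ((a : ℝ) ^ 2 - (39 + w) / 10 * (D : ℝ) ^ 2) = a1 at *
    generalize ((b : ℝ) ^ 2 - (39 + w) / 10 * (D : ℝ) ^ 2) = b1 at *
    generalize ((c : ℝ) ^ 2 - (39 + w) / 10 * (D : ℝ) ^ 2) = c1 at *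
    generalize ((d : ℝ) ^ 2 - (39 + w) / 10 * (D : ℝ) ^ 2) = d1 at *
    generalize ((e : ℝ) ^ 2 - (39 + w) / 10 * (D : ℝ) ^ 2) = e1 at *
    generalize ((a : ℝ) ^ 2 - (39 - w) / 10 * (D : ℝ) ^ 2) = a2 at *
    generalize ((b : ℝ) ^ 2 - (39 - w) / 10 * (D : ℝ) ^ 2) = b2 at *
    generalize ((c : ℝ) ^ 2 - (39 - w) / 10 * (D : ℝ) ^ 2) = c2 at *
    generalize ((d : ℝ) ^ 2 - (39 - w) / 10 * (D : ℝ) ^ 2) = d2 at *
    generalize ((e : ℝ) ^ 2 - (39 - w) / 10 * (D : ℝ) ^ 2) = e2 at *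
    have : 5 * (a1 * a2) * (5 * (b1 * b2)) * (5 * (c1 * c2)) * (5 * (d1 * d2)) * (5 * (e1 * e2)) =
      3125 * (a1 * b1 * c1 * d1 * e1) * (a2 * b2 * c2 * d2 * e2) := by ring
    rw [this, h1, h2]
    linear_combination (-3125 * 5.63904 ^ 2 * (D : ℝ) ^ 20) * hw
  exact_mod_cast final

end Pool.Agent.Helper1.QuinticPoly
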