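import Pool.Agent.Helper1.QuinticDescent

namespace Pool.Agent.Helper1.QuinticSecond

open Pool.Agent.Helper1.QuinticArith Pool.Agent.Helper1.QuinticDescent

lemma sq_split (b F w : ℤ) (hb : 0 < b) (hF : 0 < F) (h : b * F = w ^ 2) :
    ∃ d u v : ℤ, 0 < d ∧ 0 < u ∧ 0 < v ∧ b = d * u ^ 2 ∧ F = d * v ^ 2 ∧ IsCoprime u v ∧
      w ^ 2 = (d * u * v) ^ 2 := by
  have hd0 : 0 < (Int.gcd b F : ℤ) := by
    have : Int.gcd b F ≠ 0 := by
      intro h0; rw [Int.gcd_eq_zero_iff] at h0; omega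
    omega
  obtain ⟨b1, hb1⟩ := Int.gcd_dvd_left (a := b) (b := F)
  obtain ⟨F1, hF1⟩ := Int.gcd_dvd_right (a := b) (b := F)
  set d : ℤ := (Int.gcd b F : ℤ) with hdd
  have hcop : IsCoprime b1 F1 := by
    have e1 : d = b * Int.gcdA b F + F * Int.gcdB b F := Int.gcd_eq_gcd_ab b F
    refine ⟨Int.gcdA b F, Int.gcdB b F, ?_⟩
    apply mul_left_cancel₀ hd0.ne'
    calc d * (Int.gcdA b F * b1 + Int.gcdB b F * F1) =
        (d * b1) * Int.gcdA b F + (d * F1) * Int.gcdB b F := by ring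
      _ = d * 1 := by rw [← hb1, ← hF1, ← e1, mul_one]
  have hb10 : 0 < b1 := by
    by_contra hcon
    push Not at hcon
    nlinarith
  have hF10 : 0 < F1 := by
    by_contra hcon
    push Not at hcon
    nlinarith
  have hdw : d ∣ w := by
    have : d ^ 2 ∣ w ^ 2 := ⟨b1 * F1, by rw [← h]; nth_rw 1 [hb1]; nth_rw 1 [hF1]; ring⟩
    exact (Int.pow_dvd_pow_iff (by norm_num)).1 this
  obtain ⟨w1, hw1⟩ := hdw
  have h1 : b1 * F1 = w1 ^ 2 := by
    have hd2 : d ^ 2 ≠ 0 := pow_ne_zero 2 hd0.ne'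
    apply mul_left_cancel₀ hd2
    calc d ^ 2 * (b1 * F1) = (d * b1) * (d * F1) := by ring
      _ = w ^ 2 := by rw [← hb1, ← hF1, h]
      _ = _ := by rw [hw1]; ring
  obtain ⟨u, hu⟩ := Int.sq_of_isCoprime hcop h1
  obtain ⟨v, hv⟩ := Int.sq_of_isCoprime hcop.symm (by rw [mul_comm]; exact h1)
  have hu' : b1 = u ^ 2 := by
    rcases hu with hu | hu
    · exact hu
    · exfalso; nlinarith [sq_nonneg u]
  have hv' : F1 = v ^ 2 := by
    rcases hv with hv | hv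
    · exact hv
    · exfalso; nlinarith [sq_nonneg v]
  have hu0 : u ≠ 0 := by rintro rfl; norm_num at hu'; omega
  have hv0 : v ≠ 0 := by rintro rfl; norm_num at hv'; omega
  refine ⟨d, |u|, |v|, hd0, abs_pos.2 hu0, abs_pos.2 hv0, ?_, ?_, ?_, ?_⟩
  · rw [sq_abs, ← hu']; exact hb1
  · rw [sq_abs, ← hv']; exact hF1
  · rw [hu', hv'] at hcop
    have : IsCoprime u v := (IsCoprime.pow_iff (by norm_num) (by norm_num)).1 hcop
    exact (this.abs_abs)
  · have : (d * |u| * |v|) ^ 2 = d ^ 2 * (|u| ^ 2 * |v| ^ 2) := by ring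
    rw [this, sq_abs, sq_abs, ← hu', ← hv', h1, hw1]; ring

lemma form_odd (u v : ℤ) (h : (u + v) % 2 = 1) : (v ^ 2 + 72579 * u ^ 2) % 2 = 1 := by
  rcases Int.emod_two_eq_zero_or_one u with hu | hu <;>
  rcases Int.emod_two_eq_zero_or_one v with hv | hv <;>
  simp [Int.add_emod, Int.mul_emod, pow_two, hu, hv] at h ⊢

lemma form_four (u v : ℤ) (hu : u % 2 = 1) (hv : v % 2 = 1) : (4 : ℤ) ∣ v ^ 2 + 72579 * u ^ 2 := by
  have hu8 := sq_mod8 u hu
  have hv8 := sq_mod8 v hv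
  omega

lemma odd_sq (u : ℤ) (hu : u % 2 = 1) : u ^ 2 % 2 = 1 := by
  have hu8 := sq_mod8 u hu
  omega

lemma ms_odd (a b w : ℤ) (ha2 : a % 2 = 1) (hb16 : 16 ∣ b) (h1 : w ^ 2 = a ^ 2 - 3125 * b ^ 2) :
    w % 2 = 1 := by
  rcases Int.emod_two_eq_zero_or_one w with h0 | h0
  · exfalso
    obtain ⟨c, hc⟩ := hb16
    obtain ⟨c2, hc2⟩ := Int.dvd_of_emod_eq_zero h0
    have ha8 := odd_sq a ha2
    have : a ^ 2 = 2 * (2 * c2 ^ 2) + 2 * (3125 * 128 * c ^ 2) := by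
      rw [hc, hc2] at h1; linear_combination -h1
    omega
  · exact h0

lemma par_lemma (a b d u v : ℤ) (ha2 : a % 2 = 1) (hb16 : 16 ∣ b) (huv : IsCoprime u v)
    (hbd : b = d * u ^ 2) (hkey : 1200 * a = d * (v ^ 2 + 72579 * u ^ 2)) : (u + v) % 2 = 1 := by
  by_contra hcon
  have h0 : (u + v) % 2 = 0 := by omega
  rcases Int.emod_two_eq_zero_or_one u with hu2 | hu2
  · have hv2 : v % 2 = 0 := by omega
    have := huv.isUnit_of_dvd' (x := (2 : ℤ)) (Int.dvd_of_emod_eq_zero hu2)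
      (Int.dvd_of_emod_eq_zero hv2)
    rw [Int.isUnit_iff] at this
    omega
  · have hv2 : v % 2 = 1 := by omega
    have hd16 : (2 : ℤ) ^ 4 ∣ d := by
      apply two_dvd_mul_odd 4 d (u ^ 2) (odd_sq u hu2)
      rw [← hbd]; norm_num; exact hb16
    norm_num at hd16
    obtain ⟨d1, rfl⟩ := hd16
    have e1 : 75 * a = d1 * (v ^ 2 + 72579 * u ^ 2) := by linarith
    obtain ⟨c, hc⟩ := form_four u v hu2 hv2
    rw [hc] at e1
    have : 75 * a = 4 * (d1 * c) := by linarith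
    clear e1 hc hkey hbd hb16 hcon
    omega

/-- the number of the second step -/
lemma second_structure (a b m r s : ℤ) (hb : 0 < b) (hm : 0 < m) (hab : IsCoprime a b)
    (ha2 : a % 2 = 1) (hb16 : 16 ∣ b) (hr : r ≠ 0)
    (h1 : (m * s) ^ 2 = a ^ 2 - 3125 * b ^ 2) (h2 : (m * r) ^ 2 = b * (1200 * a - 72579 * b)) :
    ∃ e u v x y : ℤ, 0 < e ∧ 0 < u ∧ 0 < v ∧ e ∣ 75 ∧ b = 16 * e * u ^ 2 ∧ IsCoprime u v ∧
      (u + v) % 2 = 1 ∧ 75 * a = e * (v ^ 2 + 72579 * u ^ 2) ∧ x + y = a ∧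
      x * y = 200000 * e ^ 2 * u ^ 4 ∧ x % 2 = 0 ∧ 0 < x ∧ 0 < y ∧
      (m * r) ^ 2 = (16 * e * u * v) ^ 2 := by
  have hmr : (m * r) ^ 2 > 0 := by
    have : m * r ≠ 0 := mul_ne_zero hm.ne' hr
    positivity
  have hF : 0 < 1200 * a - 72579 * b := by
    by_contra hcon
    push Not at hcon
    nlinarith
  obtain ⟨d, u, v, hd, hu, hv, hbd, hFd, huv, hw⟩ := sq_split b _ (m * r) hb hF h2.symm
  have hd1200 : d ∣ 1200 := by
    have e1 : d ∣ 1200 * a := by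
      have : 1200 * a = (1200 * a - 72579 * b) + 72579 * b := by ring
      rw [this]
      exact dvd_add ⟨_, hFd⟩ (Dvd.dvd.mul_left ⟨_, hbd⟩ _)
    have e2 : IsCoprime d a := by
      have : IsCoprime b a := hab.symm
      exact this.of_isCoprime_of_dvd_left ⟨_, hbd⟩
    exact e2.dvd_of_dvd_mul_right e1
  have hkey : 1200 * a = d * (v ^ 2 + 72579 * u ^ 2) := by
    linear_combination hFd + 72579 * hbd
  -- parity
  have hpar : (u + v) % 2 = 1 := par_lemma a b d u v ha2 hb16 huv hbd hkey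
  have hd16 : (2 : ℤ) ^ 4 ∣ d := by
    apply two_dvd_mul_odd 4 d (v ^ 2 + 72579 * u ^ 2) (form_odd u v hpar)
    rw [← hkey]; exact ⟨75 * a, by ring⟩
  norm_num at hd16
  obtain ⟨e, rfl⟩ := hd16
  have he : 0 < e := by linarith
  have he75 : e ∣ 75 := by
    obtain ⟨c, hc⟩ := hd1200
    exact ⟨c, by linarith⟩
  have hkey2 : 75 * a = e * (v ^ 2 + 72579 * u ^ 2) := by linarith
  have ha : 0 < a := by
    by_contra hcon
    push Not at hcon
    have : 0 < e * (v ^ 2 + 72579 * u ^ 2) := by positivity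
    linarith
  -- the two factors
  have hms : (m * s) % 2 = 1 := ms_odd a b (m * s) ha2 hb16 h1
  obtain ⟨α, hα⟩ : (2 : ℤ) ∣ a - m * s := by omega
  obtain ⟨β, hβ⟩ : (2 : ℤ) ∣ a + m * s := by omega
  have hsum : α + β = a := by linarith
  have hprod : α * β = 200000 * e ^ 2 * u ^ 4 := by
    have : 4 * (α * β) = 4 * (200000 * e ^ 2 * u ^ 4) := by
      calc 4 * (α * β) = (2 * α) * (2 * β) := by ring
        _ = (a - m * s) * (a + m * s) := by rw [hα, hβ]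
        _ = 3125 * b ^ 2 := by linear_combination -h1
        _ = _ := by rw [hbd]; ring
    linarith
  have hprod0 : 0 < α * β := by rw [hprod]; positivity
  have hαβ : 0 < α ∧ 0 < β := by
    rcases pos_and_pos_or_neg_and_neg_of_mul_pos hprod0 with h | h
    · exact h
    · exfalso; linarith [h.1, h.2]
  rcases Int.emod_two_eq_zero_or_one α with h0 | h0
  · exact ⟨e, u, v, α, β, he, hu, hv, he75, hbd, huv, hpar, hkey2, hsum, hprod, h0, hαβ.1, hαβ.2,
      hw⟩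
  · refine ⟨e, u, v, β, α, he, hu, hv, he75, hbd, huv, hpar, hkey2, by linarith, by linarith,
      by omega, hαβ.2, hαβ.1, hw⟩

lemma three_dvd (e u v x y : ℤ) (huv : IsCoprime u v)
    (h1 : 75 * (x + y) = e * (v ^ 2 + 72579 * u ^ 2)) (h2 : x * y = 200000 * e ^ 2 * u ^ 4) :
    3 ∣ e := by
  by_contra he
  have hp3 : Prime (3 : ℤ) := Int.prime_three
  have h3 : (3 : ℤ) ∣ e * (v ^ 2 + 72579 * u ^ 2) := ⟨25 * (x + y), by linarith⟩
  have h4 : (3 : ℤ) ∣ v ^ 2 + 72579 * u ^ 2 := by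
    rcases hp3.dvd_or_dvd h3 with h | h
    · exact absurd h he
    · exact h
  have h5 : (3 : ℤ) ∣ v := by
    apply hp3.dvd_of_dvd_pow (n := 2)
    obtain ⟨c, hc⟩ := h4
    exact ⟨c - 24193 * u ^ 2, by linarith⟩
  obtain ⟨v', rfl⟩ := h5
  have hu3 : ¬ (3 : ℤ) ∣ u := by
    intro hu
    have := huv.isUnit_of_dvd' hu ⟨v', rfl⟩
    rw [Int.isUnit_iff] at this
    omega
  have h6 : 25 * (x + y) = e * (3 * v' ^ 2 + 24193 * u ^ 2) := by linarith
  have h7 : (x + y - e * u ^ 2) % 3 = 0 := by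
    have : x + y - e * u ^ 2 = 3 * (e * v' ^ 2 + 8064 * e * u ^ 2 - 8 * (x + y)) := by
      linear_combination h6
    rw [this]; exact Int.mul_emod_right 3 _
  have h8 : (x * y + e ^ 2 * u ^ 4) % 3 = 0 := by
    have : x * y + e ^ 2 * u ^ 4 = 3 * (66667 * e ^ 2 * u ^ 4) := by linear_combination h2
    rw [this]; exact Int.mul_emod_right 3 _
  have hu' : u % 3 = 1 ∨ u % 3 = 2 := by omega
  have he' : e % 3 = 1 ∨ e % 3 = 2 := by omega
  have hx' : x % 3 = 0 ∨ x % 3 = 1 ∨ x % 3 = 2 := by omega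
  have hy' : y % 3 = 0 ∨ y % 3 = 1 ∨ y % 3 = 2 := by omega
  rcases hu' with hu' | hu' <;> rcases he' with he' | he' <;>
  rcases hx' with hx' | hx' | hx' <;> rcases hy' with hy' | hy' | hy' <;>
  simp [Int.sub_emod, Int.add_emod, Int.mul_emod, pow_succ, hu', he', hx', hy'] at h7 h8

end Pool.Agent.Helper1.QuinticSecond
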