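import Pool.Agent.Helper1.QuinticFinal

namespace Pool.Agent.Helper1.QuinticStep

open Pool.Agent.Helper1.QuinticArith Pool.Agent.Helper1.QuinticDescent
open Pool.Agent.Helper1.QuinticSecond Pool.Agent.Helper1.QuinticFinal

lemma divs (y0 : ℤ) (n : ℕ) (hy : 0 < y0) (hodd : y0 % 2 = 1) (h : y0 ∣ 2 ^ 6 * 3 ^ 2 * 5 ^ n) :
    ∃ i ≤ 2, ∃ j ≤ n, y0 = 3 ^ i * 5 ^ j := by
  obtain ⟨z, rfl⟩ := Int.eq_ofNat_of_zero_le hy.le
  have h1 : z ∣ (2 ^ 6 * 3 ^ 2) * 5 ^ n := by exact_mod_cast h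
  have h2 : z ∣ 3 ^ 2 * 5 ^ n := by
    have hc : Nat.Coprime z (2 ^ 6) := by
      apply Nat.Coprime.pow_right
      rw [Nat.coprime_two_right, Nat.odd_iff]
      omega
    rw [mul_assoc] at h1
    exact hc.dvd_of_dvd_mul_left h1
  obtain ⟨a, b, ha, hb, hab⟩ := (Nat.dvd_mul).1 h2
  obtain ⟨i, hi, rfl⟩ := (Nat.dvd_prime_pow Nat.prime_three).1 ha
  obtain ⟨j, hj, rfl⟩ := (Nat.dvd_prime_pow (by norm_num : Nat.Prime 5)).1 hb
  exact ⟨i, hi, j, hj, by rw [← hab]; push_cast; ring⟩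

lemma five_pow_mod8 (j : ℕ) : (5 : ℤ) ^ j % 8 = 1 ∨ (5 : ℤ) ^ j % 8 = 5 := by
  induction j with
  | zero => left; norm_num
  | succ k ih =>
    rw [pow_succ]
    rcases ih with h | h
    · right; rw [Int.mul_emod, h]; norm_num
    · left; rw [Int.mul_emod, h]; norm_num

lemma no_common (a b : ℤ) (hab : IsCoprime a b) (p : ℤ) (hp : 1 < p) (h1 : p ∣ a) (h2 : p ∣ b) :
    False := by
  have := hab.isUnit_of_dvd' h1 h2
  rw [Int.isUnit_iff] at this
  omega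

/-- the quotient variable u must be even -/
lemma u_even (c u v x y q y0 : ℤ) (hc : c = 1 ∨ c = 5 ∨ c = 25) (hpar : (u + v) % 2 = 1)
    (h : 25 * (x + y) = c * (v ^ 2 + 72579 * u ^ 2)) (hx : 64 ∣ x) (hy : y = y0 * q ^ 4)
    (hq : q % 2 = 1) (hy0 : y0 % 8 = 1 ∨ y0 % 8 = 5) : u % 2 = 0 := by
  by_contra hcon
  have hu : u % 2 = 1 := by omega
  have hv : v % 2 = 0 := by omega
  have hu8 := sq_mod8 u hu
  have hv8 : v ^ 2 % 8 = 0 ∨ v ^ 2 % 8 = 4 := by
    have h' : v % 8 = 0 ∨ v % 8 = 2 ∨ v % 8 = 4 ∨ v % 8 = 6 := by omega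
    rcases h' with h' | h' | h' | h' <;> simp [pow_two, Int.mul_emod, h']
  have hy8 : y % 8 = 1 ∨ y % 8 = 5 := by
    have hq4 := sq4_mod8 q hq
    rw [hy, Int.mul_emod, hq4]
    rcases hy0 with h0 | h0 <;> rw [h0] <;> norm_num
  obtain ⟨x1, rfl⟩ := hx
  generalize v ^ 2 = V at *
  generalize u ^ 2 = U at *
  rcases hc with rfl | rfl | rfl <;> omega

lemma step (r s N : ℤ) (hr : r ≠ 0) (hs2 : s % 2 = 1) (h32 : 32 ∣ r) (h : Eqn r s N) :
    ∃ r' s' N' : ℤ, r' ≠ 0 ∧ s' % 2 = 1 ∧ 16 ∣ r' ∧ Eqn r' s' N' ∧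
      ∀ k : ℕ, (2 : ℤ) ^ k ∣ r' → (2 : ℤ) ^ (k + 1) ∣ r := by
  obtain ⟨d, r1, s1, N1, hrd, hsd, hcop, h1⟩ := reduce r s N hr h
  have hd2 : d % 2 = 1 := by
    rcases Int.emod_two_eq_zero_or_one d with h0 | h0
    · rw [hsd, Int.mul_emod, h0] at hs2; norm_num at hs2
    · exact h0
  have hs12 : s1 % 2 = 1 := by
    rcases Int.emod_two_eq_zero_or_one s1 with h0 | h0
    · rw [hsd, Int.mul_emod, h0] at hs2; norm_num at hs2
    · exact h0
  have hr1 : r1 ≠ 0 := by rintro rfl; exact hr (by rw [hrd]; ring)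
  have h321 : (32 : ℤ) ∣ r1 := by
    have : (2 : ℤ) ^ 5 ∣ r1 * d := by rw [mul_comm, ← hrd]; norm_num; exact h32
    have := two_dvd_mul_odd 5 r1 d hd2 this
    norm_num at this; exact this
  obtain ⟨a, b, m, hb, hm, hab, ha2, hb16, e1, e2⟩ := good_class r1 s1 N1 hcop hr1 hs12 h321 h1
  obtain ⟨e, u, v, x, y, he, hu, hv, he75, hbe, huv, hpar, h75, hxy, hprod, hx2, hx0, hy0, hmr⟩ :=
    second_structure a b m r1 s1 hb hm hab ha2 hb16 hr1 e1 e2
  have h3e : (3 : ℤ) ∣ e := three_dvd e u v x y huv (by rw [hxy]; exact h75) hprod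
  obtain ⟨c, hc⟩ := h3e
  have hc25 : c = 1 ∨ c = 5 ∨ c = 25 := by
    have hc25' : c ∣ 25 := by
      obtain ⟨w, hw⟩ := he75
      exact ⟨w, by rw [hc] at hw; linarith⟩
    have hc0 : 0 < c := by linarith
    have hcle : c ≤ 25 := Int.le_of_dvd (by norm_num) hc25'
    interval_cases c <;> omega
  have hu4 : u ^ 4 ∣ x * y := ⟨200000 * e ^ 2, by rw [hprod]; ring⟩
  have hyodd : y % 2 = 1 := by omega
  obtain ⟨p, q, x1, y1, hp, hq, hupq, hx1, hy1⟩ := split_fourth x y u hx0 hy0 hu hu4 (by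
    intro π hπ hπx hπy hπu
    apply no_common a b hab (π : ℤ) (by exact_mod_cast hπ.one_lt)
    · rw [← hxy]; exact dvd_add hπx hπy
    · rw [hbe]; exact (dvd_pow hπu (by norm_num)).mul_left _)
  have hq2 : q % 2 = 1 := by
    rcases Int.emod_two_eq_zero_or_one q with h0 | h0
    · exfalso
      obtain ⟨w, hw⟩ := Int.dvd_of_emod_eq_zero h0
      rw [hw] at hy1
      have : y = 2 * (y1 * 8 * w ^ 4) := by rw [hy1]; ring
      omega
    · exact h0
  have hy12 : y1 % 2 = 1 := by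
    rcases Int.emod_two_eq_zero_or_one y1 with h0 | h0
    · exfalso
      obtain ⟨w, hw⟩ := Int.dvd_of_emod_eq_zero h0
      rw [hw] at hy1
      have : y = 2 * (w * q ^ 4) := by rw [hy1]; ring
      omega
    · exact h0
  have hx1y1 : x1 * y1 = 1800000 * c ^ 2 := by
    have hpq4 : p ^ 4 * q ^ 4 ≠ 0 := by positivity
    apply mul_right_cancel₀ hpq4
    calc x1 * y1 * (p ^ 4 * q ^ 4) = (x1 * p ^ 4) * (y1 * q ^ 4) := by ring
      _ = x * y := by rw [← hx1, ← hy1]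
      _ = _ := by rw [hprod, hc, hupq]; ring
  have hy10 : 0 < y1 := by
    by_contra hcon
    push Not at hcon
    have : y1 * q ^ 4 ≤ 0 := mul_nonpos_of_nonpos_of_nonneg hcon (by positivity)
    linarith
  have h3b : (3 : ℤ) ∣ b := by rw [hbe, hc]; exact ⟨16 * c * u ^ 2, by ring⟩
  have key : ∃ i ≤ 2, ∃ j ≤ 9, i ≠ 1 ∧ y1 = 3 ^ i * 5 ^ j ∧ x1 * y1 = 1800000 * c ^ 2 ∧
      (c = 1 → j ≤ 5) ∧ (c = 5 → j = 0 ∨ j = 7) ∧ (c = 25 → j = 0 ∨ j = 9) := by
    have hi1 : ∀ i j : ℕ, y1 = 3 ^ i * 5 ^ j → i ≠ 1 := by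
      rintro i j hij rfl
      have h3y1 : (3 : ℤ) ∣ y1 := ⟨5 ^ j, by rw [hij]; ring⟩
      have h3x1 : (3 : ℤ) ∣ x1 := by
        rw [hij] at hx1y1
        have e3 : x1 * 5 ^ j = 3 * (200000 * c ^ 2) := by
          have : 3 * (x1 * 5 ^ j) = 3 * (3 * (200000 * c ^ 2)) := by
            calc 3 * (x1 * 5 ^ j) = x1 * (3 ^ 1 * 5 ^ j) := by ring
              _ = _ := by rw [hx1y1]; ring
          linarith
        have e4 : (3 : ℤ) ∣ x1 * 5 ^ j := ⟨_, e3⟩
        rcases Int.prime_three.dvd_or_dvd e4 with h' | h'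
        · exact h'
        · have := Int.prime_three.dvd_of_dvd_pow h'
          norm_num at this
      apply no_common a b hab 3 (by norm_num) _ h3b
      rw [← hxy, hx1, hy1]
      exact dvd_add (h3x1.mul_right _) (h3y1.mul_right _)
    have h5 : ∀ (n i j : ℕ), y1 = 3 ^ i * 5 ^ j → x1 * y1 = 2 ^ 6 * 3 ^ 2 * 5 ^ n → j ≤ n →
        (5 : ℤ) ∣ b → j = 0 ∨ j = n := by
      intro n i j hij hx hjn h5b
      by_contra hcon
      push Not at hcon
      obtain ⟨hj0, hjn'⟩ := hcon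
      have h5y1 : (5 : ℤ) ∣ y1 := by
        rw [hij]; exact (dvd_pow_self 5 hj0).mul_left _
      have h5x1 : (5 : ℤ) ∣ x1 := by
        have hp5 : Prime (5 : ℤ) := Int.prime_iff_natAbs_prime.2 (by norm_num)
        obtain ⟨t, rfl⟩ : ∃ t, n = j + (t + 1) := ⟨n - j - 1, by omega⟩
        rw [hij] at hx
        have e3 : x1 * 3 ^ i = 5 * (2 ^ 6 * 3 ^ 2 * 5 ^ t) := by
          have h5j : (5 : ℤ) ^ j ≠ 0 := by positivity
          apply mul_right_cancel₀ h5j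
          calc x1 * 3 ^ i * 5 ^ j = x1 * (3 ^ i * 5 ^ j) := by ring
            _ = _ := by rw [hx, pow_add, pow_succ]; ring
        have e4 : (5 : ℤ) ∣ x1 * 3 ^ i := ⟨_, e3⟩
        rcases hp5.dvd_or_dvd e4 with h' | h'
        · exact h'
        · have := hp5.dvd_of_dvd_pow h'
          norm_num at this
      apply no_common a b hab 5 (by norm_num) _ h5b
      rw [← hxy, hx1, hy1]
      exact dvd_add (h5x1.mul_right _) (h5y1.mul_right _)
    rcases hc25 with hc1 | hc1 | hc1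
    · obtain ⟨i, hi, j, hj, hij⟩ := divs y1 5 hy10 hy12 ⟨x1, by
        rw [mul_comm y1 x1, hx1y1, hc1]; norm_num⟩
      exact ⟨i, hi, j, by omega, hi1 i j hij, hij, hx1y1, fun _ => hj, fun h' => by omega,
        fun h' => by omega⟩
    · obtain ⟨i, hi, j, hj, hij⟩ := divs y1 7 hy10 hy12 ⟨x1, by
        rw [mul_comm y1 x1, hx1y1, hc1]; norm_num⟩
      have h5b : (5 : ℤ) ∣ b := by rw [hbe, hc, hc1]; exact ⟨48 * u ^ 2, by ring⟩
      refine ⟨i, hi, j, by omega, hi1 i j hij, hij, hx1y1, fun h' => by omega, fun _ => ?_,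
        fun h' => by omega⟩
      exact h5 7 i j hij (by rw [hx1y1, hc1]; norm_num) hj h5b
    · obtain ⟨i, hi, j, hj, hij⟩ := divs y1 9 hy10 hy12 ⟨x1, by
        rw [mul_comm y1 x1, hx1y1, hc1]; norm_num⟩
      have h5b : (5 : ℤ) ∣ b := by rw [hbe, hc, hc1]; exact ⟨240 * u ^ 2, by ring⟩
      refine ⟨i, hi, j, by omega, hi1 i j hij, hij, hx1y1, fun h' => by omega, fun h' => by omega,
        fun _ => ?_⟩
      exact h5 9 i j hij (by rw [hx1y1, hc1]; norm_num) hj h5b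
  have heq : 25 * (x + y) = c * (v ^ 2 + 72579 * u ^ 2) := by
    rw [← hxy, hc] at h75; linarith
  have hx64 : (64 : ℤ) ∣ x := by
    have e3 : (2 : ℤ) ^ 6 ∣ x1 := by
      apply two_dvd_mul_odd 6 x1 y1 hy12
      rw [hx1y1]; exact ⟨28125 * c ^ 2, by ring⟩
    norm_num at e3
    rw [hx1]; exact e3.mul_right _
  have hu2 : u % 2 = 0 := by
    apply u_even c u v x y q y1 hc25 hpar heq hx64 hy1 hq2
    obtain ⟨i, hi, j, hj, hi1, hij, -⟩ := key
    have hi' : i = 0 ∨ i = 2 := by omega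
    have h5 := five_pow_mod8 j
    rcases hi' with rfl | rfl
    · rw [hij, pow_zero, one_mul]; exact h5
    · rw [hij]
      rcases h5 with h5 | h5
      · left; rw [Int.mul_emod, h5]; norm_num
      · right; rw [Int.mul_emod, h5]; norm_num
  have hp2 : p % 2 = 0 := by
    rcases Int.emod_two_eq_zero_or_one p with h0 | h0
    · exact h0
    · exfalso
      rw [hupq, Int.mul_emod, h0, hq2] at hu2
      norm_num at hu2
  obtain ⟨K, hK0, ⟨c', hKc, hc'⟩, hnew⟩ := finish c p q v x1 y1 hc25 hp2 hp hq2 hq key (by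
    rw [← hx1, ← hy1, ← hupq]; exact heq)
  refine ⟨K * p, 25 * q, 25 * v * K, by positivity, by omega, ?_, hnew, ?_⟩
  · obtain ⟨w, hw⟩ := Int.dvd_of_emod_eq_zero hp2
    exact ⟨c' * w, by rw [hKc, hw]; ring⟩
  · intro k hk
    have hm2 : m % 2 = 1 := by
      have := ms_odd a b (m * s1) ha2 hb16 e1
      rcases Int.emod_two_eq_zero_or_one m with h0 | h0
      · rw [Int.mul_emod, h0] at this; norm_num at this
      · exact h0
    have f1 : (2 : ℤ) ^ k ∣ 8 * p := by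
      apply two_dvd_mul_odd k (8 * p) c' hc'
      have : 8 * p * c' = K * p := by rw [hKc]; ring
      rw [this]; exact hk
    have f2 : (2 : ℤ) ^ (k + 1) ∣ 16 * e * u * v := by
      obtain ⟨w, hw⟩ := f1
      exact ⟨w * e * q * v, by rw [hupq, pow_succ]; linear_combination 2 * e * q * v * hw⟩
    have f3 : (2 : ℤ) ^ (k + 1) ∣ m * r1 := by
      have : ((2 : ℤ) ^ (k + 1)) ^ 2 ∣ (m * r1) ^ 2 := by
        rw [hmr]; exact pow_dvd_pow_of_dvd f2 2
      exact (Int.pow_dvd_pow_iff (by norm_num)).1 this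
    have f4 : (2 : ℤ) ^ (k + 1) ∣ r1 := by
      apply two_dvd_mul_odd (k + 1) r1 m hm2
      rw [mul_comm]; exact f3
    rw [hrd]; exact f4.mul_left _

/-- There is no solution near the origin. -/
lemma no_solution (r s N : ℤ) (hr : r ≠ 0) (hs2 : s % 2 = 1) (h8 : 8 ∣ r) (h : Eqn r s N) :
    False := by
  have key : ∀ k : ℕ, ∀ r s N : ℤ, r ≠ 0 → s % 2 = 1 → 8 ∣ r → Eqn r s N → (2 : ℤ) ^ k ∣ r := by
    intro k
    induction k with
    | zero => intro r s N _ _ _ _; simp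
    | succ k ih =>
      intro r s N hr hs h8 h
      obtain ⟨r', s', N', hr', hs', h16, h', hk⟩ := step r s N hr hs (base32 r s N hs h8 h) h
      exact hk k (ih r' s' N' hr' hs' ((by norm_num : (8 : ℤ) ∣ 16).trans h16) h')
  have hbig := key r.natAbs r s N hr hs2 h8 h
  have h1 : (2 : ℕ) ^ r.natAbs ∣ r.natAbs := by
    have := Int.natAbs_dvd_natAbs.2 hbig
    rw [Int.natAbs_pow] at this
    exact this
  have h2 := Nat.le_of_dvd (Int.natAbs_pos.2 hr) h1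
  have h3 := Nat.lt_two_pow_self (n := r.natAbs)
  omega

end Pool.Agent.Helper1.QuinticStep
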