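import Mathlib

namespace Pool.Agent.Helper1.RoughGeom

open MeasureTheory Metric Set Filter Topology
open scoped ENNReal NNReal Pointwise

/-- the slanted slab region at scale R over the slope set G -/
def Reg (n : ℕ) (R : ℝ) (G : Set ℝ) : Set (EuclideanSpace ℝ (Fin (n + 2))) :=
  {y | R ≤ -y 0 ∧ -y 0 < 51 / 50 * R ∧ (∀ i, i ≠ 0 → i ≠ 1 → |y i| ≤ -y 0) ∧ y 1 / y 0 ∈ G}

lemma measurable_coord (n : ℕ) (i : Fin (n + 2)) :
    Measurable (fun y : EuclideanSpace ℝ (Fin (n + 2)) => y i) :=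
  (EuclideanSpace.proj (𝕜 := ℝ) i).continuous.measurable

lemma continuous_coord (n : ℕ) (i : Fin (n + 2)) :
    Continuous (fun y : EuclideanSpace ℝ (Fin (n + 2)) => y i) :=
  (EuclideanSpace.proj (𝕜 := ℝ) i).continuous

lemma measurable_slope (n : ℕ) :
    Measurable (fun y : EuclideanSpace ℝ (Fin (n + 2)) => y 1 / y 0) :=
  (measurable_coord n 1).div (measurable_coord n 0)

lemma measurableSet_Reg (n : ℕ) (R : ℝ) (G : Set ℝ) (hG : MeasurableSet G) :
    MeasurableSet (Reg n R G) := by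
  unfold Reg
  have h1 : MeasurableSet {y : EuclideanSpace ℝ (Fin (n + 2)) | R ≤ -y 0} :=
    measurableSet_le measurable_const (measurable_coord n 0).neg
  have h2 : MeasurableSet {y : EuclideanSpace ℝ (Fin (n + 2)) | -y 0 < 51 / 50 * R} :=
    measurableSet_lt (measurable_coord n 0).neg measurable_const
  have h3 : MeasurableSet {y : EuclideanSpace ℝ (Fin (n + 2)) |
      (∀ i, i ≠ 0 → i ≠ 1 → |y i| ≤ -y 0)} := by
    have : {y : EuclideanSpace ℝ (Fin (n + 2)) | (∀ i, i ≠ 0 → i ≠ 1 → |y i| ≤ -y 0)} =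
        ⋂ i, ⋂ (_ : i ≠ 0), ⋂ (_ : i ≠ 1), {y | |y i| ≤ -y 0} := by
      ext y; simp
    rw [this]
    refine MeasurableSet.iInter (fun i => MeasurableSet.iInter (fun _ =>
      MeasurableSet.iInter (fun _ => ?_)))
    exact measurableSet_le ((measurable_coord n i).abs) (measurable_coord n 0).neg
  have h4 : MeasurableSet {y : EuclideanSpace ℝ (Fin (n + 2)) | y 1 / y 0 ∈ G} :=
    measurable_slope n hG
  exact h1.inter (h2.inter (h3.inter h4))

/-- the measure of slopes -/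
noncomputable def nu (n : ℕ) : Measure ℝ :=
  (volume.restrict (Reg n 1 univ)).map (fun y => y 1 / y 0)

lemma nu_apply (n : ℕ) (G : Set ℝ) (hG : MeasurableSet G) :
    nu n G = volume (Reg n 1 G) := by
  rw [nu, Measure.map_apply (measurable_slope n) hG,
    Measure.restrict_apply (measurable_slope n hG)]
  congr 1
  ext y
  simp only [Reg, mem_inter_iff, mem_preimage, mem_univ, and_true, Set.mem_ofPred_eq]
  tauto

/-- the shear -/
noncomputable def shear (n : ℕ) (c : ℝ) :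
    EuclideanSpace ℝ (Fin (n + 2)) →ₗ[ℝ] EuclideanSpace ℝ (Fin (n + 2)) :=
  LinearMap.transvection ((EuclideanSpace.proj (𝕜 := ℝ) (0 : Fin (n + 2))).toLinearMap)
    (c • EuclideanSpace.single (1 : Fin (n + 2)) (1 : ℝ))

lemma shear_det (n : ℕ) (c : ℝ) : (shear n c).det = 1 := by
  rw [shear, LinearMap.transvection.det]
  simp

lemma shear_apply (n : ℕ) (c : ℝ) (y : EuclideanSpace ℝ (Fin (n + 2))) (i : Fin (n + 2)) :
    shear n c y i = y i + (if i = 1 then c * y 0 else 0) := by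
  rw [shear, LinearMap.transvection.apply]
  by_cases h : i = 1
  · subst h; simp [mul_comm]
  · simp [h]

lemma nu_inv (n : ℕ) (c : ℝ) : (nu n).map (fun u => c + u) = nu n := by
  ext G hG
  rw [Measure.map_apply (measurable_const_add c) hG, nu_apply _ _ hG,
    nu_apply _ _ (measurable_const_add c hG)]
  have h := Measure.addHaar_preimage_linearMap (volume : Measure (EuclideanSpace ℝ (Fin (n + 2))))
    (f := shear n c) (by rw [shear_det]; norm_num) (Reg n 1 G)
  rw [shear_det] at h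
  simp only [inv_one, abs_one, ENNReal.ofReal_one, one_mul] at h
  rw [← h]
  congr 1
  ext y
  simp only [Reg, mem_preimage, Set.mem_ofPred_eq]
  have h0 : shear n c y 0 = y 0 := by rw [shear_apply]; simp
  have h1 : shear n c y 1 = y 1 + c * y 0 := by rw [shear_apply]; simp
  have hi : ∀ i, i ≠ 1 → shear n c y i = y i := by
    intro i hi; rw [shear_apply]; simp [hi]
  constructor
  · rintro ⟨a, b, d, e⟩
    refine ⟨by rw [h0]; exact a, by rw [h0]; exact b, ?_, ?_⟩
    · intro i hi0 hi1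
      rw [hi i hi1, h0]; exact d i hi0 hi1
    · rw [h0, h1]
      have hy0 : y 0 ≠ 0 := by intro h; rw [h] at a; norm_num at a
      have : (y 1 + c * y 0) / y 0 = c + y 1 / y 0 := by field_simp; ring
      rw [this]; exact e
  · rintro ⟨a, b, d, e⟩
    rw [h0] at a b
    refine ⟨a, b, ?_, ?_⟩
    · intro i hi0 hi1
      have := d i hi0 hi1
      rw [hi i hi1, h0] at this; exact this
    · rw [h0, h1] at e
      have hy0 : y 0 ≠ 0 := by intro h; rw [h] at a; norm_num at a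
      have : (y 1 + c * y 0) / y 0 = c + y 1 / y 0 := by field_simp; ring
      rw [this] at e; exact e

lemma norm_le_of_coord (n : ℕ) (y : EuclideanSpace ℝ (Fin (n + 2))) (M : ℝ) 
    (h : ∀ i, |y i| ≤ M) : ‖y‖ ≤ (n + 2) * M := by
  have hM : 0 ≤ M := (abs_nonneg _).trans (h 0)
  rw [EuclideanSpace.norm_eq]
  apply Real.sqrt_le_iff.2
  refine ⟨by positivity, ?_⟩
  calc ∑ i, ‖y i‖ ^ 2 ≤ ∑ i : Fin (n + 2), M ^ 2 := by
        apply Finset.sum_le_sum
        intro i _
        rw [Real.norm_eq_abs]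
        exact pow_le_pow_left₀ (abs_nonneg _) (h i) 2
    _ = (n + 2) * M ^ 2 := by simp
    _ ≤ ((n + 2) * M) ^ 2 := by
        have : (1 : ℝ) ≤ n + 2 := by
          have : (0 : ℝ) ≤ n := Nat.cast_nonneg n
          linarith
        nlinarith [sq_nonneg M, mul_nonneg (sub_nonneg.2 this) (sq_nonneg M)]

instance nu_inv' (n : ℕ) : (nu n).IsAddLeftInvariant := ⟨fun c => nu_inv n c⟩

lemma Reg_finite (n : ℕ) (M : ℝ) (hM : 1 ≤ M) : volume (Reg n 1 (Icc (-M) M)) < ⊤ := by
  apply lt_of_le_of_lt (b := volume (closedBall (0 : EuclideanSpace ℝ (Fin (n + 2)))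
    ((n + 2) * (2 * M))))
  · apply measure_mono
    rintro y ⟨a, b, c, d⟩
    rw [mem_closedBall_zero_iff]
    apply norm_le_of_coord
    intro i
    have hy0 : y 0 < 0 := by linarith
    by_cases hi0 : i = 0
    · rw [hi0, abs_of_neg hy0]; linarith
    · by_cases hi1 : i = 1
      · rw [hi1]
        have : |y 1| = |y 1 / y 0| * |y 0| := by
          rw [← abs_mul, div_mul_cancel₀ _ hy0.ne]
        rw [this, abs_of_neg hy0]
        have h1 : |y 1 / y 0| ≤ M := abs_le.2 ⟨d.1, d.2⟩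
        nlinarith [abs_nonneg (y 1 / y 0)]
      · have := c i hi0 hi1
        linarith
  · exact isCompact_closedBall _ _ |>.measure_lt_top

instance nu_fin (n : ℕ) : IsFiniteMeasureOnCompacts (nu n) := by
  refine ⟨fun K hK => ?_⟩
  obtain ⟨M, hM⟩ := hK.isBounded.subset_closedBall 0
  have hsub : K ⊆ Icc (-(max M 1)) (max M 1) := by
    intro x hx
    have := hM hx
    rw [mem_closedBall_zero_iff, Real.norm_eq_abs] at this
    exact abs_le.1 (this.trans (le_max_left _ _))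
  apply lt_of_le_of_lt (measure_mono hsub)
  rw [nu_apply _ _ measurableSet_Icc]
  exact Reg_finite n _ (le_max_right _ _)

lemma nu_pos (n : ℕ) : 0 < nu n (Ioo 0 1) := by
  rw [nu_apply _ _ measurableSet_Ioo]
  have hopen : IsOpen {y : EuclideanSpace ℝ (Fin (n + 2)) | 1 < -y 0 ∧ -y 0 < 51 / 50 ∧
      (∀ i, i ≠ 0 → i ≠ 1 → |y i| < 1) ∧ y 1 < 0 ∧ y 0 < y 1} := by
    have h3 : {y : EuclideanSpace ℝ (Fin (n + 2)) | (∀ i, i ≠ 0 → i ≠ 1 → |y i| < 1)} =
        ⋂ i : {i : Fin (n + 2) // i ≠ 0 ∧ i ≠ 1}, {y | |y i| < 1} := by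
      ext y; simp
    have h4 : IsOpen {y : EuclideanSpace ℝ (Fin (n + 2)) | (∀ i, i ≠ 0 → i ≠ 1 → |y i| < 1)} := by
      rw [h3]
      exact isOpen_iInter_of_finite
        (fun i => isOpen_lt (continuous_coord n i).abs continuous_const)
    exact (isOpen_lt continuous_const (continuous_coord n 0).neg).inter
      ((isOpen_lt (continuous_coord n 0).neg continuous_const).inter
      (IsOpen.inter h4 ((isOpen_lt (continuous_coord n 1) continuous_const).inter
        (isOpen_lt (continuous_coord n 0) (continuous_coord n 1)))))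
  have hne : ({y : EuclideanSpace ℝ (Fin (n + 2)) | 1 < -y 0 ∧ -y 0 < 51 / 50 ∧
      (∀ i, i ≠ 0 → i ≠ 1 → |y i| < 1) ∧ y 1 < 0 ∧ y 0 < y 1}).Nonempty := by
    refine ⟨WithLp.toLp 2 (fun i => if i = 0 then -(101/100) else if i = 1 then -(1/2) else 0), ?_⟩
    simp only [Set.mem_ofPred_eq]
    refine ⟨by simp; norm_num, by simp; norm_num, ?_, by simp, by simp; norm_num⟩
    intro i hi0 hi1
    simp [hi0, hi1]
  refine lt_of_lt_of_le (hopen.measure_pos volume hne) (measure_mono ?_)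
  rintro y ⟨a, b, c, d, e⟩
  refine ⟨by linarith, by linarith, fun i h0 h1 => by have := c i h0 h1; linarith, ?_, ?_⟩
  · exact div_pos_of_neg_of_neg d (by linarith)
  · rw [div_lt_one_of_neg (by linarith)]; exact e

lemma exists_kappa (n : ℕ) : ∃ κ : ℝ≥0, 0 < κ ∧ ∀ G : Set ℝ, MeasurableSet G →
    volume (Reg n 1 G) = κ * volume G := by
  have h := Measure.isAddLeftInvariant_eq_smul (nu n) (volume : Measure ℝ)
  refine ⟨Measure.addHaarScalarFactor (nu n) volume, ?_, ?_⟩
  · rw [pos_iff_ne_zero]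
    intro h0
    rw [h0, zero_smul] at h
    have := nu_pos n
    rw [h] at this
    simp at this
  · intro G hG
    rw [← nu_apply n G hG]
    conv_lhs => rw [h]
    rfl

lemma Reg_scale (n : ℕ) (R : ℝ) (hR : 0 < R) (G : Set ℝ) :
    Reg n R G = R • Reg n 1 G := by
  ext y
  rw [Set.mem_smul_set_iff_inv_smul_mem₀ hR.ne']
  simp only [Reg, Set.mem_ofPred_eq, PiLp.smul_apply, smul_eq_mul, mul_one]
  have h1 : R⁻¹ * y 1 / (R⁻¹ * y 0) = y 1 / y 0 := by
    rw [mul_div_mul_left _ _ (inv_ne_zero hR.ne')]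
  rw [h1]
  have e1 : (R ≤ -y 0) ↔ (1 ≤ -(R⁻¹ * y 0)) := by
    rw [← mul_neg, inv_mul_eq_div, le_div_iff₀ hR, one_mul]
  have e2 : (-y 0 < 51 / 50 * R) ↔ (-(R⁻¹ * y 0) < 51 / 50) := by
    rw [← mul_neg, inv_mul_eq_div, div_lt_iff₀ hR]
  have e3 : ∀ i, (|y i| ≤ -y 0) ↔ (|R⁻¹ * y i| ≤ -(R⁻¹ * y 0)) := by
    intro i
    rw [abs_mul, abs_of_pos (inv_pos.2 hR), ← mul_neg]
    exact (mul_le_mul_iff_right₀ (inv_pos.2 hR)).symm
  rw [e1, e2]
  simp only [← e3]

lemma Reg_volume (n : ℕ) (κ : ℝ≥0) (h : ∀ G : Set ℝ, MeasurableSet G →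
    volume (Reg n 1 G) = κ * volume G) (R : ℝ) (hR : 0 < R) (G : Set ℝ) (hG : MeasurableSet G) :
    volume (Reg n R G) = ENNReal.ofReal (R ^ (n + 2)) * (κ * volume G) := by
  rw [Reg_scale n R hR, Measure.addHaar_smul_of_nonneg _ hR.le, h G hG]
  simp

end Pool.Agent.Helper1.RoughGeom
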