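import Pool.Agent.Helper1.RoughGeom

namespace Pool.Agent.Helper1.RoughWave

open MeasureTheory Metric Set Filter Topology
open scoped ENNReal NNReal
open Pool.Agent.Helper1.RoughGeom

/-- square wave of half period one -/
noncomputable def sq (v : ℝ) : ℝ := if Even ⌊v⌋ then 1 else -1

lemma sq_abs (v : ℝ) : |sq v| = 1 := by
  unfold sq; split_ifs <;> simp

lemma sq_mul_self (v : ℝ) : sq v * sq v = 1 := by
  unfold sq; split_ifs <;> simp

lemma measurable_sq : Measurable sq := by
  unfold sq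
  refine Measurable.ite ?_ measurable_const measurable_const
  have : {v : ℝ | Even ⌊v⌋} = Int.floor ⁻¹' {k : ℤ | Even k} := rfl
  rw [this]
  exact Int.measurable_floor (MeasurableSet.of_discrete)

lemma floor_same (v v' : ℝ) (h1 : 1 / 10 ≤ Int.fract v) (h2 : Int.fract v ≤ 9 / 10)
    (h3 : |v' - v| ≤ 6 / 100) : sq v' = sq v := by
  have : ⌊v'⌋ = ⌊v⌋ := by
    rw [Int.floor_eq_iff]
    have := Int.floor_add_fract v
    obtain ⟨h4, h5⟩ := abs_le.1 h3
    constructor <;> linarith
  unfold sq; rw [this]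

lemma floor_flip (v v' : ℝ) (h1 : 1 / 10 ≤ Int.fract v) (h2 : Int.fract v ≤ 9 / 10)
    (h3 : 94 / 100 ≤ v' - v) (h4 : v' - v ≤ 106 / 100) : sq v' = -sq v := by
  have : ⌊v'⌋ = ⌊v⌋ + 1 := by
    rw [Int.floor_eq_iff]
    have := Int.floor_add_fract v
    push_cast
    constructor <;> linarith
  unfold sq; rw [this]
  by_cases h : Even ⌊v⌋
  · have h' : ¬ Even (⌊v⌋ + 1) := by rw [Int.even_add_one]; simpa using h
    simp [h, h']
  · have h' : Even (⌊v⌋ + 1) := by rw [Int.even_add_one]; simpa using h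
    simp [h, h']

/-- the scales -/
noncomputable def RR (j : ℕ) : ℝ := 100 * 4 ^ j

lemma RR_pos (j : ℕ) : 0 < RR j := by unfold RR; positivity

lemma RR_ge (j : ℕ) : 100 ≤ RR j := by
  unfold RR
  have : (1 : ℝ) ≤ 4 ^ j := one_le_pow₀ (by norm_num)
  linarith

lemma RR_big (j : ℕ) : 50 * ((j + 1) * (j + 2) : ℝ) ≤ RR j := by
  unfold RR
  induction j with
  | zero => norm_num
  | succ k ih =>
    rw [pow_succ]
    push_cast
    have hk : (0 : ℝ) ≤ k := Nat.cast_nonneg k
    nlinarith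

lemma RR_mono (j k : ℕ) (h : j < k) : 4 * RR j ≤ RR k := by
  unfold RR
  obtain ⟨m, rfl⟩ := Nat.exists_eq_add_of_lt h
  have : (4 : ℝ) ^ (j + m + 1) = 4 ^ j * 4 ^ m * 4 := by rw [pow_succ, pow_add]
  rw [this]
  have h1 : (1 : ℝ) ≤ 4 ^ m := one_le_pow₀ (by norm_num)
  have h2 : (0 : ℝ) < 4 ^ j := by positivity
  nlinarith

noncomputable def jdx (u : ℝ) : ℕ := ⌊1 / u⌋₊ - 1

lemma jdx_eq (j : ℕ) (u : ℝ) (h1 : 1 / ((j : ℝ) + 2) < u) (h2 : u < 1 / ((j : ℝ) + 1)) :
    jdx u = j := by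
  have hj : (0 : ℝ) ≤ j := Nat.cast_nonneg j
  have hu : 0 < u := lt_trans (by positivity) h1
  have h3 : ⌊1 / u⌋₊ = j + 1 := by
    rw [Nat.floor_eq_iff (by positivity)]
    constructor
    · rw [le_div_iff₀ hu]
      rw [lt_div_iff₀ (by positivity)] at h2
      push_cast
      nlinarith
    · rw [div_lt_iff₀ hu]
      rw [div_lt_iff₀ (by positivity)] at h1
      push_cast
      nlinarith
  unfold jdx; rw [h3]; rfl

noncomputable def om (φ : ℕ → ℝ) (u : ℝ) : ℝ := sq (2 * RR (jdx u) * u + φ (jdx u))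

lemma om_abs (φ : ℕ → ℝ) (u : ℝ) : |om φ u| = 1 := sq_abs _

lemma om_mul_self (φ : ℕ → ℝ) (u : ℝ) : om φ u * om φ u = 1 := sq_mul_self _

lemma measurable_om (φ : ℕ → ℝ) : Measurable (om φ) := by
  unfold om
  apply measurable_sq.comp
  have hj : Measurable jdx := by
    unfold jdx
    exact (measurable_from_top (f := fun k : ℕ => k - 1)).comp
      (Nat.measurable_floor.comp (measurable_const.div measurable_id))
  have h1 : Measurable (fun u => RR (jdx u)) := (measurable_from_top (f := RR)).comp hj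
  have h2 : Measurable (fun u => φ (jdx u)) := (measurable_from_top (f := φ)).comp hj
  exact ((measurable_const.mul h1).mul measurable_id).add h2

/-- the good slopes -/
def GG (φ : ℕ → ℝ) (j : ℕ) : Set ℝ :=
  {u | 1 / ((j : ℝ) + 2) + 1 / RR j < u ∧ u < 1 / ((j : ℝ) + 1) - 1 / RR j ∧
    1 / 10 ≤ Int.fract (2 * RR j * u + φ j) ∧ Int.fract (2 * RR j * u + φ j) ≤ 9 / 10}

lemma measurableSet_GG (φ : ℕ → ℝ) (j : ℕ) : MeasurableSet (GG φ j) := by
  have hm : Measurable (fun u : ℝ => Int.fract (2 * RR j * u + φ j)) :=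
    measurable_fract.comp ((measurable_const.mul measurable_id).add measurable_const)
  exact (measurableSet_lt measurable_const measurable_id).inter
    ((measurableSet_lt measurable_id measurable_const).inter
      ((measurableSet_le measurable_const hm).inter (measurableSet_le hm measurable_const)))

lemma om_near (φ : ℕ → ℝ) (j : ℕ) (u q : ℝ) (hu : u ∈ GG φ j) (hq : |q - u| ≤ 3 / 100 / RR j) :
    om φ q = om φ u := by
  obtain ⟨h1, h2, h3, h4⟩ := hu
  have hR := RR_pos j
  have hd : 3 / 100 / RR j < 1 / RR j := div_lt_div_of_pos_right (by norm_num) hR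
  have hR' : 0 < 1 / RR j := by positivity
  obtain ⟨h5, h6⟩ := abs_le.1 hq
  have e1 : jdx q = j := jdx_eq j q (by linarith) (by linarith)
  have e2 : jdx u = j := jdx_eq j u (by linarith) (by linarith)
  unfold om
  rw [e1, e2]
  apply floor_same _ _ h3 h4
  have : 2 * RR j * q + φ j - (2 * RR j * u + φ j) = 2 * RR j * (q - u) := by ring
  rw [this, abs_mul, abs_of_pos (by positivity)]
  calc 2 * RR j * |q - u| ≤ 2 * RR j * (3 / 100 / RR j) := by gcongr
    _ = 6 / 100 := by field_simp; norm_num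

lemma om_far (φ : ℕ → ℝ) (j : ℕ) (u q : ℝ) (hu : u ∈ GG φ j) (hq1 : 47 / 100 / RR j ≤ q - u)
    (hq2 : q - u ≤ 53 / 100 / RR j) : om φ q = -om φ u := by
  obtain ⟨h1, h2, h3, h4⟩ := hu
  have hR := RR_pos j
  have hd : 53 / 100 / RR j < 1 / RR j := div_lt_div_of_pos_right (by norm_num) hR
  have hR' : 0 < 1 / RR j := by positivity
  have hR'' : 0 < 47 / 100 / RR j := by positivity
  have e1 : jdx q = j := jdx_eq j q (by linarith) (by linarith)
  have e2 : jdx u = j := jdx_eq j u (by linarith) (by linarith)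
  unfold om
  rw [e1, e2]
  have : 2 * RR j * q + φ j - (2 * RR j * u + φ j) = 2 * RR j * (q - u) := by ring
  apply floor_flip _ _ h3 h4
  · rw [this]
    calc (94 / 100 : ℝ) = 2 * RR j * (47 / 100 / RR j) := by field_simp; norm_num
      _ ≤ 2 * RR j * (q - u) := by gcongr
  · rw [this]
    calc 2 * RR j * (q - u) ≤ 2 * RR j * (53 / 100 / RR j) := by gcongr
      _ = 106 / 100 := by field_simp; norm_num

lemma exists_phase : ∃ φ : ℕ → ℝ, ∀ j : ℕ,
    ENNReal.ofReal (1 / (4 * (((j : ℝ) + 1) * ((j : ℝ) + 2)))) ≤ volume (GG φ j) := by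
  have key : ∀ j : ℕ, ∃ p : ℝ,
      ENNReal.ofReal (1 / (4 * (((j : ℝ) + 1) * ((j : ℝ) + 2)))) ≤ volume (GG (fun _ => p) j) := by
    intro j
    by_contra hcon
    push Not at hcon
    have h0 := hcon 0
    have h1 := hcon (1 / 2)
    have hsub : Ioo (1 / ((j : ℝ) + 2) + 1 / RR j) (1 / ((j : ℝ) + 1) - 1 / RR j) ⊆
        GG (fun _ => 0) j ∪ GG (fun _ => 1 / 2) j := by
      rintro u ⟨hu1, hu2⟩
      by_cases hf : 1 / 10 ≤ Int.fract (2 * RR j * u + 0) ∧ Int.fract (2 * RR j * u + 0) ≤ 9 / 10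
      · exact Or.inl ⟨hu1, hu2, hf⟩
      · right
        refine ⟨hu1, hu2, ?_⟩
        simp only [add_zero] at hf
        set v := 2 * RR j * u with hv
        have hv0 := Int.fract_nonneg v
        have hv1 := Int.fract_lt_one v
        have hfl := Int.floor_add_fract v
        by_cases ha : 1 / 10 ≤ Int.fract v
        · have hb : 9 / 10 < Int.fract v := by
            by_contra hb
            exact hf ⟨ha, not_lt.1 hb⟩
          have hfl2 : ⌊v + 1 / 2⌋ = ⌊v⌋ + 1 := by
            rw [Int.floor_eq_iff]; push_cast; constructor <;> linarith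
          have : Int.fract (v + 1 / 2) = v + 1 / 2 - (⌊v⌋ + 1) := by
            rw [Int.fract, hfl2]; push_cast; ring
          rw [this]; constructor <;> linarith
        · push Not at ha
          have hfl2 : ⌊v + 1 / 2⌋ = ⌊v⌋ := by
            rw [Int.floor_eq_iff]; constructor <;> linarith
          have : Int.fract (v + 1 / 2) = v + 1 / 2 - ⌊v⌋ := by
            rw [Int.fract, hfl2]
          rw [this]; constructor <;> linarith
    have h2 : volume (Ioo (1 / ((j : ℝ) + 2) + 1 / RR j) (1 / ((j : ℝ) + 1) - 1 / RR j)) <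
        ENNReal.ofReal (1 / (4 * (((j : ℝ) + 1) * ((j : ℝ) + 2)))) +
        ENNReal.ofReal (1 / (4 * (((j : ℝ) + 1) * ((j : ℝ) + 2)))) :=
      lt_of_le_of_lt (measure_mono hsub) (lt_of_le_of_lt (measure_union_le _ _)
        (ENNReal.add_lt_add h0 h1))
    have hj : (0 : ℝ) ≤ j := Nat.cast_nonneg j
    rw [Real.volume_Ioo, ← ENNReal.ofReal_add (by positivity) (by positivity)] at h2
    rw [ENNReal.ofReal_lt_ofReal_iff (by positivity)] at h2
    have hbig := RR_big j
    have hP : (0 : ℝ) < (j + 1) * (j + 2) := by positivity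
    have h3 : 1 / RR j ≤ 1 / (50 * ((j + 1) * (j + 2) : ℝ)) :=
      one_div_le_one_div_of_le (by positivity) hbig
    have h4 : (1 : ℝ) / (j + 1) - 1 / (j + 2) = 1 / ((j + 1) * (j + 2)) := by
      field_simp; ring
    have h5 : 1 / (50 * ((j + 1) * (j + 2) : ℝ)) = (1 / 50) * (1 / ((j + 1) * (j + 2))) := by
      field_simp
    have h6 : 1 / (4 * (((j : ℝ) + 1) * ((j : ℝ) + 2))) = (1 / 4) * (1 / ((j + 1) * (j + 2))) := by
      field_simp
    have h7 : (0 : ℝ) < 1 / ((j + 1) * (j + 2)) := by positivity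
    rw [h5] at h3
    rw [h6] at h2
    linarith
  choose φ hφ using key
  refine ⟨φ, fun j => ?_⟩
  exact hφ j

lemma GG_volume_le (φ : ℕ → ℝ) (j : ℕ) : volume (GG φ j) ≤ 1 := by
  have hsub : GG φ j ⊆ Ioo 0 1 := by
    rintro u ⟨h1, h2, -, -⟩
    have hj : (0 : ℝ) ≤ j := Nat.cast_nonneg j
    have hR := RR_pos j
    have a : 0 < 1 / RR j := by positivity
    have b : 0 < 1 / ((j : ℝ) + 2) := by positivity
    have c : 1 / ((j : ℝ) + 1) ≤ 1 := by
      rw [div_le_one (by positivity)]; linarith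
    constructor <;> linarith
  calc volume (GG φ j) ≤ volume (Ioo (0 : ℝ) 1) := measure_mono hsub
    _ = 1 := by simp

lemma GG_Ioo (φ : ℕ → ℝ) (j : ℕ) (u : ℝ) (hu : u ∈ GG φ j) : 0 < u ∧ u < 1 := by
  obtain ⟨h1, h2, -, -⟩ := hu
  have hj : (0 : ℝ) ≤ j := Nat.cast_nonneg j
  have hR := RR_pos j
  have a : 0 < 1 / RR j := by positivity
  have b : 0 < 1 / ((j : ℝ) + 2) := by positivity
  have c : 1 / ((j : ℝ) + 1) ≤ 1 := by
    rw [div_le_one (by positivity)]; linarith
  constructor <;> linarith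

lemma sum_RR_pow (d : ℕ) (hd : 1 ≤ d) (X : ℝ) (hX : 0 ≤ X) (F : Finset ℕ)
    (hF : ∀ j ∈ F, RR j < X) : ∑ j ∈ F, RR j ^ d ≤ 2 * X ^ d := by
  have key : ∀ m : ℕ, ∑ j ∈ Finset.range (m + 1), RR j ^ d ≤ 2 * RR m ^ d := by
    intro m
    induction m with
    | zero =>
      rw [Finset.sum_range_one]
      have := pow_pos (RR_pos 0) d
      linarith
    | succ k ih =>
      rw [Finset.sum_range_succ]
      have h1 : RR (k + 1) = 4 * RR k := by unfold RR; rw [pow_succ]; ring
      have h2 : 4 * RR k ^ d ≤ RR (k + 1) ^ d := by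
        rw [h1, mul_pow]
        have : (4 : ℝ) ≤ 4 ^ d := le_self_pow₀ (by norm_num) (by omega)
        have := pow_pos (RR_pos k) d
        gcongr
      have := pow_pos (RR_pos k) d
      linarith
  rcases F.eq_empty_or_nonempty with rfl | hne
  · rw [Finset.sum_empty]
    positivity
  · have hmax := F.max'_mem hne
    have hsub : F ⊆ Finset.range (F.max' hne + 1) := by
      intro j hj
      rw [Finset.mem_range]
      exact Nat.lt_succ_of_le (F.le_max' j hj)
    calc ∑ j ∈ F, RR j ^ d ≤ ∑ j ∈ Finset.range (F.max' hne + 1), RR j ^ d :=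
          Finset.sum_le_sum_of_subset_of_nonneg hsub (fun i _ _ => (pow_pos (RR_pos i) d).le)
      _ ≤ 2 * RR (F.max' hne) ^ d := key _
      _ ≤ 2 * X ^ d := by
        have := (hF _ hmax).le
        have := RR_pos (F.max' hne)
        gcongr

end Pool.Agent.Helper1.RoughWave
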