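import Mathlib

namespace Pool.Agent.Helper1.UniqA

open Finset

variable {α : Type*} [DecidableEq α]

/-- the number of points of `H` sent into `H` -/
def inner (σ : Equiv.Perm α) (H : Finset α) : ℕ := (H.filter (fun x => σ x ∈ H)).card

noncomputable def Z (σ : Equiv.Perm α) (z : ℝ) (A : Finset α) : ℝ :=
  ∑ H ∈ A.powerset, z ^ H.card * 2 ^ (inner σ H)

lemma Z_nonneg (σ : Equiv.Perm α) {z : ℝ} (hz : 0 ≤ z) (A : Finset α) : 0 ≤ Z σ z A := by
  unfold Z; positivity

lemma inner_insert (σ : Equiv.Perm α) (H : Finset α) (v : α) (hv : v ∉ H) (hσ : σ v ≠ v) :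
    inner σ (insert v H) ≤ inner σ H + ((if σ v ∈ H then 1 else 0) + (if σ.symm v ∈ H then 1 else 0)) := by
  unfold inner
  have h1 : (insert v H).filter (fun x => σ x ∈ insert v H) ⊆
      (H.filter (fun x => σ x ∈ H)) ∪ ((if σ v ∈ H then {v} else ∅) ∪ (if σ.symm v ∈ H then {σ.symm v} else ∅)) := by
    intro x hx
    rw [mem_filter, mem_insert, mem_insert] at hx
    rw [mem_union, mem_union, mem_filter]
    obtain ⟨hx1, hx2⟩ := hx
    rcases hx1 with rfl | hx1
    · rcases hx2 with h | h
      · exact absurd h hσ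
      · right; left; simp [h]
    · rcases hx2 with h | h
      · right; right
        have : σ.symm v = x := by rw [← h]; simp
        simp [this, hx1]
      · left; exact ⟨hx1, h⟩
  refine le_trans (card_le_card h1) ?_
  refine le_trans (card_union_le _ _) ?_
  refine Nat.add_le_add_left ?_ _
  refine le_trans (card_union_le _ _) ?_
  refine Nat.add_le_add ?_ ?_
  · split_ifs <;> simp
  · split_ifs <;> simp

lemma inner_insert_fixed (σ : Equiv.Perm α) (H : Finset α) (v : α) (hv : v ∉ H) (hσ : σ v = v) :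
    inner σ (insert v H) ≤ inner σ H + 1 := by
  unfold inner
  have h1 : (insert v H).filter (fun x => σ x ∈ insert v H) ⊆
      insert v (H.filter (fun x => σ x ∈ H)) := by
    intro x hx
    rw [mem_filter, mem_insert, mem_insert] at hx
    rw [mem_insert, mem_filter]
    obtain ⟨hx1, hx2⟩ := hx
    rcases hx1 with rfl | hx1
    · left; rfl
    · rcases hx2 with h | h
      · left
        exact σ.injective (h.trans hσ.symm)
      · right; exact ⟨hx1, h⟩
  exact le_trans (card_le_card h1) (card_insert_le _ _)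

lemma inner_insert_two (σ : Equiv.Perm α) (H : Finset α) (v : α) (hv : v ∉ H) :
    inner σ (insert v H) ≤ inner σ H + 2 := by
  by_cases hσ : σ v = v
  · exact le_trans (inner_insert_fixed σ H v hv hσ) (by omega)
  · refine le_trans (inner_insert σ H v hv hσ) ?_
    split_ifs <;> omega

/-- contribution of the sets containing `u` -/
lemma sum_mem_le (σ : Equiv.Perm α) {z : ℝ} (hz : 0 ≤ z) (A : Finset α) (u : α) :
    ∑ H ∈ A.powerset, (if u ∈ H then (1:ℝ) else 0) * (z ^ H.card * 2 ^ (inner σ H)) ≤ 4 * z * Z σ z A := by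
  by_cases hu : u ∈ A
  · obtain ⟨B, hB, rfl⟩ : ∃ B : Finset α, u ∉ B ∧ A = insert u B :=
      ⟨A.erase u, notMem_erase u A, (insert_erase hu).symm⟩
    have hsub : Z σ z B ≤ Z σ z (insert u B) := by
      unfold Z
      refine sum_le_sum_of_subset_of_nonneg (powerset_mono.mpr (subset_insert _ _)) ?_
      intro H _ _; positivity
    rw [sum_powerset_insert hB]
    have h0 : ∑ t ∈ B.powerset, (if u ∈ t then (1:ℝ) else 0) * (z ^ t.card * 2 ^ (inner σ t)) = 0 := by
      refine sum_eq_zero ?_
      intro t ht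
      have : u ∉ t := fun h => hB (mem_powerset.mp ht h)
      simp [this]
    rw [h0, zero_add]
    have h1 : ∑ t ∈ B.powerset, (if u ∈ insert u t then (1:ℝ) else 0) * (z ^ (insert u t).card * 2 ^ (inner σ (insert u t))) ≤
        ∑ t ∈ B.powerset, 4 * z * (z ^ t.card * 2 ^ (inner σ t)) := by
      refine sum_le_sum ?_
      intro t ht
      have hut : u ∉ t := fun h => hB (mem_powerset.mp ht h)
      rw [if_pos (mem_insert_self _ _), card_insert_of_notMem hut, one_mul]
      have h2 : (2:ℝ) ^ (inner σ (insert u t)) ≤ 2 ^ (inner σ t + 2) :=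
        pow_le_pow_right₀ (by norm_num) (inner_insert_two σ t u hut)
      calc z ^ (t.card + 1) * 2 ^ (inner σ (insert u t)) ≤ z ^ (t.card + 1) * 2 ^ (inner σ t + 2) := by
            gcongr
        _ = 4 * z * (z ^ t.card * 2 ^ (inner σ t)) := by ring
    refine le_trans h1 ?_
    rw [← mul_sum]
    change 4 * z * Z σ z B ≤ _
    gcongr
  · have h0 : ∑ H ∈ A.powerset, (if u ∈ H then (1:ℝ) else 0) * (z ^ H.card * 2 ^ (inner σ H)) = 0 := by
      refine sum_eq_zero ?_
      intro t ht
      have : u ∉ t := fun h => hu (mem_powerset.mp ht h)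
      simp [this]
    rw [h0]
    have := Z_nonneg σ hz A
    positivity

lemma two_pow_le (P Q : Prop) [Decidable P] [Decidable Q] :
    (2:ℝ) ^ ((if P then 1 else 0) + (if Q then 1 else 0)) ≤
      1 + 3 * (if P then (1:ℝ) else 0) + 3 * (if Q then (1:ℝ) else 0) := by
  split_ifs <;> norm_num

lemma Z_insert (σ : Equiv.Perm α) {z : ℝ} (hz : 0 ≤ z) (A : Finset α) (v : α) (hv : v ∉ A) :
    Z σ z (insert v A) ≤ (if σ v = v then 1 + 2 * z else 1 + z + 24 * z ^ 2) * Z σ z A := by
  have hexp : Z σ z (insert v A) = Z σ z A + ∑ t ∈ A.powerset, z ^ (insert v t).card * 2 ^ (inner σ (insert v t)) := by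
    unfold Z
    rw [sum_powerset_insert hv]
  rw [hexp]
  split_ifs with hσ
  · have h1 : ∑ t ∈ A.powerset, z ^ (insert v t).card * 2 ^ (inner σ (insert v t)) ≤ 
        ∑ t ∈ A.powerset, 2 * z * (z ^ t.card * 2 ^ (inner σ t)) := by
      refine sum_le_sum ?_
      intro t ht
      have hut : v ∉ t := fun h => hv (mem_powerset.mp ht h)
      rw [card_insert_of_notMem hut]
      calc z ^ (t.card + 1) * 2 ^ (inner σ (insert v t)) ≤ z ^ (t.card + 1) * 2 ^ (inner σ t + 1) := by
            gcongr
            · norm_num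
            · exact inner_insert_fixed σ t v hut hσ
        _ = 2 * z * (z ^ t.card * 2 ^ (inner σ t)) := by ring
    rw [← mul_sum] at h1
    change _ ≤ 2 * z * Z σ z A at h1
    linarith
  · have h1 : ∑ t ∈ A.powerset, z ^ (insert v t).card * 2 ^ (inner σ (insert v t)) ≤ 
        ∑ t ∈ A.powerset, (z * (z ^ t.card * 2 ^ (inner σ t)) + 
          3 * z * ((if σ v ∈ t then (1:ℝ) else 0) * (z ^ t.card * 2 ^ (inner σ t))) +
          3 * z * ((if σ.symm v ∈ t then (1:ℝ) else 0) * (z ^ t.card * 2 ^ (inner σ t)))) := by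
      refine sum_le_sum ?_
      intro t ht
      have hut : v ∉ t := fun h => hv (mem_powerset.mp ht h)
      rw [card_insert_of_notMem hut]
      calc z ^ (t.card + 1) * 2 ^ (inner σ (insert v t)) ≤ z ^ (t.card + 1) * 2 ^ (inner σ t + ((if σ v ∈ t then 1 else 0) + (if σ.symm v ∈ t then 1 else 0))) := by
            gcongr
            · norm_num
            · exact inner_insert σ t v hut hσ
        _ = z ^ (t.card + 1) * 2 ^ (inner σ t) * 2 ^ ((if σ v ∈ t then 1 else 0) + (if σ.symm v ∈ t then 1 else 0)) := by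
            rw [pow_add 2 (inner σ t)]; ring
        _ ≤ z ^ (t.card + 1) * 2 ^ (inner σ t) * (1 + 3 * (if σ v ∈ t then (1:ℝ) else 0) + 3 * (if σ.symm v ∈ t then (1:ℝ) else 0)) := by
            exact mul_le_mul_of_nonneg_left (two_pow_le _ _) (by positivity)
        _ = _ := by ring
    rw [sum_add_distrib, sum_add_distrib, ← mul_sum, ← mul_sum, ← mul_sum] at h1
    have h2 := sum_mem_le σ hz A (σ v)
    have h3 := sum_mem_le σ hz A (σ.symm v)
    change _ ≤ z * Z σ z A + _ + _ at h1
    have h4 := mul_le_mul_of_nonneg_left h2 (by positivity : (0:ℝ) ≤ 3 * z)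
    have h5 := mul_le_mul_of_nonneg_left h3 (by positivity : (0:ℝ) ≤ 3 * z)
    nlinarith

theorem Z_le (σ : Equiv.Perm α) {z : ℝ} (hz : 0 ≤ z) (A : Finset α) :
    Z σ z A ≤ (1 + 2 * z) ^ (A.filter (fun x => σ x = x)).card *
      (1 + z + 24 * z ^ 2) ^ (A.filter (fun x => ¬ σ x = x)).card := by
  induction A using Finset.induction_on with
  | empty => simp [Z, inner]
  | insert v A hv ih =>
    have h1 := Z_insert σ hz A v hv
    rw [filter_insert, filter_insert]
    by_cases hσ : σ v = v
    · rw [if_pos hσ] at h1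
      rw [if_pos hσ, if_neg (by simpa using hσ), card_insert_of_notMem (by simp [hv]), pow_succ]
      calc _ ≤ _ := h1
        _ ≤ (1 + 2 * z) * ((1 + 2 * z) ^ (A.filter (fun x => σ x = x)).card *
      (1 + z + 24 * z ^ 2) ^ (A.filter (fun x => ¬ σ x = x)).card) := by gcongr
        _ = _ := by ring
    · rw [if_neg hσ] at h1
      rw [if_neg hσ, if_pos hσ, card_insert_of_notMem (by simp [hv]), pow_succ]
      calc _ ≤ _ := h1
        _ ≤ (1 + z + 24 * z ^ 2) * ((1 + 2 * z) ^ (A.filter (fun x => σ x = x)).card *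
      (1 + z + 24 * z ^ 2) ^ (A.filter (fun x => ¬ σ x = x)).card) := by gcongr
        _ = _ := by ring

/-- the weighted count of `t`-subsets -/
theorem W_le (σ : Equiv.Perm α) {z : ℝ} (hz : 0 < z) (A : Finset α) (t : ℕ) :
    ∑ H ∈ A.powersetCard t, (2:ℝ) ^ (inner σ H) ≤ (Z σ z A) / z ^ t := by
  rw [le_div_iff₀ (by positivity), sum_mul]
  unfold Z
  calc ∑ i ∈ powersetCard t A, (2:ℝ) ^ inner σ i * z ^ t = ∑ i ∈ powersetCard t A, z ^ i.card * (2:ℝ) ^ inner σ i := by
        refine sum_congr rfl ?_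
        intro H hH
        rw [(mem_powersetCard.mp hH).2]; ring
    _ ≤ _ := by
        refine sum_le_sum_of_subset_of_nonneg ?_ ?_
        · intro H hH
          exact mem_powerset.mpr (mem_powersetCard.mp hH).1
        · intro H _ _; positivity

end Pool.Agent.Helper1.UniqA
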