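import Mathlib

namespace Pool.Agent.Helper1.UniqB

open Finset

variable {n : ℕ}

/-- the action of a permutation of the vertices on pairs -/
def act (π : Equiv.Perm (Fin n)) : Equiv.Perm (Sym2 (Fin n)) where
  toFun := Sym2.map π
  invFun := Sym2.map π.symm
  left_inv := by
    intro x
    induction x using Sym2.ind with
    | _ a b => simp
  right_inv := by
    intro x
    induction x using Sym2.ind with
    | _ a b => simp

@[simp] lemma act_apply (π : Equiv.Perm (Fin n)) (x : Sym2 (Fin n)) : act π x = Sym2.map π x := rfl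

@[simp] lemma act_symm_apply (π : Equiv.Perm (Fin n)) (x : Sym2 (Fin n)) :
    (act π).symm x = Sym2.map π.symm x := rfl

/-- all edges -/
def P (n : ℕ) : Finset (Sym2 (Fin n)) := univ.filter (fun e => ¬ e.IsDiag)

lemma card_P (n : ℕ) : (P n).card = n.choose 2 := by
  have h := Sym2.card_subtype_not_diag (α := Fin n)
  rw [Fintype.card_fin] at h
  rw [← h, Fintype.card_subtype, P]

lemma fixed_le (π : Equiv.Perm (Fin n)) :
    ((P n).filter (fun x => act π x = x)).card ≤ (n - π.support.card).choose 2 + π.support.card := by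
  have hsub : (P n).filter (fun x => act π x = x) ⊆
      ((π.supportᶜ).offDiag.image (fun p => s(p.1, p.2))) ∪ (π.support.image (fun a => s(a, π a))) := by
    intro x hx
    rw [mem_filter, P, mem_filter] at hx
    induction x using Sym2.ind with
    | _ a b =>
      obtain ⟨⟨_, hab⟩, hx⟩ := hx
      rw [Sym2.mk_isDiag_iff] at hab
      rw [act_apply, Sym2.map_mk, Sym2.eq_iff] at hx
      rw [mem_union, mem_image, mem_image]
      rcases hx with ⟨h1, h2⟩ | ⟨h1, h2⟩
      · left
        refine ⟨(a, b), ?_, rfl⟩
        rw [mem_offDiag]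
        simp [h1, h2, hab]
      · right
        refine ⟨a, ?_, ?_⟩
        · rw [Equiv.Perm.mem_support, h1]; exact fun h => hab h.symm
        · rw [h1]
  refine le_trans (card_le_card hsub) ?_
  refine le_trans (card_union_le _ _) ?_
  refine Nat.add_le_add ?_ card_image_le
  have h := Sym2.card_image_offDiag (π.supportᶜ)
  have h2 : (π.supportᶜ).card = n - π.support.card := by
    rw [card_compl, Fintype.card_fin]
  rw [h2] at h
  exact le_of_eq h

lemma card_support_sub (S : Finset (Fin n)) :
    (univ.filter (fun π : Equiv.Perm (Fin n) => π.support = S)).card ≤ S.card.factorial := by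
  have h := Fintype.card_congr (Equiv.Perm.subtypeEquivSubtypePerm (fun a => a ∈ S))
  rw [Fintype.card_perm, Fintype.card_coe, Fintype.card_subtype] at h
  rw [h]
  refine card_le_card ?_
  intro π hπ
  rw [mem_filter] at hπ ⊢
  refine ⟨mem_univ _, ?_⟩
  intro a ha
  rw [← hπ.2, Equiv.Perm.mem_support, not_not] at ha
  exact ha

lemma card_support_eq (k : ℕ) :
    (univ.filter (fun π : Equiv.Perm (Fin n) => π.support.card = k)).card ≤ n.descFactorial k := by
  have hsub : univ.filter (fun π : Equiv.Perm (Fin n) => π.support.card = k) ⊆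
      (powersetCard k (univ : Finset (Fin n))).biUnion (fun S => univ.filter (fun π : Equiv.Perm (Fin n) => π.support = S)) := by
    intro π hπ
    rw [mem_filter] at hπ
    rw [mem_biUnion]
    refine ⟨π.support, ?_, ?_⟩
    · rw [mem_powersetCard]; exact ⟨subset_univ _, hπ.2⟩
    · simp
  refine le_trans (card_le_card hsub) ?_
  refine le_trans card_biUnion_le ?_
  have : ∑ u ∈ powersetCard k (univ : Finset (Fin n)), (univ.filter (fun π : Equiv.Perm (Fin n) => π.support = u)).card ≤
      ∑ u ∈ powersetCard k (univ : Finset (Fin n)), k.factorial := by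
    refine sum_le_sum ?_
    intro S hS
    have := card_support_sub S
    rw [(mem_powersetCard.mp hS).2] at this
    exact this
  refine le_trans this ?_
  rw [sum_const, card_powersetCard, card_univ, Fintype.card_fin, smul_eq_mul,
    Nat.descFactorial_eq_factorial_mul_choose, mul_comm]

/-- summing over nontrivial permutations by the number of moved points -/
theorem sum_perm_le (φ : ℕ → ℝ) (hφ : ∀ k, 0 ≤ φ k) :
    ∑ π ∈ univ.filter (fun π : Equiv.Perm (Fin n) => π ≠ 1), φ π.support.card ≤
      ∑ k ∈ Finset.Icc 2 n, (n.descFactorial k : ℝ) * φ k := by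
  have hmaps : ∀ π ∈ univ.filter (fun π : Equiv.Perm (Fin n) => π ≠ 1), π.support.card ∈ Finset.Icc 2 n := by
    intro π hπ
    rw [mem_filter] at hπ
    rw [mem_Icc]
    refine ⟨Equiv.Perm.two_le_card_support_of_ne_one hπ.2, ?_⟩
    have := card_le_univ π.support
    rwa [Fintype.card_fin] at this
  rw [← sum_fiberwise_of_maps_to hmaps]
  refine sum_le_sum ?_
  intro k hk
  have h1 : ∑ π ∈ (univ.filter (fun π : Equiv.Perm (Fin n) => π ≠ 1)).filter (fun π => π.support.card = k), φ π.support.card =
      ∑ π ∈ (univ.filter (fun π : Equiv.Perm (Fin n) => π ≠ 1)).filter (fun π => π.support.card = k), φ k := by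
    refine sum_congr rfl ?_
    intro π hπ
    rw [(mem_filter.mp hπ).2]
  rw [h1, sum_const, nsmul_eq_mul]
  refine mul_le_mul_of_nonneg_right ?_ (hφ k)
  have h2 : ((univ.filter (fun π : Equiv.Perm (Fin n) => π ≠ 1)).filter (fun π => π.support.card = k)).card ≤
      (univ.filter (fun π : Equiv.Perm (Fin n) => π.support.card = k)).card := by
    refine card_le_card ?_
    intro π hπ
    rw [mem_filter] at hπ ⊢
    exact ⟨mem_univ _, hπ.2⟩
  exact_mod_cast le_trans h2 (card_support_eq k)

end Pool.Agent.Helper1.UniqB
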