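import Mathlib

namespace Pool.Agent.Helper1.UniqC

open Finset Real

lemma fact_upper (n : ℕ) (hn : 1 ≤ n) : (n.factorial : ℝ) ≤ exp 1 * √n * (n / exp 1) ^ n := by
  obtain ⟨m, rfl⟩ : ∃ m, n = m + 1 := ⟨n - 1, by omega⟩
  have h := Stirling.stirlingSeq'_antitone (Nat.zero_le m)
  simp only [Function.comp] at h
  change Stirling.stirlingSeq (m + 1) ≤ Stirling.stirlingSeq 1 at h
  rw [Stirling.stirlingSeq_one, Stirling.stirlingSeq] at h
  rw [div_le_iff₀ (by positivity)] at h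
  refine le_trans h (le_of_eq ?_)
  rw [Real.sqrt_mul (by norm_num)]
  have h2 : √(2:ℝ) ≠ 0 := by positivity
  field_simp

lemma const_bound : exp 1 ^ 2 ≤ 3 * √(2 * π) := by
  have h1 : exp 1 ≤ 2.7182818286 := le_of_lt Real.exp_one_lt_d9
  have h2 : (2.5:ℝ) ≤ √(2 * π) := by
    apply Real.le_sqrt_of_sq_le
    have := Real.pi_gt_d4
    norm_num at this ⊢
    linarith
  have h0 : 0 < exp 1 := exp_pos 1
  have h3 : exp 1 ^ 2 ≤ 2.7182818286 ^ 2 := by gcongr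
  have h4 : (2.7182818286:ℝ) ^ 2 ≤ 3 * 2.5 := by norm_num
  linarith

/-- lower bound for the binomial coefficient -/
lemma choose_lower (t s : ℕ) (ht : 1 ≤ t) (hs : 1 ≤ s) :
    ((t + s : ℕ) : ℝ) ^ (t + s) ≤ 3 * √t * ((t + s).choose t) * (t:ℝ) ^ t * (s:ℝ) ^ s := by
  have h1 := Stirling.le_factorial_stirling (t + s)
  have h2 := fact_upper t ht
  have h3 := fact_upper s hs
  have hch : ((t + s).choose t : ℝ) * t.factorial * s.factorial = (t + s).factorial := by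
    have := Nat.add_choose_mul_factorial_mul_factorial t s
    rw [← this, ← Nat.choose_symm_add]
    push_cast
    ring
  have ht0 : (0:ℝ) < t := by exact_mod_cast ht
  have hs0 : (0:ℝ) < s := by exact_mod_cast hs
  have he : (0:ℝ) < exp 1 := exp_pos 1
  set C : ℝ := ((t + s).choose t : ℝ) with hC
  have hC0 : 0 ≤ C := by positivity
  have hN0 : (0:ℝ) < ((t + s : ℕ) : ℝ) := by push_cast; positivity
  set N : ℝ := ((t + s : ℕ) : ℝ) with hN
  have h4 : √(2 * π * N) * (N / exp 1) ^ (t + s) ≤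
      C * (exp 1 * √t * (t / exp 1) ^ t) * (exp 1 * √s * (s / exp 1) ^ s) := by
    rw [← hch] at h1
    refine le_trans h1 ?_
    gcongr
  have h5 : (N / exp 1) ^ (t + s) = N ^ (t + s) / exp 1 ^ (t + s) := by rw [div_pow]
  have h6 : C * (exp 1 * √t * (t / exp 1) ^ t) * (exp 1 * √s * (s / exp 1) ^ s) =
      (C * exp 1 ^ 2 * √t * √s * (t:ℝ) ^ t * (s:ℝ) ^ s) / exp 1 ^ (t + s) := by
    rw [div_pow, div_pow, pow_add]
    field_simp
  rw [h5, h6, ← mul_div_assoc, div_le_div_iff_of_pos_right (by positivity)] at h4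
  have h7 : √(2 * π * N) = √(2 * π) * √N := Real.sqrt_mul (by positivity) _
  have h8 : √s ≤ √N := by
    apply Real.sqrt_le_sqrt
    rw [hN]; push_cast; linarith
  have h9 : √(2 * π) * √N * N ^ (t + s) ≤ (3 * √(2 * π)) * √N * (√t * C * (t:ℝ) ^ t * (s:ℝ) ^ s) := by
    rw [h7] at h4
    calc √(2 * π) * √N * N ^ (t + s) ≤ C * exp 1 ^ 2 * √t * √s * (t:ℝ) ^ t * (s:ℝ) ^ s := h4
      _ = exp 1 ^ 2 * √s * (√t * C * (t:ℝ) ^ t * (s:ℝ) ^ s) := by ring
      _ ≤ (3 * √(2 * π)) * √N * (√t * C * (t:ℝ) ^ t * (s:ℝ) ^ s) := by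
          have := const_bound
          gcongr
  have hpos : 0 < √(2 * π) * √N := by positivity
  have h10 : √(2 * π) * √N * N ^ (t + s) ≤ √(2 * π) * √N * (3 * √t * C * (t:ℝ) ^ t * (s:ℝ) ^ s) := by
    calc _ ≤ _ := h9
      _ = _ := by ring
  exact le_of_mul_le_mul_left h10 hpos

/-- first estimate: untilted -/
lemma R1 (t s f g : ℕ) (ht : 1 ≤ t) (hs : 1 ≤ s) (hfg : f + g = t + s) (W : ℝ)
    (hW : ∀ z : ℝ, 0 < z → W * z ^ t ≤ (1 + 2 * z) ^ f * (1 + z + 24 * z ^ 2) ^ g) :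
    W / (2 ^ t * ((t + s).choose t : ℝ)) ≤
      3 * √t * exp (-(((t:ℝ) / (2 * s)) - 26 * ((t:ℝ) / (2 * s)) ^ 2) * g) := by
  have ht0 : (0:ℝ) < t := by exact_mod_cast ht
  have hs0 : (0:ℝ) < s := by exact_mod_cast hs
  set z : ℝ := (t:ℝ) / (2 * s) with hz
  have hz0 : 0 < z := by positivity
  have h1 := hW z hz0
  have hC0 : (0:ℝ) < ((t + s).choose t : ℝ) := by
    exact_mod_cast Nat.choose_pos (Nat.le_add_right t s)
  have h2 : 1 + z + 24 * z ^ 2 ≤ (1 + 2 * z) * exp (-(z - 26 * z ^ 2)) := by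
    have h3 : 1 + (-(z - 26 * z ^ 2)) ≤ exp (-(z - 26 * z ^ 2)) := by
      have := Real.add_one_le_exp (-(z - 26 * z ^ 2))
      linarith
    calc 1 + z + 24 * z ^ 2 ≤ (1 + 2 * z) * (1 + (-(z - 26 * z ^ 2))) := by nlinarith [pow_pos hz0 3]
      _ ≤ _ := by gcongr
  have h4 : W * z ^ t ≤ (1 + 2 * z) ^ (t + s) * exp (-(z - 26 * z ^ 2) * g) := by
    calc W * z ^ t ≤ _ := h1
      _ ≤ (1 + 2 * z) ^ f * ((1 + 2 * z) * exp (-(z - 26 * z ^ 2))) ^ g := by gcongr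
      _ = (1 + 2 * z) ^ (f + g) * exp (-(z - 26 * z ^ 2)) ^ g := by rw [mul_pow, pow_add]; ring
      _ = _ := by rw [hfg, ← Real.exp_nat_mul]; ring_nf
  have h5 := choose_lower t s ht hs
  have h6 : (1 + 2 * z) = ((t + s : ℕ) : ℝ) / s := by
    rw [hz]; push_cast; field_simp; ring
  have h7 : 2 ^ t * z ^ t = (t:ℝ) ^ t / s ^ t := by
    rw [← mul_pow, ← div_pow]
    congr 1
    rw [hz]; field_simp
  rw [div_le_iff₀ (by positivity)]
  have h8 : W * z ^ t ≤ (3 * √t * exp (-(z - 26 * z ^ 2) * g) * (2 ^ t * ((t + s).choose t : ℝ))) * z ^ t := by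
    have h9 : (1 + 2 * z) ^ (t + s) ≤ 3 * √t * ((t + s).choose t) * (2 ^ t * z ^ t) := by
      rw [h6, h7, div_pow, pow_add (s:ℝ) t s, div_le_iff₀ (by positivity)]
      calc ((t + s : ℕ) : ℝ) ^ (t + s) ≤ _ := h5
        _ = _ := by field_simp
    calc W * z ^ t ≤ _ := h4
      _ ≤ (3 * √t * ((t + s).choose t) * (2 ^ t * z ^ t)) * exp (-(z - 26 * z ^ 2) * g) := by gcongr
      _ = _ := by ring
  exact le_of_mul_le_mul_right h8 (by positivity)

/-- second estimate: tilted -/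
lemma R2 (t s f g : ℕ) (ht : 1 ≤ t) (hs : 1 ≤ s) (hfg : f + g = t + s) (W : ℝ)
    (hW : ∀ z : ℝ, 0 < z → W * z ^ t ≤ (1 + 2 * z) ^ f * (1 + z + 24 * z ^ 2) ^ g) :
    W / (2 ^ t * ((t + s).choose t : ℝ)) ≤
      3 * √t * (1 / 2) ^ t * exp (t * (f / ((t + s : ℕ) : ℝ))) * exp (25 * (t:ℝ) ^ 2 / ((t + s : ℕ) : ℝ)) := by
  have ht0 : (0:ℝ) < t := by exact_mod_cast ht
  have hs0 : (0:ℝ) < s := by exact_mod_cast hs
  have hN0 : (0:ℝ) < ((t + s : ℕ) : ℝ) := by push_cast; positivity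
  set N : ℝ := ((t + s : ℕ) : ℝ) with hN
  have hNe : N = t + s := by rw [hN]; push_cast; ring
  have hf0 : (0:ℝ) ≤ f := Nat.cast_nonneg f
  have hg0 : (0:ℝ) ≤ g := Nat.cast_nonneg g
  have hfgr : (f:ℝ) + g = N := by rw [hN, ← hfg]; push_cast; ring
  set z : ℝ := (t:ℝ) / (N + f) with hz
  have hz0 : 0 < z := by positivity
  have hzN : z ≤ t / N := by rw [hz]; gcongr; linarith
  have h1 := hW z hz0
  have hC0 : (0:ℝ) < ((t + s).choose t : ℝ) := by
    exact_mod_cast Nat.choose_pos (Nat.le_add_right t s)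
  have h2 : (1 + 2 * z) ^ f * (1 + z + 24 * z ^ 2) ^ g ≤ exp (t + 24 * (t:ℝ) ^ 2 / N) := by
    have e1 : 1 + 2 * z ≤ exp (2 * z) := by linarith [Real.add_one_le_exp (2 * z)]
    have e2 : 1 + z + 24 * z ^ 2 ≤ exp (z + 24 * z ^ 2) := by linarith [Real.add_one_le_exp (z + 24 * z ^ 2)]
    calc (1 + 2 * z) ^ f * (1 + z + 24 * z ^ 2) ^ g ≤ exp (2 * z) ^ f * exp (z + 24 * z ^ 2) ^ g := by gcongr
      _ = exp (f * (2 * z) + g * (z + 24 * z ^ 2)) := by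
          rw [← Real.exp_nat_mul, ← Real.exp_nat_mul, ← Real.exp_add]
      _ ≤ exp (t + 24 * (t:ℝ) ^ 2 / N) := by
          apply Real.exp_le_exp.mpr
          have e3 : (f:ℝ) * (2 * z) + g * z = t := by
            have : (f:ℝ) * (2 * z) + g * z = z * (N + f) := by rw [← hfgr]; ring
            rw [this, hz]; field_simp
          have e4 : (g:ℝ) * (24 * z ^ 2) ≤ 24 * (t:ℝ) ^ 2 / N := by
            have hgN : (g:ℝ) ≤ N := by linarith
            calc (g:ℝ) * (24 * z ^ 2) ≤ N * (24 * (t / N) ^ 2) := by gcongr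
              _ = _ := by field_simp
          nlinarith
  have h5 := choose_lower t s ht hs
  rw [← hN] at h5
  -- s ^ s / N ^ s
  have h6 : ((s:ℝ) / N) ^ s ≤ exp (-(t:ℝ) + (t:ℝ) ^ 2 / N) := by
    have e1 : (s:ℝ) / N ≤ exp (-((t:ℝ) / N)) := by
      have := Real.add_one_le_exp (-((t:ℝ) / N))
      have e2 : (s:ℝ) / N = -((t:ℝ) / N) + 1 := by
        rw [hNe]; field_simp; ring
      rw [e2]; exact this
    calc ((s:ℝ) / N) ^ s ≤ exp (-((t:ℝ) / N)) ^ s := by gcongr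
      _ = exp (-(t:ℝ) + (t:ℝ) ^ 2 / N) := by
          rw [← Real.exp_nat_mul]
          congr 1
          have : (s:ℝ) = N - t := by rw [hNe]; ring
          rw [this]; field_simp; ring
  rw [div_le_iff₀ (by positivity)]
  -- reduce to the inequality multiplied by z^t
  have h7 : W * z ^ t ≤ (3 * √t * (1 / 2) ^ t * exp (t * (f / N)) * exp (25 * (t:ℝ) ^ 2 / N) *
      (2 ^ t * ((t + s).choose t : ℝ))) * z ^ t := by
    have e0 : N ^ (t + s) = N ^ t * N ^ s := pow_add _ _ _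
    have e1 : 1 ≤ 3 * √t * ((t + s).choose t : ℝ) * ((t:ℝ) / N) ^ t * ((s:ℝ) / N) ^ s := by
      rw [div_pow, div_pow]
      have : 3 * √t * ((t + s).choose t : ℝ) * ((t:ℝ) ^ t / N ^ t) * ((s:ℝ) ^ s / N ^ s) =
          (3 * √t * ((t + s).choose t) * (t:ℝ) ^ t * (s:ℝ) ^ s) / N ^ (t + s) := by
        rw [e0]; field_simp
      rw [this, one_le_div (by positivity)]
      exact h5
    have e2 : ((t:ℝ) / N) ^ t ≤ exp (t * (f / N)) * z ^ t := by
      have e3 : (t:ℝ) / N ≤ exp (f / N) * z := by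
        have e4 := Real.add_one_le_exp ((f:ℝ) / N)
        have e5 : (t:ℝ) / N = ((f:ℝ) / N + 1) * z := by
          rw [hz]; field_simp; ring
        rw [e5]; gcongr
      calc ((t:ℝ) / N) ^ t ≤ (exp (f / N) * z) ^ t := by gcongr
        _ = _ := by rw [mul_pow, ← Real.exp_nat_mul]
    have e6 : exp (t + 24 * (t:ℝ) ^ 2 / N) * ((s:ℝ) / N) ^ s ≤ exp (25 * (t:ℝ) ^ 2 / N) := by
      calc exp (t + 24 * (t:ℝ) ^ 2 / N) * ((s:ℝ) / N) ^ s ≤ exp (t + 24 * (t:ℝ) ^ 2 / N) * exp (-(t:ℝ) + (t:ℝ) ^ 2 / N) := by gcongr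
        _ = exp (25 * (t:ℝ) ^ 2 / N) := by rw [← Real.exp_add]; congr 1; ring
    calc W * z ^ t ≤ exp (t + 24 * (t:ℝ) ^ 2 / N) := le_trans h1 h2
      _ ≤ exp (t + 24 * (t:ℝ) ^ 2 / N) * (3 * √t * ((t + s).choose t : ℝ) * ((t:ℝ) / N) ^ t * ((s:ℝ) / N) ^ s) := by
          nlinarith [exp_pos (t + 24 * (t:ℝ) ^ 2 / N)]
      _ = (exp (t + 24 * (t:ℝ) ^ 2 / N) * ((s:ℝ) / N) ^ s) * (3 * √t * ((t + s).choose t : ℝ)) * ((t:ℝ) / N) ^ t := by ring
      _ ≤ exp (25 * (t:ℝ) ^ 2 / N) * (3 * √t * ((t + s).choose t : ℝ)) * (exp (t * (f / N)) * z ^ t) := by gcongr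
      _ = _ := by
          have : ((1:ℝ) / 2) ^ t * 2 ^ t = 1 := by rw [← mul_pow]; norm_num
          linear_combination (-(exp (25 * (t:ℝ) ^ 2 / N) * (3 * √t * ((t + s).choose t : ℝ)) * (exp (t * (f / N)) * z ^ t))) * this
  exact le_of_mul_le_mul_right h7 (by positivity)

end Pool.Agent.Helper1.UniqC
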