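import Mathlib

namespace Pool.Agent.Helper1.UniqD

open Finset Real Filter Topology

/-- the number of missing edges -/
noncomputable def tt (n : ℕ) : ℕ := ⌊(n : ℝ) * Real.log n / Real.log 2⌋₊

def Good (n : ℕ) : Prop :=
  (1 : ℝ) ≤ Real.log n ∧ 50000 * Real.log n ≤ n ∧ 13 * Real.log n ≤ exp (0.02 * Real.log n) ∧
  exp (0.74 * Real.log n) + 1.7 + 4.01 * Real.log n + 105 * Real.log n ^ 2 ≤ n / 2 ∧
  exp (-(0.05 * Real.log n)) ≤ 1 / 2

lemma log2_bounds {l : ℝ} (_ : 0 ≤ l) : 1.4426 * l ≤ l / Real.log 2 ∧ l / Real.log 2 ≤ 1.4427 * l := by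
  have h1 := Real.log_two_gt_d9
  have h2 := Real.log_two_lt_d9
  have h0 : 0 < Real.log 2 := by linarith
  constructor
  · rw [le_div_iff₀ h0]; nlinarith
  · rw [div_le_iff₀ h0]; nlinarith

lemma tt_bounds (n : ℕ) (_ : 0 ≤ Real.log n) :
    (n:ℝ) * (Real.log n / Real.log 2) - 1 < tt n ∧ (tt n : ℝ) ≤ n * (Real.log n / Real.log 2) := by
  have h0 : 0 < Real.log 2 := Real.log_pos (by norm_num)
  have hnn : 0 ≤ (n:ℝ) * Real.log n / Real.log 2 := by positivity
  have e : (n:ℝ) * (Real.log n / Real.log 2) = (n:ℝ) * Real.log n / Real.log 2 := by ring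
  rw [e]
  constructor
  · have := Nat.lt_floor_add_one ((n:ℝ) * Real.log n / Real.log 2)
    unfold tt; linarith
  · exact Nat.floor_le hnn

lemma choose_two_real (n : ℕ) : ((n.choose 2 : ℕ) : ℝ) = n * (n - 1) / 2 := by
  exact Nat.cast_choose_two ℝ n

lemma sqrt_bound (n : ℕ) (hG : Good n) : 3 * √(tt n : ℝ) ≤ exp (0.51 * Real.log n) := by
  obtain ⟨h1, h2, h3, h4, h5⟩ := hG
  set l := Real.log n with hl
  have hn0 : (0:ℝ) < n := by linarith
  have hb := log2_bounds (by linarith : (0:ℝ) ≤ l)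
  have ht := tt_bounds n (by rw [← hl]; linarith)
  rw [← hl] at ht
  have h6 : (9:ℝ) * tt n ≤ exp (1.02 * l) := by
    have e1 : exp (1.02 * l) = n * exp (0.02 * l) := by
      have : exp l = n := Real.exp_log hn0
      rw [← this, ← Real.exp_add]; congr 1; ring
    rw [e1]
    have e2 : (tt n : ℝ) ≤ n * (1.4427 * l) := le_trans ht.2 (by gcongr; exact hb.2)
    have e3 : (n:ℝ) * (13 * l) ≤ n * exp (0.02 * l) := by gcongr
    nlinarith [mul_pos hn0 (by linarith : (0:ℝ) < l)]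
  have e4 : 3 * √(tt n : ℝ) = √(9 * tt n) := by
    rw [Real.sqrt_mul (by norm_num)]
    have : √(9:ℝ) = 3 := by
      rw [show (9:ℝ) = 3 ^ 2 by norm_num]; exact Real.sqrt_sq (by norm_num)
    rw [this]
  rw [e4]
  apply Real.sqrt_le_iff.mpr
  refine ⟨(exp_pos _).le, ?_⟩
  rw [← Real.exp_nat_mul]
  refine le_trans h6 (le_of_eq ?_)
  congr 1; push_cast; ring

lemma t_pos (n : ℕ) (hG : Good n) : 1 ≤ tt n := by
  obtain ⟨h1, h2, h3, h4, h5⟩ := hG
  have hb := log2_bounds (by linarith : (0:ℝ) ≤ Real.log n)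
  have ht := tt_bounds n (by linarith)
  have : (1:ℝ) < tt n := by nlinarith
  have : 1 < tt n := by exact_mod_cast this
  omega

lemma t_lt (n : ℕ) (hG : Good n) : (tt n : ℝ) + (n:ℝ) ^ 2 / 4 ≤ ((n.choose 2 : ℕ) : ℝ) := by
  obtain ⟨h1, h2, h3, h4, h5⟩ := hG
  have hb := log2_bounds (by linarith : (0:ℝ) ≤ Real.log n)
  have ht := tt_bounds n (by linarith)
  rw [choose_two_real]
  have hn0 : (0:ℝ) < n := by linarith
  have e2 : (tt n : ℝ) ≤ n * (1.4427 * Real.log n) := le_trans ht.2 (by gcongr; exact hb.2)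
  nlinarith

set_option maxHeartbeats 4000000 in
/-- regime of few moved points -/
lemma regime1 (n k : ℕ) (hG : Good n) (hk : 2 ≤ k) (hkn : 2 * k ≤ n) (s : ℕ) (hs : tt n + s = n.choose 2)
    (g : ℝ) (hg : (n.choose 2 : ℝ) - ((n - k).choose 2 : ℕ) - k ≤ g) :
    (n.descFactorial k : ℝ) * (3 * √(tt n : ℝ) * exp (-(((tt n:ℝ) / (2 * s)) - 26 * ((tt n:ℝ) / (2 * s)) ^ 2) * g)) ≤
      exp (-(0.05 * Real.log n)) ^ k := by
  have hsq := sqrt_bound n hG
  have htl := t_lt n hG
  obtain ⟨h1, h2, h3, h4, h5⟩ := hG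
  set l := Real.log n with hl
  have hn0 : (0:ℝ) < n := by linarith
  have hl0 : (0:ℝ) < l := by linarith
  have hb := log2_bounds (by linarith : (0:ℝ) ≤ l)
  have ht := tt_bounds n (by rw [← hl]; linarith)
  rw [← hl] at ht
  have hkr : (2:ℝ) ≤ k := by exact_mod_cast hk
  have hknr : (2:ℝ) * k ≤ n := by exact_mod_cast hkn
  have hsr : (tt n : ℝ) + s = (n:ℝ) * (n - 1) / 2 := by
    rw [← choose_two_real, ← hs]; push_cast; ring
  rw [choose_two_real] at htl
  set T : ℝ := (tt n : ℝ) with hT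
  set S : ℝ := (s : ℝ) with hS
  set x : ℝ := (n : ℝ) with hx
  have hT0 : 0 ≤ T := Nat.cast_nonneg _
  have hS1 : x ^ 2 / 2 ≤ 2 * S := by nlinarith
  have hS2 : 2 * S ≤ x ^ 2 := by nlinarith
  have hS0 : 0 < 2 * S := by nlinarith [pow_pos hn0 2]
  set z : ℝ := T / (2 * S) with hz
  have hTL : T ≤ x * (1.4427 * l) := le_trans ht.2 (by gcongr; exact hb.2)
  have hTU : x * (1.4426 * l) - 1 ≤ T := by
    have : x * (1.4426 * l) ≤ x * (l / Real.log 2) := by gcongr; exact hb.1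
    linarith [ht.1]
  -- bounds on z
  have hz1 : T / x ^ 2 ≤ z := by
    rw [hz]; gcongr
  have hz2 : z ≤ 2.8854 * l / x := by
    rw [hz, div_le_div_iff₀ hS0 hn0]
    nlinarith
  have hz0 : 0 ≤ z := by rw [hz]; positivity
  have hw : 1.438 * l / x ≤ z - 26 * z ^ 2 := by
    have e1 : z ^ 2 ≤ (2.8854 * l / x) ^ 2 := by gcongr
    have e2 : 1.438 * l / x ≤ T / x ^ 2 - 26 * (2.8854 * l / x) ^ 2 := by
      rw [div_pow, mul_div_assoc', ← sub_div, div_le_div_iff₀ hn0 (by positivity)]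
      have e3 : 1.438 * l * x ≤ T - 26 * (2.8854 * l) ^ 2 := by
        have q1 : 50000 * l * l ≤ x * l := mul_le_mul_of_nonneg_right h2 hl0.le
        have q2 : 1 ≤ l * l := by nlinarith
        linarith
      calc 1.438 * l * x ^ 2 = (1.438 * l * x) * x := by ring
        _ ≤ _ := mul_le_mul_of_nonneg_right e3 hn0.le
    linarith
  -- bound on g
  have hg2 : k * (x - k / 2 - 3 / 2) ≤ g := by
    refine le_trans (le_of_eq ?_) hg
    rw [choose_two_real, choose_two_real, Nat.cast_sub (by omega)]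
    ring
  have hpos : 0 ≤ (k:ℝ) * (x - k / 2 - 3 / 2) := by
    apply mul_nonneg (by linarith); linarith
  have hprod : (1.438 * l / x) * (k * (x - k / 2 - 3 / 2)) ≤ (z - 26 * z ^ 2) * g := by
    have : 0 ≤ 1.438 * l / x := by positivity
    gcongr
    linarith
  have hd : (n.descFactorial k : ℝ) ≤ exp (k * l) := by
    have e1 : (n.descFactorial k : ℝ) ≤ x ^ k := by
      rw [hx]; exact_mod_cast Nat.descFactorial_le_pow n k
    have e2 : x ^ k = exp (k * l) := by
      rw [Real.exp_nat_mul, hl, Real.exp_log hn0]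
    rw [← e2]; exact e1
  have hfin : k * l + (0.51 * l + -((z - 26 * z ^ 2) * g)) ≤ k * (-(0.05 * l)) := by
    have e1 : (1.438 * l / x) * (k * (x - k / 2 - 3 / 2)) = 1.438 * l * k * (1 - k / x / 2 - 3 / 2 / x) := by
      field_simp
    rw [e1] at hprod
    have e2 : 3 / 2 / x ≤ 0.0001 := by
      rw [div_le_iff₀ hn0]; linarith
    have e3 : 0.01 * l ≤ 0.5 * l := by linarith
    set y : ℝ := k / x with hy
    have hlk : 0 < l * k := by positivity
    have hkl : 2 * l ≤ l * k := by nlinarith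
    clear_value z y
    by_cases hc : y ≤ 1 / 10
    · have e4 : 1.438 * l * k * (0.9499) ≤ 1.438 * l * k * (1 - y / 2 - 3 / 2 / x) := by
        gcongr
        linarith
      linarith
    · have hy2 : y ≤ 1 / 2 := by
        rw [hy, div_le_iff₀ hn0]; linarith
      have hk3 : (100:ℝ) ≤ k := by
        have : x / 10 < k := by
          by_contra hcon
          apply hc
          rw [hy, div_le_iff₀ hn0]; linarith
        linarith
      have e4 : 1.438 * l * k * (0.7499) ≤ 1.438 * l * k * (1 - y / 2 - 3 / 2 / x) := by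
        gcongr
        linarith
      have hkl2 : 100 * l ≤ l * k := by
        have := mul_le_mul_of_nonneg_left hk3 hl0.le
        linarith
      linarith
  calc (n.descFactorial k : ℝ) * (3 * √T * exp (-(z - 26 * z ^ 2) * g))
      ≤ exp (k * l) * (exp (0.51 * l) * exp (-(z - 26 * z ^ 2) * g)) := by gcongr
    _ = exp (k * l + (0.51 * l + -((z - 26 * z ^ 2) * g))) := by
        rw [Real.exp_add, Real.exp_add]; ring_nf
    _ ≤ exp (k * (-(0.05 * l))) := Real.exp_le_exp.mpr hfin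
    _ = _ := by rw [Real.exp_nat_mul]

/-- upper Stirling bound, in the form needed -/
lemma fact_upper (n : ℕ) (hn : 1 ≤ n) : (n.factorial : ℝ) ≤ exp 1 * √n * (n / exp 1) ^ n := by
  obtain ⟨m, rfl⟩ : ∃ m, n = m + 1 := ⟨n - 1, by omega⟩
  have h := Stirling.stirlingSeq'_antitone (Nat.zero_le m)
  simp only [Function.comp] at h
  change Stirling.stirlingSeq (m + 1) ≤ Stirling.stirlingSeq 1 at h
  rw [Stirling.stirlingSeq_one, Stirling.stirlingSeq] at h
  rw [div_le_iff₀ (by positivity)] at h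
  refine le_trans h (le_of_eq ?_)
  rw [Real.sqrt_mul (by norm_num)]
  have h2 : √(2:ℝ) ≠ 0 := by positivity
  field_simp

lemma fact_exp (n : ℕ) (hn : (1:ℝ) ≤ n) : (n.factorial : ℝ) ≤ exp (1 + 0.5 * Real.log n + n * Real.log n - n) := by
  have h := fact_upper n (by exact_mod_cast hn)
  have hn0 : (0:ℝ) < n := by linarith
  refine le_trans h (le_of_eq ?_)
  have e1 : √(n:ℝ) = exp (0.5 * Real.log n) := by
    rw [Real.sqrt_eq_rpow, Real.rpow_def_of_pos hn0]; congr 1; ring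
  have e2 : ((n:ℝ) / exp 1) ^ n = exp (n * Real.log n - n) := by
    have : (n:ℝ) / exp 1 = exp (Real.log n - 1) := by
      rw [Real.exp_sub, Real.exp_log hn0]
    rw [this, ← Real.exp_nat_mul]; congr 1; ring
  rw [e1, e2, ← Real.exp_add, ← Real.exp_add]; congr 1; ring

/-- regime of many moved points -/
lemma regime2 (n k : ℕ) (hG : Good n) (hk : n < 2 * k) (hkn : k ≤ n) :
    (n.descFactorial k : ℝ) * (3 * √(tt n : ℝ) * (1 / 2) ^ (tt n) *
      exp (tt n * ((((n - k).choose 2 : ℕ) + k : ℝ) / ((n.choose 2 : ℕ) : ℝ))) *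
      exp (25 * (tt n:ℝ) ^ 2 / ((n.choose 2 : ℕ) : ℝ))) ≤
      (exp (0.74 * Real.log n)) ^ (n - k) / (n - k).factorial * (exp (-(exp (0.74 * Real.log n))) * exp (-((n:ℝ) / 2))) := by
  have hsq := sqrt_bound n hG
  have htl := t_lt n hG
  obtain ⟨h1, h2, h3, h4, h5⟩ := hG
  set l := Real.log n with hl
  have hn0 : (0:ℝ) < n := by linarith
  have hl0 : (0:ℝ) < l := by linarith
  have hb := log2_bounds (by linarith : (0:ℝ) ≤ l)
  have ht := tt_bounds n (by rw [← hl]; linarith)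
  rw [← hl] at ht
  obtain ⟨m, hm⟩ : ∃ m, m = n - k := ⟨_, rfl⟩
  have hmk : m + k = n := by omega
  rw [← hm]
  have hmr : (2:ℝ) * m ≤ n := by
    have : 2 * m ≤ n := by omega
    exact_mod_cast this
  have hkr : (k:ℝ) ≤ n := by exact_mod_cast hkn
  have hfe := fact_exp n (by linarith)
  have hdesc : (n.descFactorial k : ℝ) = n.factorial / m.factorial := by
    rw [eq_div_iff (by positivity), hm]
    have := Nat.factorial_mul_descFactorial hkn
    rw [← this]; push_cast; ring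
  rw [← hl] at hfe
  rw [choose_two_real, choose_two_real]
  set T : ℝ := (tt n : ℝ) with hT
  set x : ℝ := (n : ℝ) with hx
  have hT0 : 0 ≤ T := Nat.cast_nonneg _
  have hm0 : (0:ℝ) ≤ m := Nat.cast_nonneg _
  have hx1 : (0:ℝ) < x * (x - 1) / 2 := by
    have : 0 < x - 1 := by linarith
    positivity
  have hTL : T ≤ x * (1.4427 * l) := le_trans ht.2 (by gcongr; exact hb.2)
  -- (1/2)^t
  have e1 : ((1:ℝ) / 2) ^ (tt n) ≤ exp (0.7 - x * l) := by
    have h20 : 0 < Real.log 2 := Real.log_pos (by norm_num)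
    have : ((1:ℝ) / 2) = exp (-Real.log 2) := by
      rw [Real.exp_neg, Real.exp_log (by norm_num)]; norm_num
    rw [this, ← Real.exp_nat_mul]
    apply Real.exp_le_exp.mpr
    have h6 : (x * (l / Real.log 2) - 1) * Real.log 2 ≤ T * Real.log 2 := by
      have := ht.1.le
      gcongr
    have h7 : (x * (l / Real.log 2) - 1) * Real.log 2 = x * l - Real.log 2 := by
      field_simp
    have := Real.log_two_lt_d9
    nlinarith
  have e2 : T * (((m:ℝ) * (m - 1) / 2 + k) / (x * (x - 1) / 2)) ≤ 0.74 * l * m + 3 * l := by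
    rw [← mul_div_assoc, div_le_iff₀ hx1]
    have a1 : (m:ℝ) * (m - 1) / 2 + k ≤ m * x / 4 + x := by nlinarith
    have a1' : (0:ℝ) ≤ (m:ℝ) * (m - 1) / 2 + k := by
      rcases Nat.eq_zero_or_pos m with h | h
      · rw [h]; simp
      · have : (1:ℝ) ≤ m := by exact_mod_cast h
        have : 0 ≤ (m:ℝ) * (m - 1) := mul_nonneg (by linarith) (by linarith)
        have hk0 : (0:ℝ) ≤ k := Nat.cast_nonneg _
        linarith
    have a2 : T * ((m:ℝ) * (m - 1) / 2 + k) ≤ (x * (1.4427 * l)) * (m * x / 4 + x) := by gcongr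
    refine le_trans a2 ?_
    have a3 : x * (1.4427 * l) * (m * x / 4 + x) = (x * l) * (1.4427 * (m / 4 + 1) * x) := by ring
    have a4 : (0.74 * l * m + 3 * l) * (x * (x - 1) / 2) = (x * l) * ((0.74 * m + 3) * (x - 1) / 2) := by ring
    rw [a3, a4]
    have hxl : 0 ≤ x * l := by positivity
    apply mul_le_mul_of_nonneg_left _ hxl
    nlinarith
  have e3 : 25 * T ^ 2 / (x * (x - 1) / 2) ≤ 105 * l ^ 2 := by
    rw [div_le_iff₀ hx1]
    have a1 : T ^ 2 ≤ (x * (1.4427 * l)) ^ 2 := by gcongr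
    have a2 : 25 * (x * (1.4427 * l)) ^ 2 = (x * l ^ 2) * (25 * 1.4427 ^ 2 * x) := by ring
    have a3 : 105 * l ^ 2 * (x * (x - 1) / 2) = (x * l ^ 2) * (105 * (x - 1) / 2) := by ring
    have a4 : (x * l ^ 2) * (25 * 1.4427 ^ 2 * x) ≤ (x * l ^ 2) * (105 * (x - 1) / 2) := by
      apply mul_le_mul_of_nonneg_left _ (by positivity)
      have : (50000:ℝ) ≤ x := by linarith
      linarith
    calc 25 * T ^ 2 ≤ 25 * (x * (1.4427 * l)) ^ 2 := by gcongr
      _ = _ := a2
      _ ≤ _ := a4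
      _ = _ := a3.symm
  have hx' : (n.factorial : ℝ) ≤ exp (1 + 0.5 * l + x * l - x) := hfe
  have hexp : (exp (1 + 0.5 * l + x * l - x)) * (exp (0.51 * l) * exp (0.7 - x * l) * exp (0.74 * l * m + 3 * l) * exp (105 * l ^ 2)) ≤
      (exp (0.74 * l)) ^ m * (exp (-(exp (0.74 * l))) * exp (-(x / 2))) := by
    rw [← Real.exp_nat_mul, ← Real.exp_add, ← Real.exp_add, ← Real.exp_add, ← Real.exp_add, ← Real.exp_add, ← Real.exp_add]
    apply Real.exp_le_exp.mpr
    linarith
  rw [hdesc, div_mul_eq_mul_div, div_mul_eq_mul_div]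
  apply div_le_div_of_nonneg_right _ (by positivity)
  refine le_trans ?_ hexp
  gcongr

/-- the total error -/
noncomputable def phi (n k : ℕ) : ℝ :=
  if 2 * k ≤ n then
    3 * √(tt n : ℝ) * exp (-(((tt n:ℝ) / (2 * (n.choose 2 - tt n : ℕ))) - 26 * ((tt n:ℝ) / (2 * (n.choose 2 - tt n : ℕ))) ^ 2) *
      ((n.choose 2 : ℝ) - ((n - k).choose 2 : ℕ) - k))
  else
    3 * √(tt n : ℝ) * (1 / 2) ^ (tt n) *
      exp (tt n * ((((n - k).choose 2 : ℕ) + k : ℝ) / ((n.choose 2 : ℕ) : ℝ))) *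
      exp (25 * (tt n:ℝ) ^ 2 / ((n.choose 2 : ℕ) : ℝ))

lemma phi_nonneg (n k : ℕ) : 0 ≤ phi n k := by
  unfold phi
  split_ifs <;> positivity

theorem total (n : ℕ) (hG : Good n) :
    ∑ k ∈ Finset.Icc 2 n, (n.descFactorial k : ℝ) * phi n k ≤
      4 * exp (-(0.05 * Real.log n)) + exp (-((n:ℝ) / 2)) := by
  set r : ℝ := exp (-(0.05 * Real.log n)) with hr
  set a : ℝ := exp (0.74 * Real.log n) with ha
  have hr0 : 0 < r := exp_pos _
  have hr1 : r ≤ 1 / 2 := hG.2.2.2.2
  have ha0 : 0 < a := exp_pos _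
  have htl := t_lt n hG
  have hle : tt n ≤ n.choose 2 := by
    have : (tt n : ℝ) ≤ ((n.choose 2 : ℕ) : ℝ) := by
      have : 0 ≤ (n:ℝ) ^ 2 / 4 := by positivity
      linarith
    exact_mod_cast this
  have h1 : ∀ k ∈ Finset.Icc 2 n, (n.descFactorial k : ℝ) * phi n k ≤
      2 * r * (1 / 2) ^ k + a ^ (n - k) / (n - k).factorial * (exp (-a) * exp (-((n:ℝ) / 2))) := by
    intro k hk
    rw [mem_Icc] at hk
    unfold phi
    split_ifs with hc
    · have h2 := regime1 n k hG hk.1 hc (n.choose 2 - tt n) (by omega) _ le_rfl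
      rw [← hr] at h2
      have h3 : r ^ k ≤ 2 * r * (1 / 2) ^ k := by
        obtain ⟨j, rfl⟩ : ∃ j, k = j + 1 := ⟨k - 1, by omega⟩
        rw [pow_succ, pow_succ]
        have : r ^ j ≤ (1 / 2) ^ j := by gcongr
        nlinarith
      have h4 : 0 ≤ a ^ (n - k) / (n - k).factorial * (exp (-a) * exp (-((n:ℝ) / 2))) := by positivity
      linarith
    · have h2 := regime2 n k hG (by omega) hk.2
      rw [← ha] at h2
      have h3 : 0 ≤ 2 * r * (1 / 2) ^ k := by positivity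
      linarith
  refine le_trans (sum_le_sum h1) ?_
  rw [sum_add_distrib, ← mul_sum, ← sum_mul]
  have h5 : ∑ k ∈ Finset.Icc 2 n, ((1:ℝ) / 2) ^ k ≤ 2 := by
    have e1 : ∑ k ∈ Finset.Icc 2 n, ((1:ℝ) / 2) ^ k ≤ ∑ k ∈ Finset.range (n + 1), ((1:ℝ) / 2) ^ k := by
      refine sum_le_sum_of_subset_of_nonneg ?_ ?_
      · intro k hk; rw [mem_Icc] at hk; rw [mem_range]; omega
      · intro k _ _; positivity
    refine le_trans e1 ?_
    have e2 := Summable.sum_le_tsum (Finset.range (n + 1)) (fun i _ => by positivity) (summable_geometric_of_lt_one (by norm_num) (by norm_num : (1:ℝ)/2 < 1))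
    rw [tsum_geometric_two] at e2
    exact e2
  have h6 : ∑ k ∈ Finset.Icc 2 n, a ^ (n - k) / (n - k).factorial ≤ exp a := by
    have e1 : ∑ k ∈ Finset.Icc 2 n, a ^ (n - k) / (n - k).factorial ≤ ∑ j ∈ Finset.range (n + 1), a ^ j / j.factorial := by
      rw [← Finset.sum_range_reflect (fun j => a ^ j / (j.factorial : ℝ)) (n + 1)]
      refine le_trans (sum_le_sum_of_subset_of_nonneg (t := Finset.range (n + 1)) ?_ ?_) (le_of_eq ?_)
      · intro k hk; rw [mem_Icc] at hk; rw [mem_range]; omega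
      · intro k _ _; positivity
      · refine sum_congr rfl ?_
        intro k _
        rw [show n + 1 - 1 - k = n - k by omega]
    exact le_trans e1 (Real.sum_le_exp_of_nonneg ha0.le _)
  have h7 : (∑ k ∈ Finset.Icc 2 n, a ^ (n - k) / (n - k).factorial) * (exp (-a) * exp (-((n:ℝ) / 2))) ≤
      exp (-((n:ℝ) / 2)) := by
    calc _ ≤ exp a * (exp (-a) * exp (-((n:ℝ) / 2))) := by gcongr
      _ = exp (-((n:ℝ) / 2)) := by rw [← mul_assoc, ← Real.exp_add]; simp
  nlinarith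

end Pool.Agent.Helper1.UniqD
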