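import Pool.Agent.Helper1.UniqA
import Pool.Agent.Helper1.UniqB
import Pool.Agent.Helper1.UniqC
import Pool.Agent.Helper1.UniqD

namespace Pool.Agent.Helper1.UniqE

open Finset Real Filter Topology
open Pool.Agent.Helper1.UniqA Pool.Agent.Helper1.UniqB Pool.Agent.Helper1.UniqC Pool.Agent.Helper1.UniqD

lemma ev_lin (c d : ℝ) (hc : 0 < c) (hd : 0 < d) : ∀ᶠ l : ℝ in atTop, c * l ≤ exp (d * l) := by
  have h1 := (Real.tendsto_pow_mul_exp_neg_atTop_nhds_zero 1).comp (tendsto_id.const_mul_atTop hd)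
  have h2 : ∀ᶠ l : ℝ in atTop, (d * l) ^ 1 * exp (-(d * l)) < d / c :=
    h1.eventually (gt_mem_nhds (by positivity))
  filter_upwards [h2] with l hl
  rw [pow_one, Real.exp_neg] at hl
  have he := exp_pos (d * l)
  have h3 : d * l < d / c * exp (d * l) := by
    rwa [← div_eq_mul_inv, div_lt_iff₀ he] at hl
  have h4 : c * (d * l) < c * (d / c * exp (d * l)) := by gcongr
  have h5 : c * (d / c * exp (d * l)) = d * exp (d * l) := by field_simp
  rw [h5] at h4
  have h6 : d * (c * l) < d * exp (d * l) := by linarith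
  exact (lt_of_mul_lt_mul_left h6 hd.le).le

lemma ev_quad (c : ℝ) (hc : 0 < c) : ∀ᶠ l : ℝ in atTop, c * l ^ 2 ≤ exp l := by
  have h1 := Real.tendsto_pow_mul_exp_neg_atTop_nhds_zero 2
  have h2 : ∀ᶠ l : ℝ in atTop, l ^ 2 * exp (-l) < 1 / c :=
    h1.eventually (gt_mem_nhds (by positivity))
  filter_upwards [h2] with l hl
  have he := exp_pos l
  rw [Real.exp_neg, ← div_eq_mul_inv, div_lt_iff₀ he] at hl
  have h4 : c * l ^ 2 < c * (1 / c * exp l) := by gcongr
  have h5 : c * (1 / c * exp l) = exp l := by field_simp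
  linarith

lemma exp_neg_small : exp (-1 : ℝ) ≤ 0.4 := by
  have h := Real.exp_one_gt_d9
  rw [Real.exp_neg, inv_le_comm₀ (exp_pos 1) (by norm_num)]
  norm_num
  linarith

lemma ev_good : ∀ᶠ n : ℕ in atTop, Good n := by
  have hl : Tendsto (fun n : ℕ => Real.log n) atTop atTop :=
    Real.tendsto_log_atTop.comp tendsto_natCast_atTop_atTop
  have e1 := hl.eventually (eventually_ge_atTop (20:ℝ))
  have e2 := hl.eventually (ev_lin 50000 1 (by norm_num) (by norm_num))
  have e3 := hl.eventually (ev_lin 13 0.02 (by norm_num) (by norm_num))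
  have e4 := hl.eventually (ev_quad 444 (by norm_num))
  filter_upwards [e1, e2, e3, e4, eventually_ge_atTop 1] with n h1 h2 h3 h4 hn
  have hn0 : (0:ℝ) < n := by exact_mod_cast hn
  have hexp : exp (Real.log n) = n := Real.exp_log hn0
  rw [one_mul, hexp] at h2
  set l := Real.log n with hl
  have hq : exp (-(0.05 * l)) ≤ exp (-1) := by
    apply Real.exp_le_exp.mpr; linarith
  have hq0 := exp_neg_small
  refine ⟨by linarith, h2, h3, ?_, by linarith⟩
  rw [hexp] at h4
  have h5 : exp (0.74 * l) ≤ n / 4 := by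
    have e : exp (0.74 * l) = n * exp (-(0.26 * l)) := by
      rw [← hexp, ← Real.exp_add]; congr 1; ring
    have e' : exp (-(0.26 * l)) ≤ exp (-1) ^ 2 := by
      rw [← Real.exp_nat_mul]
      apply Real.exp_le_exp.mpr
      push_cast; linarith
    have e'' : exp (-1:ℝ) ^ 2 ≤ 0.4 ^ 2 := by
      have := (exp_pos (-1:ℝ)).le
      gcongr
    rw [e]
    nlinarith
  nlinarith

lemma z_nonneg (n : ℕ) (hG : Good n) (s : ℕ) (hs : tt n + s = n.choose 2) :
    0 ≤ ((tt n:ℝ) / (2 * s)) - 26 * ((tt n:ℝ) / (2 * s)) ^ 2 := by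
  have htl := t_lt n hG
  obtain ⟨h1, h2, h3, h4, h5⟩ := hG
  have hb := log2_bounds (by linarith : (0:ℝ) ≤ Real.log n)
  have ht := tt_bounds n (by linarith)
  have hn0 : (0:ℝ) < n := by linarith
  have hTL : (tt n : ℝ) ≤ n * (1.4427 * Real.log n) := le_trans ht.2 (by gcongr; exact hb.2)
  have hsr : (tt n : ℝ) + s = ((n.choose 2 : ℕ) : ℝ) := by rw [← hs]; push_cast; ring
  have hS : (n:ℝ) ^ 2 / 4 ≤ s := by linarith
  have hS0 : (0:ℝ) < s := lt_of_lt_of_le (by positivity) hS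
  have hT0 : (0:ℝ) ≤ tt n := Nat.cast_nonneg _
  set z : ℝ := (tt n : ℝ) / (2 * s) with hz
  have hz0 : 0 ≤ z := by positivity
  have hz1 : z ≤ 1 / 26 := by
    rw [hz, div_le_iff₀ (by positivity)]
    have : (n:ℝ) * (75 * Real.log n) ≤ n * n := by gcongr; linarith
    nlinarith
  nlinarith

/-- the bound for one permutation -/
lemma perm_bound (n : ℕ) (hG : Good n) (ρ : Equiv.Perm (Fin n)) :
    ∑ H ∈ (P n).powersetCard (tt n), (2:ℝ) ^ (inner (act ρ).symm H) ≤
      2 ^ (tt n) * ((n.choose 2).choose (tt n) : ℝ) * phi n ρ.support.card := by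
  have htp := t_pos n hG
  have htl := t_lt n hG
  have hn0 : (0:ℝ) < n := by
    obtain ⟨h1, h2, h3, h4, h5⟩ := hG
    linarith
  have hlt : tt n < n.choose 2 := by
    have : (tt n : ℝ) < ((n.choose 2 : ℕ) : ℝ) := by
      have : 0 < (n:ℝ) ^ 2 / 4 := by positivity
      linarith
    exact_mod_cast this
  obtain ⟨s, hs⟩ : ∃ s, tt n + s = n.choose 2 := ⟨n.choose 2 - tt n, by omega⟩
  have hs1 : 1 ≤ s := by omega
  set f := ((P n).filter (fun x => (act ρ).symm x = x)).card with hf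
  set g := ((P n).filter (fun x => ¬ (act ρ).symm x = x)).card with hg
  have hfg : f + g = tt n + s := by
    rw [hs, ← card_P n, hf, hg, card_filter_add_card_filter_not]
  have hfle : f ≤ (n - ρ.support.card).choose 2 + ρ.support.card := by
    refine le_trans (le_of_eq ?_) (fixed_le ρ)
    rw [hf]
    congr 1
    refine filter_congr ?_
    intro x _
    rw [Equiv.symm_apply_eq]
    exact eq_comm
  set W : ℝ := ∑ H ∈ (P n).powersetCard (tt n), (2:ℝ) ^ (inner (act ρ).symm H) with hW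
  have hWz : ∀ z : ℝ, 0 < z → W * z ^ (tt n) ≤ (1 + 2 * z) ^ f * (1 + z + 24 * z ^ 2) ^ g := by
    intro z hz
    have h1 := W_le (act ρ).symm hz (P n) (tt n)
    rw [le_div_iff₀ (by positivity)] at h1
    exact le_trans h1 (Z_le (act ρ).symm hz.le (P n))
  have hC0 : (0:ℝ) < ((n.choose 2).choose (tt n) : ℝ) := by
    exact_mod_cast Nat.choose_pos hlt.le
  rw [← div_le_iff₀' (by positivity)]
  have hr1 := R1 (tt n) s f g htp hs1 hfg W hWz
  have hr2 := R2 (tt n) s f g htp hs1 hfg W hWz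
  rw [hs] at hr1 hr2
  unfold phi
  split_ifs with hc
  · refine le_trans hr1 ?_
    have hss : (n.choose 2 - tt n : ℕ) = s := by omega
    rw [hss]
    have hz := z_nonneg n hG s hs
    have hgg : (n.choose 2 : ℝ) - ((n - ρ.support.card).choose 2 : ℕ) - ρ.support.card ≤ g := by
      have e1 : (f:ℝ) + g = ((n.choose 2 : ℕ) : ℝ) := by rw [← hs, ← hfg]; push_cast; ring
      have e2 : (f:ℝ) ≤ ((n - ρ.support.card).choose 2 : ℕ) + ρ.support.card := by exact_mod_cast hfle
      linarith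
    have hx : -(((tt n:ℝ) / (2 * s)) - 26 * ((tt n:ℝ) / (2 * s)) ^ 2) * g ≤
        -(((tt n:ℝ) / (2 * s)) - 26 * ((tt n:ℝ) / (2 * s)) ^ 2) *
          ((n.choose 2 : ℝ) - ((n - ρ.support.card).choose 2 : ℕ) - ρ.support.card) := by
      nlinarith
    have := Real.exp_le_exp.mpr hx
    gcongr
  · refine le_trans hr2 ?_
    have e2 : (f:ℝ) ≤ ((n - ρ.support.card).choose 2 : ℕ) + ρ.support.card := by exact_mod_cast hfle
    gcongr

/-- the error term -/
noncomputable def eps (n : ℕ) : ℝ := 4 * exp (-(0.05 * Real.log n)) + exp (-((n:ℝ) / 2))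

lemma eps_tendsto : Tendsto eps atTop (𝓝 0) := by
  have hl : Tendsto (fun n : ℕ => Real.log n) atTop atTop :=
    Real.tendsto_log_atTop.comp tendsto_natCast_atTop_atTop
  have h1 : Tendsto (fun n : ℕ => exp (-(0.05 * Real.log n))) atTop (𝓝 0) :=
    Real.tendsto_exp_neg_atTop_nhds_zero.comp (hl.const_mul_atTop (by norm_num))
  have h2 : Tendsto (fun n : ℕ => exp (-((n:ℝ) / 2))) atTop (𝓝 0) :=
    Real.tendsto_exp_neg_atTop_nhds_zero.comp (tendsto_natCast_atTop_atTop.atTop_div_const (by norm_num))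
  have h3 := (h1.const_mul 4).add h2
  rw [mul_zero, add_zero] at h3
  exact h3

/-- the double sum -/
theorem double_sum (n : ℕ) (hG : Good n) :
    ∑ H ∈ (P n).powersetCard (tt n), ∑ ρ ∈ univ.filter (fun ρ : Equiv.Perm (Fin n) => ρ ≠ 1),
      (2:ℝ) ^ (inner (act ρ).symm H) ≤
      2 ^ (tt n) * ((n.choose 2).choose (tt n) : ℝ) * eps n := by
  rw [sum_comm]
  have h1 : ∑ ρ ∈ univ.filter (fun ρ : Equiv.Perm (Fin n) => ρ ≠ 1),
      ∑ H ∈ (P n).powersetCard (tt n), (2:ℝ) ^ (inner (act ρ).symm H) ≤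
      ∑ ρ ∈ univ.filter (fun ρ : Equiv.Perm (Fin n) => ρ ≠ 1),
        2 ^ (tt n) * ((n.choose 2).choose (tt n) : ℝ) * phi n ρ.support.card :=
    sum_le_sum (fun ρ _ => perm_bound n hG ρ)
  refine le_trans h1 ?_
  rw [← mul_sum]
  have h2 := sum_perm_le (n := n) (phi n) (phi_nonneg n)
  have h3 := total n hG
  have h4 := le_trans h2 h3
  gcongr
  exact h4

end Pool.Agent.Helper1.UniqE
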